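import Pool.Agent.H98.EQ.Symb

/-!
`(p₁, p₂)` is a classical integrable system.
-/

open MeasureTheory
open scoped ContDiff

noncomputable section

namespace Pool.H98.EQ

theorem sm_p₁ : ContDiff ℝ ∞ (fun z : R2 × R2 => p₁ z.1 z.2) := by
  have h1 : ContDiff ℝ ∞ (fun z : R2 × R2 => Wf z.1) := sm_Wf.comp contDiff_fst
  have h2 : ContDiff ℝ ∞ (fun z : R2 × R2 => Bf z.1) := sm_Bf.comp contDiff_fst
  have h3 : ContDiff ℝ ∞ (fun z : R2 × R2 => Wf z.1 * z.2.2 + Bf z.1 * z.2.1) := by fun_prop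
  exact h3

theorem sm_p₂ : ContDiff ℝ ∞ (fun z : R2 × R2 => p₂ z.1 z.2) := by
  have h2 : ContDiff ℝ ∞ (fun z : R2 × R2 => Gf z.1) := sm_Gf.comp contDiff_fst
  have h3 : ContDiff ℝ ∞ (fun z : R2 × R2 => Gf z.1 * z.2.1 ^ 2) := by fun_prop
  exact h3

theorem fd_base {f : R2 → ℝ} (hf : ContDiff ℝ ∞ f) (z : R2 × R2) :
    HasFDerivAt (fun z : R2 × R2 => f z.1)
      ((fderiv ℝ f z.1).comp (ContinuousLinearMap.fst ℝ R2 R2)) z :=
  HasFDerivAt.comp z (sm_diff hf z.1).hasFDerivAt (ContinuousLinearMap.fst ℝ R2 R2).hasFDerivAt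

theorem fd_xi (z : R2 × R2) : HasFDerivAt (fun z : R2 × R2 => z.2.1)
    ((ContinuousLinearMap.fst ℝ ℝ ℝ).comp (ContinuousLinearMap.snd ℝ R2 R2)) z :=
  ((ContinuousLinearMap.fst ℝ ℝ ℝ).comp (ContinuousLinearMap.snd ℝ R2 R2)).hasFDerivAt

theorem fd_eta (z : R2 × R2) : HasFDerivAt (fun z : R2 × R2 => z.2.2)
    ((ContinuousLinearMap.snd ℝ ℝ ℝ).comp (ContinuousLinearMap.snd ℝ R2 R2)) z :=
  ((ContinuousLinearMap.snd ℝ ℝ ℝ).comp (ContinuousLinearMap.snd ℝ R2 R2)).hasFDerivAt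

theorem fderiv_p₁ (z v : R2 × R2) : dd p₁ z v
    = fderiv ℝ Wf z.1 v.1 * z.2.2 + Wf z.1 * v.2.2 + (fderiv ℝ Bf z.1 v.1 * z.2.1
      + Bf z.1 * v.2.1) := by
  have h := ((fd_base sm_Wf z).mul (fd_eta z)).add ((fd_base sm_Bf z).mul (fd_xi z))
  have h' : HasFDerivAt (fun y : R2 × R2 => p₁ y.1 y.2) _ z := h
  rw [dd, h'.fderiv]
  simp
  ring

theorem fderiv_p₂ (z v : R2 × R2) : dd p₂ z v
    = fderiv ℝ Gf z.1 v.1 * z.2.1 ^ 2 + Gf z.1 * (2 * z.2.1 * v.2.1) := by
  have h := (fd_base sm_Gf z).mul ((fd_xi z).pow 2)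
  have h' : HasFDerivAt (fun y : R2 × R2 => p₂ y.1 y.2) _ z := h
  rw [dd, h'.fderiv]
  simp
  ring

theorem comm_p (z : R2 × R2) : poisson p₁ p₂ z = 0 := by
  unfold poisson
  rw [fderiv_p₁, fderiv_p₁, fderiv_p₁, fderiv_p₁, fderiv_p₂, fderiv_p₂, fderiv_p₂, fderiv_p₂]
  have h := pde z.1
  have hW : fderiv ℝ Wf z.1 (1, 0) = 0 := congrFun dx_Wf z.1
  unfold dx du at h
  simp only [map_zero, zero_mul, mul_zero, mul_one, zero_add, add_zero, hW]
  linear_combination z.2.1 ^ 2 * h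

theorem countable_sin (a : ℝ) : {u : ℝ | Real.sin u = a}.Countable := by
  by_cases h : ∃ u0, Real.sin u0 = a
  · obtain ⟨u0, hu0⟩ := h
    refine Set.Countable.mono (s₂ := Set.range (fun k : ℤ => u0 - 2 * k * Real.pi) ∪
      Set.range (fun k : ℤ => (2 * k + 1) * Real.pi - u0)) ?_
      ((Set.countable_range _).union (Set.countable_range _))
    intro u hu
    have hu' : Real.sin u = Real.sin u0 := by rw [hu0]; exact hu
    obtain ⟨k, hk | hk⟩ := Real.sin_eq_sin_iff.1 hu'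
    · left; exact ⟨k, by show u0 - 2 * k * Real.pi = u; linarith⟩
    · right; exact ⟨k, by show (2 * k + 1) * Real.pi - u0 = u; linarith⟩
  · have : {u : ℝ | Real.sin u = a} = ∅ := by
      ext u
      simp only [Set.mem_empty_iff_false, iff_false]
      exact fun hu => h ⟨u, hu⟩
    rw [this]; exact Set.countable_empty

theorem ae_sin (a : ℝ) : ∀ᵐ u : ℝ, Real.sin u ≠ a := by
  have := (countable_sin a).ae_notMem (volume : Measure ℝ)
  filter_upwards [this] with u hu
  exact hu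

theorem ae_half (P : ℝ → Prop) (h : ∀ᵐ x : ℝ, P x) : ∀ᵐ x : ℝ, P (x / 2) := by
  have hq : Measure.QuasiMeasurePreserving (fun x : ℝ => x / 2) volume volume := by
    have : (fun x : ℝ => x / 2) = fun x : ℝ => (2⁻¹ : ℝ) * x := by funext x; ring
    rw [this]
    refine ⟨by fun_prop, ?_⟩
    rw [Real.map_volume_mul_left (by norm_num : (2⁻¹ : ℝ) ≠ 0)]
    exact Measure.smul_absolutelyContinuous
  exact hq.ae h

theorem ae_G : ∀ᵐ p : R2, Gf p ≠ 0 := by
  have hmeas : MeasurableSet {p : R2 | Gf p = 0} :=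
    (isClosed_singleton.preimage sm_Gf.continuous).measurableSet
  have h0 : (volume : Measure R2) {p : R2 | Gf p = 0} = 0 := by
    rw [Measure.volume_eq_prod, Measure.measure_prod_null hmeas]
    have h1 : ∀ᵐ x : ℝ, Real.sin (x / 2) ≠ 0 := ae_half _ (ae_sin 0)
    have h2 : ∀ᵐ x : ℝ, Real.cos (x / 2) ≠ 0 := by
      refine ae_half (fun t => Real.cos t ≠ 0) ?_
      filter_upwards [ae_sin 1, ae_sin (-1)] with x h3 h4 h5
      have := Real.sin_sq_add_cos_sq x
      rw [h5] at this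
      have h6 : (Real.sin x - 1) * (Real.sin x + 1) = 0 := by nlinarith
      rcases mul_eq_zero.1 h6 with h7 | h7
      · exact h3 (by linarith)
      · exact h4 (by linarith)
    filter_upwards [h1, h2] with x hs hc
    show volume (Prod.mk x ⁻¹' {p : R2 | Gf p = 0}) = 0
    refine Set.Countable.measure_zero ?_ _
    refine (countable_sin (-6 * Real.sin (x / 2) / Real.cos (x / 2))).mono ?_
    intro u hu
    have hu' : Gf (x, u) = 0 := hu
    unfold Gf gp at hu'
    rw [div_eq_zero_iff] at hu'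
    have hQ := (pow_pos (Qf_pos (x, u)) 2).ne'
    have h3 := hu'.resolve_right hQ
    have h4 : (6 * Real.sin (x / 2) + Real.cos (x / 2) * Real.sin u) ^ 5 = 0 := by
      rcases mul_eq_zero.1 h3 with h5 | h5
      · exfalso
        rcases mul_eq_zero.1 h5 with h6 | h6
        · rcases mul_eq_zero.1 h6 with h7 | h7
          · norm_num at h7
          · exact hs h7
        · exact hc (pow_eq_zero_iff (by norm_num) |>.1 h6)
      · exact h5
    have h5 := pow_eq_zero_iff (by norm_num) |>.1 h4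
    show Real.sin u = _
    field_simp
    linarith
  have := measure_eq_zero_iff_ae_notMem.1 h0
  filter_upwards [this] with p hp
  exact hp

theorem indep_p : ∀ᵐ z : R2 × R2 ∂volume, ∀ s t : ℝ,
    (∀ v, s * dd p₁ z v + t * dd p₂ z v = 0) → s = 0 ∧ t = 0 := by
  have hW : ∀ᵐ z : R2 × R2 ∂volume, Wf z.1 ≠ 0 := by
    have h1 : ∀ᵐ p : R2, Wf p ≠ 0 := by
      have h2 := (Measure.quasiMeasurePreserving_snd (μ := (volume : Measure ℝ))
        (ν := (volume : Measure ℝ))).ae (ae_sin 0)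
      rw [← Measure.volume_eq_prod] at h2
      filter_upwards [h2] with p hp
      exact pow_ne_zero 3 hp
    have h3 := (Measure.quasiMeasurePreserving_fst (μ := (volume : Measure R2))
        (ν := (volume : Measure R2))).ae h1
    rwa [← Measure.volume_eq_prod] at h3
  have hG : ∀ᵐ z : R2 × R2 ∂volume, Gf z.1 ≠ 0 := by
    have h3 := (Measure.quasiMeasurePreserving_fst (μ := (volume : Measure R2))
        (ν := (volume : Measure R2))).ae ae_G
    rwa [← Measure.volume_eq_prod] at h3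
  have hx : ∀ᵐ z : R2 × R2 ∂volume, z.2.1 ≠ 0 := by
    have h0 : ∀ᵐ t : ℝ, t ≠ 0 := by
      have := (Set.countable_singleton (0:ℝ)).ae_notMem (volume : Measure ℝ)
      filter_upwards [this] with t ht
      exact ht
    have h1 : ∀ᵐ p : R2, p.1 ≠ 0 := by
      have h2 := (Measure.quasiMeasurePreserving_fst (μ := (volume : Measure ℝ))
        (ν := (volume : Measure ℝ))).ae h0
      rwa [← Measure.volume_eq_prod] at h2
    have h3 := (Measure.quasiMeasurePreserving_snd (μ := (volume : Measure R2))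
        (ν := (volume : Measure R2))).ae h1
    rwa [← Measure.volume_eq_prod] at h3
  filter_upwards [hW, hG, hx] with z h1 h2 h3
  intro s t hst
  have e1 := hst (0, (0, 1))
  have e2 := hst (0, (1, 0))
  simp only [fderiv_p₁, fderiv_p₂, map_zero] at e1 e2
  have hs : s = 0 := by
    have : s * Wf z.1 = 0 := by linarith
    exact (mul_eq_zero.1 this).resolve_right h1
  subst hs
  refine ⟨rfl, ?_⟩
  have h4 : t * (2 * Gf z.1 * z.2.1) = 0 := by linarith
  exact (mul_eq_zero.1 h4).resolve_right (mul_ne_zero (mul_ne_zero two_ne_zero h2) h3)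

theorem classical_p : IsClassical p₁ p₂ where
  smooth₁ := sm_p₁
  smooth₂ := sm_p₂
  per₁ := fun ξ x => by simp only [p₁, (SP_W.per x).1, (SP_W.per x).2, (SP_B.per x).1, (SP_B.per x).2]; exact ⟨trivial, trivial⟩
  per₂ := fun ξ x => by simp only [p₂, (SP_G.per x).1, (SP_G.per x).2]; exact ⟨trivial, trivial⟩
  comm := comm_p
  indep := indep_p

/-- Formal quantisation fails in setting (b): a classical integrable system on `T^*T²`, with
components in `S²(T^*T²)`, which is not the pair of principal symbols of symmetric operators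
commuting modulo `O(ħ⁴)`. -/
theorem main : ∃ p₁ p₂ : R2 → R2 → ℝ, IsClassical p₁ p₂ ∧
    IsSymbol 2 (fun x ξ => ((p₁ x ξ : ℝ) : ℂ)) ∧ IsSymbol 2 (fun x ξ => ((p₂ x ξ : ℝ) : ℂ)) ∧
    ¬ HasWeakQuantisation p₁ p₂ :=
  ⟨p₁, p₂, classical_p, sym_p₁, sym_p₂, no_quantisation⟩

/-- Exact quantisation fails in setting (b). -/
theorem main_exact : ∃ p₁ p₂ : R2 → R2 → ℝ, IsClassical p₁ p₂ ∧
    IsSymbol 2 (fun x ξ => ((p₁ x ξ : ℝ) : ℂ)) ∧ IsSymbol 2 (fun x ξ => ((p₂ x ξ : ℝ) : ℂ)) ∧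
    ¬ HasQuantisation p₁ p₂ :=
  ⟨p₁, p₂, classical_p, sym_p₁, sym_p₂, fun h => no_quantisation h.weak⟩

end Pool.H98.EQ
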