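import Mathlib

/-!
Definitions for `MP_c1d796_mp`, setting (b), on the two-dimensional torus
`X = T² = (ℝ/2πℤ)²` with its Lebesgue density.
-/

open MeasureTheory Complex
open scoped ContDiff

noncomputable section

namespace Pool.H98.EQ

/-- The plane `ℝ²`; it is used both as the universal cover of the torus `T² = (ℝ/2πℤ)²`
and as the fibre of its cotangent bundle. -/
abbrev R2 := ℝ × ℝ

/-- `f` is `2π`-periodic in both variables. -/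
def IsPer {F : Type*} (f : R2 → F) : Prop :=
  ∀ x : R2, f (x.1 + 2 * Real.pi, x.2) = f x ∧ f (x.1, x.2 + 2 * Real.pi) = f x

/-- `f ∈ C^∞(T²)`: smooth `2π`-periodic complex functions on the plane. -/
def IsSm (f : R2 → ℂ) : Prop := ContDiff ℝ ∞ f ∧ IsPer f

/-- Lebesgue measure on the torus, i.e. on the fundamental domain `(0,2π]²`. -/
def mu : Measure R2 :=
  (volume : Measure R2).restrict (Set.Ioc 0 (2 * Real.pi) ×ˢ Set.Ioc 0 (2 * Real.pi))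

/-- The exponential `e_k(x) = exp(i k·x)`, `k ∈ ℤ²`. -/
def ex (k : ℤ × ℤ) (x : R2) : ℂ := Complex.exp (I * (k.1 * x.1 + k.2 * x.2))

/-- The inner product of `L²(T²)`. -/
def ip (u v : R2 → ℂ) : ℂ := ∫ x, (starRingEnd ℂ) (u x) * v x ∂mu

/-- Fourier coefficients of a function on the torus. -/
def fc (u : R2 → ℂ) (k : ℤ × ℤ) : ℂ := ((2 * Real.pi : ℝ) : ℂ)⁻¹ ^ 2 * ip (ex k) u

/-- The partial derivative `∂_{x₁}^i ∂_{x₂}^j ∂_{ξ₁}^k ∂_{ξ₂}^l a` at `(x,ξ)`. -/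
def pder (i j k l : ℕ) (a : R2 → R2 → ℂ) (x ξ : R2) : ℂ :=
  iteratedDeriv i (fun x₁ => iteratedDeriv j (fun x₂ => iteratedDeriv k (fun ξ₁ =>
    iteratedDeriv l (fun ξ₂ => a (x₁, x₂) (ξ₁, ξ₂)) ξ.2) ξ.1) x.2) x.1

/-- The Kohn–Nirenberg class `S^m(T^*T²)`: functions `a(x,ξ)`, smooth, `2π`-periodic in `x`, with
`|∂_{x₁}^i ∂_{x₂}^j ∂_{ξ₁}^k ∂_{ξ₂}^l a| ≤ C (1+|ξ|)^(m-k-l)` for all `i, j, k, l`. -/
structure IsSymbol (m : ℝ) (a : R2 → R2 → ℂ) : Prop where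
  smooth : ContDiff ℝ ∞ (fun z : R2 × R2 => a z.1 z.2)
  per : ∀ ξ, IsPer (fun x => a x ξ)
  bound : ∀ i j k l : ℕ, ∃ C : ℝ, ∀ x ξ : R2,
    ‖pder i j k l a x ξ‖ ≤ C * (1 + ‖ξ‖) ^ (m - k - l)

/-- `σ_ħ(x,ξ)`, `0 < ħ ≤ ħ₀`, is a semiclassical symbol of order `m` with the expansion
`σ_ħ ∼ ∑ ħ^j a_j`, `a_j ∈ S^(m-j)(T^*T²)`: for every `N`, `σ_ħ - ∑_{j<N} ħ^j a_j` is in
`ħ^N S^(m-N)(T^*T²)`, uniformly in `ħ`. -/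
structure HasExpansion (m ħ₀ : ℝ) (σ : ℝ → R2 → R2 → ℂ) (a : ℕ → R2 → R2 → ℂ) : Prop where
  sym : ∀ j : ℕ, IsSymbol (m - j) (a j)
  smooth : ∀ ħ : ℝ, 0 < ħ → ħ ≤ ħ₀ → ContDiff ℝ ∞ (fun z : R2 × R2 => σ ħ z.1 z.2)
  per : ∀ ħ : ℝ, 0 < ħ → ħ ≤ ħ₀ → ∀ ξ, IsPer (fun x => σ ħ x ξ)
  rem : ∀ N i j k l : ℕ, ∃ C : ℝ, ∀ ħ : ℝ, 0 < ħ → ħ ≤ ħ₀ → ∀ x ξ : R2,
    ‖pder i j k l (fun y ζ => σ ħ y ζ - ∑ n ∈ Finset.range N, (ħ : ℂ) ^ n * a n y ζ) x ξ‖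
      ≤ C * ħ ^ N * (1 + ‖ξ‖) ^ (m - N - k - l)

/-- `P` is the (toroidal) quantisation `Op_ħ(σ)` of the symbol `σ(x,ξ)` on the torus: it maps
`C^∞(T²)` to itself by `(P u)(x) = ∑_{k ∈ ℤ²} σ(x, ħ k) û(k) e^{i k·x}`. -/
def IsQuantisation (ħ : ℝ) (σ : R2 → R2 → ℂ) (P : (R2 → ℂ) → R2 → ℂ) : Prop :=
  ∀ u : R2 → ℂ, IsSm u → IsSm (P u) ∧
    ∀ x : R2, HasSum (fun k : ℤ × ℤ => σ x (ħ * k.1, ħ * k.2) * fc u k * ex k x) (P u x)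

/-- `P` is symmetric on `C^∞(T²) ⊂ L²(T²)`. -/
def IsSymm (P : (R2 → ℂ) → R2 → ℂ) : Prop :=
  ∀ u v : R2 → ℂ, IsSm u → IsSm v → ip (P u) v = ip u (P v)

/-- The range of `P + z` on `C^∞(T²)` is dense in `L²(T²)`. -/
def HasDenseRange (P : (R2 → ℂ) → R2 → ℂ) (z : ℂ) : Prop :=
  ∀ v : R2 → ℂ, MemLp v 2 mu → ∀ ε : ℝ, 0 < ε →
    ∃ u : R2 → ℂ, IsSm u ∧ eLpNorm (fun x => P u x + z * u x - v x) 2 mu ≤ ENNReal.ofReal ε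

/-- `P` is self-adjoint in the sense of the problem: symmetric on `C^∞(T²)` and essentially
self-adjoint there, i.e. the ranges of `P + i` and `P - i` on `C^∞(T²)` are dense in `L²(T²)`. -/
def IsEssSA (P : (R2 → ℂ) → R2 → ℂ) : Prop :=
  IsSymm P ∧ HasDenseRange P I ∧ HasDenseRange P (-I)

/-- `R` (acting on square-integrable functions) is the resolvent `(P̄ + i)⁻¹` of the closure of `P`:
it is a Lipschitz map of `L²(T²)` with `R (P + i) u = u` for all `u ∈ C^∞(T²)`. For essentially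
self-adjoint `P` this determines `R` up to null sets, since `P + i` has dense range. -/
def IsResolvent (P R : (R2 → ℂ) → R2 → ℂ) : Prop :=
  (∀ f, MemLp f 2 mu → MemLp (R f) 2 mu) ∧
  (∃ C : ℝ, ∀ f g : R2 → ℂ, MemLp f 2 mu → MemLp g 2 mu →
    eLpNorm (fun x => R f x - R g x) 2 mu ≤ ENNReal.ofReal C * eLpNorm (fun x => f x - g x) 2 mu) ∧
  ∀ u, IsSm u → R (fun x => P u x + I * u x) =ᵐ[mu] u

/-- The closures of `P` and `Q` commute strongly: their resolvents `(P̄ + i)⁻¹`, `(Q̄ + i)⁻¹`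
commute (for self-adjoint operators this is equivalent to commutation of all spectral
projections). -/
def StronglyCommute (P Q : (R2 → ℂ) → R2 → ℂ) : Prop :=
  ∃ R S : (R2 → ℂ) → R2 → ℂ, IsResolvent P R ∧ IsResolvent Q S ∧
    ∀ f, MemLp f 2 mu → R (S f) =ᵐ[mu] S (R f)

/-- `(p₁,p₂)` admits an exact quantisation in setting (b) on `X = T²`: there are `ħ₀ > 0`, orders
`m₁, m₂`, and semiclassical pseudo-differential operators `P₁(ħ), P₂(ħ)`, `0 < ħ ≤ ħ₀`, with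
principal symbols `p₁, p₂`, self-adjoint and strongly commuting for every `ħ ∈ (0,ħ₀]`. -/
def HasQuantisation (p₁ p₂ : R2 → R2 → ℝ) : Prop :=
  ∃ (ħ₀ m₁ m₂ : ℝ) (σ₁ σ₂ : ℝ → R2 → R2 → ℂ) (a₁ a₂ : ℕ → R2 → R2 → ℂ)
    (P₁ P₂ : ℝ → (R2 → ℂ) → R2 → ℂ),
    0 < ħ₀ ∧ HasExpansion m₁ ħ₀ σ₁ a₁ ∧ HasExpansion m₂ ħ₀ σ₂ a₂ ∧
    (∀ x ξ, a₁ 0 x ξ = p₁ x ξ) ∧ (∀ x ξ, a₂ 0 x ξ = p₂ x ξ) ∧
    ∀ ħ : ℝ, 0 < ħ → ħ ≤ ħ₀ →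
      IsQuantisation ħ (σ₁ ħ) (P₁ ħ) ∧ IsQuantisation ħ (σ₂ ħ) (P₂ ħ) ∧
      IsEssSA (P₁ ħ) ∧ IsEssSA (P₂ ħ) ∧ StronglyCommute (P₁ ħ) (P₂ ħ)

/-- `(p₁,p₂)` admits a quantisation modulo `O(ħ⁴)` in a weak sense: there are `ħ₀ > 0`, orders
`m₁, m₂`, and semiclassical pseudo-differential operators `P₁(ħ), P₂(ħ)`, `0 < ħ ≤ ħ₀`, with
principal symbols `p₁, p₂`, symmetric on `C^∞(T²)`, with `⟨[P₁(ħ),P₂(ħ)]u, v⟩ = O(ħ⁴)` as `ħ → 0`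
for all `u, v ∈ C^∞(T²)`. (Self-adjoint, strongly commuting operators have `[P₁,P₂] = 0` on
`C^∞(T²)`.) -/
def HasWeakQuantisation (p₁ p₂ : R2 → R2 → ℝ) : Prop :=
  ∃ (ħ₀ m₁ m₂ : ℝ) (σ₁ σ₂ : ℝ → R2 → R2 → ℂ) (a₁ a₂ : ℕ → R2 → R2 → ℂ)
    (P₁ P₂ : ℝ → (R2 → ℂ) → R2 → ℂ),
    0 < ħ₀ ∧ HasExpansion m₁ ħ₀ σ₁ a₁ ∧ HasExpansion m₂ ħ₀ σ₂ a₂ ∧
    (∀ x ξ, a₁ 0 x ξ = p₁ x ξ) ∧ (∀ x ξ, a₂ 0 x ξ = p₂ x ξ) ∧
    (∀ ħ : ℝ, 0 < ħ → ħ ≤ ħ₀ →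
      IsQuantisation ħ (σ₁ ħ) (P₁ ħ) ∧ IsQuantisation ħ (σ₂ ħ) (P₂ ħ) ∧
      IsSymm (P₁ ħ) ∧ IsSymm (P₂ ħ)) ∧
    ∀ u v : R2 → ℂ, IsSm u → IsSm v → ∃ C : ℝ, ∀ ħ : ℝ, 0 < ħ → ħ ≤ ħ₀ →
      ‖ip (P₁ ħ (P₂ ħ u)) v - ip (P₂ ħ (P₁ ħ u)) v‖ ≤ C * ħ ^ 4

/-- The differential of `p : T^*T² → ℝ` at `z = (x,ξ)`, applied to the vector `v`. -/
def dd (p : R2 → R2 → ℝ) (z v : R2 × R2) : ℝ :=
  fderiv ℝ (fun y : R2 × R2 => p y.1 y.2) z v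

/-- The Poisson bracket `∑ (∂p/∂ξ_i ∂q/∂x_i - ∂p/∂x_i ∂q/∂ξ_i)` on `T^*T²`. -/
def poisson (p q : R2 → R2 → ℝ) (z : R2 × R2) : ℝ :=
  (dd p z (0, (1, 0)) * dd q z ((1, 0), 0) - dd p z ((1, 0), 0) * dd q z (0, (1, 0)))
  + (dd p z (0, (0, 1)) * dd q z ((0, 1), 0) - dd p z ((0, 1), 0) * dd q z (0, (0, 1)))

/-- `(p₁,p₂)` is a classical integrable system on `M = T^*T²`: smooth functions on `T^*T²` which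
Poisson commute and whose differentials are linearly independent almost everywhere. -/
structure IsClassical (p₁ p₂ : R2 → R2 → ℝ) : Prop where
  smooth₁ : ContDiff ℝ ∞ (fun z : R2 × R2 => p₁ z.1 z.2)
  smooth₂ : ContDiff ℝ ∞ (fun z : R2 × R2 => p₂ z.1 z.2)
  per₁ : ∀ ξ, IsPer (fun x => p₁ x ξ)
  per₂ : ∀ ξ, IsPer (fun x => p₂ x ξ)
  comm : ∀ z, poisson p₁ p₂ z = 0
  indep : ∀ᵐ z : R2 × R2 ∂volume, ∀ s t : ℝ,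
    (∀ v, s * dd p₁ z v + t * dd p₂ z v = 0) → s = 0 ∧ t = 0

end Pool.H98.EQ
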