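import Pool.Agent.H98.EQ.Torus

/-!
Uniform expansions in `ħ` of `σ(x, ħk)` for fixed `k`, and their consequences for integrals.
-/

open MeasureTheory Complex
open scoped ContDiff InnerProductSpace

noncomputable section

namespace Pool.H98.EQ

/-- closed fundamental domain -/
def cbox : Set R2 := Set.Icc (0:ℝ) (2 * Real.pi) ×ˢ Set.Icc (0:ℝ) (2 * Real.pi)

theorem cbox_compact : IsCompact cbox := isCompact_Icc.prod isCompact_Icc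

/-- `r = O(ħ^n)` uniformly on the closed fundamental domain -/
def Ob (ħ₀ : ℝ) (n : ℕ) (r : ℝ → R2 → ℂ) : Prop :=
  ∃ C : ℝ, ∀ ħ : ℝ, 0 < ħ → ħ ≤ ħ₀ → ∀ x ∈ cbox, ‖r ħ x‖ ≤ C * ħ ^ n

theorem Ob.add {ħ₀ : ℝ} {n : ℕ} {r s : ℝ → R2 → ℂ} (hr : Ob ħ₀ n r) (hs : Ob ħ₀ n s) :
    Ob ħ₀ n (fun ħ x => r ħ x + s ħ x) := by
  obtain ⟨C, hC⟩ := hr
  obtain ⟨D, hD⟩ := hs
  refine ⟨C + D, fun ħ h0 h1 x hx => ?_⟩
  calc ‖r ħ x + s ħ x‖ ≤ ‖r ħ x‖ + ‖s ħ x‖ := norm_add_le _ _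
    _ ≤ C * ħ ^ n + D * ħ ^ n := add_le_add (hC ħ h0 h1 x hx) (hD ħ h0 h1 x hx)
    _ = (C + D) * ħ ^ n := by ring

theorem Ob.neg {ħ₀ : ℝ} {n : ℕ} {r : ℝ → R2 → ℂ} (hr : Ob ħ₀ n r) :
    Ob ħ₀ n (fun ħ x => - r ħ x) := by
  obtain ⟨C, hC⟩ := hr
  refine ⟨C, fun ħ h0 h1 x hx => ?_⟩
  rw [norm_neg]; exact hC ħ h0 h1 x hx

theorem Ob.sub {ħ₀ : ℝ} {n : ℕ} {r s : ℝ → R2 → ℂ} (hr : Ob ħ₀ n r) (hs : Ob ħ₀ n s) :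
    Ob ħ₀ n (fun ħ x => r ħ x - s ħ x) := by
  simpa only [sub_eq_add_neg] using hr.add hs.neg

theorem Ob.conj {ħ₀ : ℝ} {n : ℕ} {r : ℝ → R2 → ℂ} (hr : Ob ħ₀ n r) :
    Ob ħ₀ n (fun ħ x => (starRingEnd ℂ) (r ħ x)) := by
  obtain ⟨C, hC⟩ := hr
  refine ⟨C, fun ħ h0 h1 x hx => ?_⟩
  rw [RCLike.norm_conj]; exact hC ħ h0 h1 x hx

theorem Ob.mul {ħ₀ : ℝ} {n m : ℕ} {r s : ℝ → R2 → ℂ} (hr : Ob ħ₀ n r) (hs : Ob ħ₀ m s) :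
    Ob ħ₀ (n + m) (fun ħ x => r ħ x * s ħ x) := by
  obtain ⟨C, hC⟩ := hr
  obtain ⟨D, hD⟩ := hs
  refine ⟨C * D, fun ħ h0 h1 x hx => ?_⟩
  have h2 := hC ħ h0 h1 x hx
  have h3 := hD ħ h0 h1 x hx
  calc ‖r ħ x * s ħ x‖ = ‖r ħ x‖ * ‖s ħ x‖ := norm_mul _ _
    _ ≤ (C * ħ ^ n) * (D * ħ ^ m) := mul_le_mul h2 h3 (norm_nonneg _) ((norm_nonneg _).trans h2)
    _ = C * D * ħ ^ (n + m) := by rw [pow_add]; ring

theorem Ob.mono {ħ₀ : ℝ} {n m : ℕ} {r : ℝ → R2 → ℂ} (hr : Ob ħ₀ m r) (h : n ≤ m) :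
    Ob ħ₀ n r := by
  obtain ⟨C, hC⟩ := hr
  refine ⟨|C| * ħ₀ ^ (m - n), fun ħ h0 h1 x hx => ?_⟩
  calc ‖r ħ x‖ ≤ C * ħ ^ m := hC ħ h0 h1 x hx
    _ ≤ |C| * ħ ^ m := by gcongr; exact le_abs_self C
    _ = |C| * ħ ^ (m - n) * ħ ^ n := by
        rw [mul_assoc, ← pow_add]; congr 2; omega
    _ ≤ |C| * ħ₀ ^ (m - n) * ħ ^ n := by gcongr

theorem Ob.of_cont (ħ₀ : ℝ) (n : ℕ) {s : R2 → ℂ} (hs : Continuous s) :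
    Ob ħ₀ n (fun ħ x => (ħ : ℂ) ^ n * s x) := by
  obtain ⟨C, hC⟩ := cbox_compact.exists_bound_of_continuousOn hs.continuousOn
  refine ⟨C, fun ħ h0 h1 x hx => ?_⟩
  rw [norm_mul, norm_pow, Complex.norm_real, Real.norm_of_nonneg h0.le, mul_comm]
  gcongr
  exact hC x hx

/-- two-term expansion `f = ħ s₁ + ħ² s₂ + O(ħ³)` -/
structure Exp2 (ħ₀ : ℝ) (f : ℝ → R2 → ℂ) (s₁ s₂ : R2 → ℂ) : Prop where
  cf : ∀ ħ : ℝ, 0 < ħ → ħ ≤ ħ₀ → Continuous (f ħ)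
  c1 : Continuous s₁
  c2 : Continuous s₂
  rem : Ob ħ₀ 3 (fun ħ x => f ħ x - (ħ : ℂ) ^ 1 * s₁ x - (ħ : ℂ) ^ 2 * s₂ x)

theorem Exp2.conj {ħ₀ : ℝ} {f : ℝ → R2 → ℂ} {s₁ s₂ : R2 → ℂ} (h : Exp2 ħ₀ f s₁ s₂) :
    Exp2 ħ₀ (fun ħ x => (starRingEnd ℂ) (f ħ x)) (fun x => (starRingEnd ℂ) (s₁ x))
      (fun x => (starRingEnd ℂ) (s₂ x)) where
  cf := fun ħ h0 h1 => Complex.continuous_conj.comp (h.cf ħ h0 h1)
  c1 := Complex.continuous_conj.comp h.c1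
  c2 := Complex.continuous_conj.comp h.c2
  rem := by
    have := h.rem.conj
    simpa only [map_sub, map_mul, map_pow, Complex.conj_ofReal] using this

theorem Exp2.ob {ħ₀ : ℝ} {f : ℝ → R2 → ℂ} {s₁ s₂ : R2 → ℂ} (h : Exp2 ħ₀ f s₁ s₂) :
    Ob ħ₀ 1 f := by
  have h1 := h.rem.mono (n := 1) (by norm_num)
  have h2 := Ob.of_cont ħ₀ 1 h.c1
  have h3 := (Ob.of_cont ħ₀ 2 h.c2).mono (n := 1) (by norm_num)
  have := (h1.add h2).add h3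
  have e : (fun (ħ : ℝ) (x : R2) => f ħ x - (ħ : ℂ) ^ 1 * s₁ x - (ħ : ℂ) ^ 2 * s₂ x + (ħ : ℂ) ^ 1 * s₁ x
      + (ħ : ℂ) ^ 2 * s₂ x) = f := by
    funext ħ x; ring
  rw [e] at this; exact this

/-- product of two expansions -/
theorem Exp2.prod {ħ₀ : ℝ} {f g : ℝ → R2 → ℂ} {s₁ s₂ t₁ t₂ : R2 → ℂ} (h : Exp2 ħ₀ f s₁ s₂)
    (k : Exp2 ħ₀ g t₁ t₂) :
    Ob ħ₀ 4 (fun ħ x => f ħ x * g ħ x - (ħ : ℂ) ^ 2 * (s₁ x * t₁ x)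
      - (ħ : ℂ) ^ 3 * (s₁ x * t₂ x + s₂ x * t₁ x)) := by
  have a1 := h.rem.mul k.ob
  have a2 := (Ob.of_cont ħ₀ 1 h.c1).mul k.rem
  have a3 := ((Ob.of_cont ħ₀ 2 h.c2).mul k.rem).mono (n := 4) (by norm_num)
  have a4 := Ob.of_cont ħ₀ 4 (h.c2.mul k.c2)
  have := ((a1.add a2).add a3).add a4
  refine Eq.mp (congrArg (Ob ħ₀ 4) ?_) this
  funext ħ x
  simp only [Pi.mul_apply]
  ring

theorem coef_zero {ħ₀ K : ℝ} (h0 : 0 < ħ₀) {c1 c2 : ℂ} {n : ℕ}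
    (h : ∀ ħ : ℝ, 0 < ħ → ħ ≤ ħ₀ → ‖(ħ : ℂ) ^ n * c1 + (ħ : ℂ) ^ (n + 1) * c2‖ ≤ K * ħ ^ (n + 2)) :
    c1 = 0 ∧ c2 = 0 := by
  -- reduce to `n = 0`
  have h' : ∀ ħ : ℝ, 0 < ħ → ħ ≤ ħ₀ → ‖c1 + (ħ : ℂ) * c2‖ ≤ K * ħ ^ 2 := by
    intro ħ hp hle
    have h1 := h ħ hp hle
    have e1 : (ħ : ℂ) ^ n * c1 + (ħ : ℂ) ^ (n + 1) * c2 = (ħ : ℂ) ^ n * (c1 + (ħ : ℂ) * c2) := by
      ring
    rw [e1, norm_mul, norm_pow, Complex.norm_real, Real.norm_of_nonneg hp.le] at h1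
    have hpn : 0 < ħ ^ n := pow_pos hp n
    have e2 : K * ħ ^ (n + 2) = ħ ^ n * (K * ħ ^ 2) := by ring
    rw [e2] at h1
    exact le_of_mul_le_mul_left h1 hpn
  have hc1 : c1 = 0 := by
    have h2 : Filter.Tendsto (fun ħ : ℝ => K * ħ ^ 2 + ħ * ‖c2‖) (nhdsWithin 0 (Set.Ioi 0))
        (nhds 0) := by
      have : Filter.Tendsto (fun ħ : ℝ => K * ħ ^ 2 + ħ * ‖c2‖) (nhds 0)
          (nhds (K * 0 ^ 2 + 0 * ‖c2‖)) := by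
        apply Continuous.tendsto; fun_prop
      simp only [ne_eq, OfNat.ofNat_ne_zero, not_false_eq_true, zero_pow, mul_zero, zero_mul,
        add_zero] at this
      exact this.mono_left nhdsWithin_le_nhds
    have h3 : ‖c1‖ ≤ 0 := by
      refine ge_of_tendsto h2 ?_
      have : Set.Ioc 0 ħ₀ ∈ nhdsWithin (0:ℝ) (Set.Ioi 0) := Ioc_mem_nhdsGT h0
      filter_upwards [this] with ħ hħ
      have h4 := h' ħ hħ.1 hħ.2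
      calc ‖c1‖ = ‖(c1 + (ħ : ℂ) * c2) - (ħ : ℂ) * c2‖ := by ring_nf
        _ ≤ ‖c1 + (ħ : ℂ) * c2‖ + ‖(ħ : ℂ) * c2‖ := norm_sub_le _ _
        _ ≤ K * ħ ^ 2 + ħ * ‖c2‖ := by
            rw [norm_mul, Complex.norm_real, Real.norm_of_nonneg hħ.1.le]
            linarith
    exact norm_le_zero_iff.1 h3
  refine ⟨hc1, ?_⟩
  subst hc1
  have h2 : Filter.Tendsto (fun ħ : ℝ => K * ħ) (nhdsWithin 0 (Set.Ioi 0)) (nhds 0) := by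
    have : Filter.Tendsto (fun ħ : ℝ => K * ħ) (nhds 0) (nhds (K * 0)) := by
      apply Continuous.tendsto; fun_prop
    rw [mul_zero] at this
    exact this.mono_left nhdsWithin_le_nhds
  have h3 : ‖c2‖ ≤ 0 := by
    refine ge_of_tendsto h2 ?_
    have : Set.Ioc 0 ħ₀ ∈ nhdsWithin (0:ℝ) (Set.Ioi 0) := Ioc_mem_nhdsGT h0
    filter_upwards [this] with ħ hħ
    have h4 := h' ħ hħ.1 hħ.2
    rw [zero_add, norm_mul, Complex.norm_real, Real.norm_of_nonneg hħ.1.le] at h4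
    have e2 : K * ħ ^ 2 = ħ * (K * ħ) := by ring
    rw [e2] at h4
    exact le_of_mul_le_mul_left h4 hħ.1
  exact norm_le_zero_iff.1 h3

/-- passing to the coefficients in an integral identity -/
theorem int_test {ħ₀ : ℝ} (h0 : 0 < ħ₀) {F : ℝ → R2 → ℂ} {c1 c2 : R2 → ℂ} {n : ℕ} {m : ℤ × ℤ}
    (hF : ∀ ħ : ℝ, 0 < ħ → ħ ≤ ħ₀ → Continuous (F ħ)) (hc1 : Continuous c1)
    (hc2 : Continuous c2)
    (hr : Ob ħ₀ (n + 2) (fun ħ x => F ħ x - (ħ : ℂ) ^ n * c1 x - (ħ : ℂ) ^ (n + 1) * c2 x))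
    {D : ℝ} (hz : ∀ ħ : ℝ, 0 < ħ → ħ ≤ ħ₀ → ‖∫ x, ex m x * F ħ x ∂mu‖ ≤ D * ħ ^ (n + 2)) :
    ∫ x, ex m x * c1 x ∂mu = 0 ∧ ∫ x, ex m x * c2 x ∂mu = 0 := by
  obtain ⟨C, hC⟩ := hr
  have hcex : Continuous (ex m) := (sm_ex m).continuous
  apply coef_zero (ħ₀ := ħ₀) (K := C * mu.real Set.univ + D) h0 (n := n)
  intro ħ hp hle
  have i0 : Integrable (fun x => ex m x * F ħ x) mu := int_mu (hcex.mul (hF ħ hp hle))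
  have i1 : Integrable (fun x => ex m x * c1 x) mu := int_mu (hcex.mul hc1)
  have i2 : Integrable (fun x => ex m x * c2 x) mu := int_mu (hcex.mul hc2)
  have e : ∫ x, ex m x * (F ħ x - (ħ : ℂ) ^ n * c1 x - (ħ : ℂ) ^ (n + 1) * c2 x) ∂mu
      = ∫ x, ex m x * F ħ x ∂mu
        - ((ħ : ℂ) ^ n * ∫ x, ex m x * c1 x ∂mu + (ħ : ℂ) ^ (n + 1) * ∫ x, ex m x * c2 x ∂mu) := by
    have : ∀ x, ex m x * (F ħ x - (ħ : ℂ) ^ n * c1 x - (ħ : ℂ) ^ (n + 1) * c2 x)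
        = ex m x * F ħ x - ((ħ : ℂ) ^ n * (ex m x * c1 x)) - ((ħ : ℂ) ^ (n + 1) * (ex m x * c2 x)) := by
      intro x; ring
    simp only [this]
    have i01 : Integrable (fun x => ex m x * F ħ x - (ħ : ℂ) ^ n * (ex m x * c1 x)) mu :=
      i0.sub (i1.const_mul _)
    rw [integral_sub i01 (i2.const_mul _), integral_sub i0 (i1.const_mul _),
      integral_const_mul, integral_const_mul]
    ring
  have hb : ∀ᵐ x ∂mu, ‖ex m x * (F ħ x - (ħ : ℂ) ^ n * c1 x - (ħ : ℂ) ^ (n + 1) * c2 x)‖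
      ≤ C * ħ ^ (n + 2) := by
    rw [mu, ae_restrict_iff' (by measurability)]
    refine Filter.Eventually.of_forall fun x hx => ?_
    have hx' : x ∈ cbox := ⟨⟨hx.1.1.le, hx.1.2⟩, ⟨hx.2.1.le, hx.2.2⟩⟩
    have hn : ‖ex m x‖ = 1 := by
      unfold ex
      rw [Complex.norm_exp]
      simp
    rw [norm_mul, hn, one_mul]
    exact hC ħ hp hle x hx'
  have h3 := norm_integral_le_of_norm_le_const hb
  have h4 := hz ħ hp hle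
  have e' : (ħ : ℂ) ^ n * ∫ x, ex m x * c1 x ∂mu + (ħ : ℂ) ^ (n + 1) * ∫ x, ex m x * c2 x ∂mu
      = ∫ x, ex m x * F ħ x ∂mu
        - ∫ x, ex m x * (F ħ x - (ħ : ℂ) ^ n * c1 x - (ħ : ℂ) ^ (n + 1) * c2 x) ∂mu := by
    rw [e]; ring
  rw [e']
  calc _ ≤ ‖∫ x, ex m x * F ħ x ∂mu‖
        + ‖∫ x, ex m x * (F ħ x - (ħ : ℂ) ^ n * c1 x - (ħ : ℂ) ^ (n + 1) * c2 x) ∂mu‖ :=
        norm_sub_le _ _
    _ ≤ D * ħ ^ (n + 2) + C * ħ ^ (n + 2) * mu.real Set.univ := add_le_add h4 h3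
    _ = (C * mu.real Set.univ + D) * ħ ^ (n + 2) := by ring

end Pool.H98.EQ
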