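import Pool.Agent.H98.EQ.Expand

/-!
From the semiclassical expansion of a symbol to the two-term expansion of `σ(x, ħk)`.
-/

open MeasureTheory Complex
open scoped ContDiff InnerProductSpace

noncomputable section

namespace Pool.H98.EQ

section taylor

variable {A : R2 × R2 → ℂ}

/-- fibre derivative -/
def fd (A : R2 × R2 → ℂ) (κ : R2) : R2 × R2 → ℂ := fun z => fderiv ℝ A z (0, κ)

theorem sm_fd (hA : ContDiff ℝ ∞ A) (κ : R2) : ContDiff ℝ ∞ (fd A κ) :=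
  (hA.fderiv_right (m := ∞) (by simp)).clm_apply contDiff_const

theorem path_deriv (hA : ContDiff ℝ ∞ A) (x κ : R2) (t : ℝ) :
    HasDerivAt (fun t : ℝ => A (x, t • κ)) (fd A κ (x, t • κ)) t := by
  have h1 : HasFDerivAt A (fderiv ℝ A (x, t • κ)) (x, t • κ) :=
    (hA.differentiable (by simp) _).hasFDerivAt
  have h2 : HasDerivAt (fun t : ℝ => ((x, t • κ) : R2 × R2)) (0, (1:ℝ) • κ) t :=
    (hasDerivAt_const _ _).prodMk ((hasDerivAt_id t).smul_const κ)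
  rw [one_smul] at h2
  exact h1.comp_hasDerivAt t h2

theorem unif_bound (hA : Continuous A) (κ : R2) (T : ℝ) :
    ∃ C : ℝ, 0 ≤ C ∧ ∀ t ∈ Set.Icc 0 T, ∀ x ∈ cbox, ‖A (x, t • κ)‖ ≤ C := by
  have hc : IsCompact (cbox ×ˢ Set.Icc (0:ℝ) T) := cbox_compact.prod isCompact_Icc
  have hf : Continuous (fun z : R2 × ℝ => A (z.1, z.2 • κ)) := by fun_prop
  obtain ⟨C, hC⟩ := hc.exists_bound_of_continuousOn hf.continuousOn
  refine ⟨|C|, abs_nonneg _, fun t ht x hx => (hC (x, t) ⟨hx, ht⟩).trans (le_abs_self C)⟩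

theorem taylor0 (hA : ContDiff ℝ ∞ A) (κ : R2) (T : ℝ) :
    ∃ C : ℝ, 0 ≤ C ∧ ∀ t ∈ Set.Icc 0 T, ∀ x ∈ cbox, ‖A (x, t • κ) - A (x, 0)‖ ≤ C * t := by
  obtain ⟨C, hC0, hC⟩ := unif_bound (sm_fd hA κ).continuous κ T
  refine ⟨C, hC0, fun t ht x hx => ?_⟩
  have h := norm_image_sub_le_of_norm_deriv_le_segment' (f := fun t : ℝ => A (x, t • κ))
    (f' := fun t => fd A κ (x, t • κ)) (a := 0) (b := t) (C := C)
    (fun s _ => (path_deriv hA x κ s).hasDerivWithinAt)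
    (fun s hs => hC s ⟨hs.1, hs.2.le.trans ht.2⟩ x hx) t ⟨ht.1, le_rfl⟩
  simpa using h

theorem taylor1 (hA : ContDiff ℝ ∞ A) (κ : R2) (T : ℝ) :
    ∃ C : ℝ, 0 ≤ C ∧ ∀ t ∈ Set.Icc 0 T, ∀ x ∈ cbox,
      ‖A (x, t • κ) - A (x, 0) - t * fd A κ (x, 0)‖ ≤ C * t ^ 2 := by
  obtain ⟨C, hC0, hC⟩ := taylor0 (sm_fd hA κ) κ T
  refine ⟨C, hC0, fun t ht x hx => ?_⟩
  have h := norm_image_sub_le_of_norm_deriv_le_segment'
    (f := fun t : ℝ => A (x, t • κ) - (t : ℂ) * fd A κ (x, 0))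
    (f' := fun t => fd A κ (x, t • κ) - fd A κ (x, 0)) (a := 0) (b := t) (C := C * t)
    (fun s _ => by
      have h1 := path_deriv hA x κ s
      have h2 : HasDerivAt (fun t : ℝ => (t : ℂ) * fd A κ (x, 0)) (1 * fd A κ (x, 0)) s :=
        (Complex.ofRealCLM.hasDerivAt (x := s)).mul_const _
      rw [one_mul] at h2
      exact (h1.sub h2).hasDerivWithinAt)
    (fun s hs => by
      have h1 := hC s ⟨hs.1, hs.2.le.trans ht.2⟩ x hx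
      have h2 : s ≤ t := hs.2.le
      exact h1.trans (by gcongr))
    t ⟨ht.1, le_rfl⟩
  have e : A (x, t • κ) - A (x, 0) - t * fd A κ (x, 0)
      = (A (x, t • κ) - (t : ℂ) * fd A κ (x, 0)) - (A (x, (0:ℝ) • κ) - ((0:ℝ) : ℂ) * fd A κ (x, 0)) := by
    simp; ring
  rw [e]
  refine h.trans (le_of_eq ?_)
  ring

end taylor

/-- the remainder of a semiclassical expansion at `ξ = ħ κ` -/
theorem rem_bound {m ħ₀ : ℝ} {σ : ℝ → R2 → R2 → ℂ} {a : ℕ → R2 → R2 → ℂ}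
    (h : HasExpansion m ħ₀ σ a) (κ : R2) :
    Ob ħ₀ 3 (fun ħ x => σ ħ x (ħ • κ) - (a 0 x (ħ • κ) + (ħ : ℂ) * a 1 x (ħ • κ)
      + (ħ : ℂ) ^ 2 * a 2 x (ħ • κ))) := by
  obtain ⟨C, hC⟩ := h.rem 3 0 0 0 0
  refine ⟨|C| * (1 + ħ₀ * ‖κ‖) ^ |m - 3|, fun ħ hp hle x _ => ?_⟩
  have h1 := hC ħ hp hle x (ħ • κ)
  simp only [pder, iteratedDeriv_zero, Prod.mk.eta] at h1
  have e : σ ħ x (ħ • κ) - (a 0 x (ħ • κ) + (ħ : ℂ) * a 1 x (ħ • κ)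
      + (ħ : ℂ) ^ 2 * a 2 x (ħ • κ)) = σ ħ x (ħ • κ) - ∑ j ∈ Finset.range 3, (ħ : ℂ) ^ j * a j x (ħ • κ) := by
    rw [Finset.sum_range_succ, Finset.sum_range_succ, Finset.sum_range_one]
    simp
  show ‖σ ħ x (ħ • κ) - _‖ ≤ _
  rw [e]
  refine h1.trans ?_
  have hn : ‖ħ • κ‖ ≤ ħ₀ * ‖κ‖ := by
    rw [norm_smul, Real.norm_of_nonneg hp.le]; gcongr
  have h2 : (1 + ‖ħ • κ‖) ^ (m - ((3 : ℕ) : ℝ) - ((0 : ℕ) : ℝ) - ((0 : ℕ) : ℝ)) ≤ (1 + ħ₀ * ‖κ‖) ^ |m - 3| := by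
    have h3 : (1:ℝ) ≤ 1 + ‖ħ • κ‖ := by have := norm_nonneg (ħ • κ); linarith
    calc (1 + ‖ħ • κ‖) ^ (m - ((3 : ℕ) : ℝ) - ((0 : ℕ) : ℝ) - ((0 : ℕ) : ℝ)) ≤ (1 + ‖ħ • κ‖) ^ |m - 3| := by
          apply Real.rpow_le_rpow_of_exponent_le h3
          push_cast
          rw [sub_zero, sub_zero]
          exact le_abs_self _
      _ ≤ _ := by
          apply Real.rpow_le_rpow (by positivity) _ (abs_nonneg _)
          linarith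
  have h4 : 0 ≤ (1 + ‖ħ • κ‖) ^ (m - ((3 : ℕ) : ℝ) - ((0 : ℕ) : ℝ) - ((0 : ℕ) : ℝ)) := by positivity
  calc C * ħ ^ 3 * (1 + ‖ħ • κ‖) ^ (m - ((3 : ℕ) : ℝ) - ((0 : ℕ) : ℝ) - ((0 : ℕ) : ℝ))
      ≤ |C| * ħ ^ 3 * (1 + ħ₀ * ‖κ‖) ^ |m - 3| := by
        gcongr
        exact le_abs_self C
    _ = |C| * (1 + ħ₀ * ‖κ‖) ^ |m - 3| * ħ ^ 3 := by ring

/-- the two-term expansion of `σ(x, ħκ)`, when the principal symbol satisfies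
`a₀(x, ħκ) = ħ q₁(x) + ħ² q₂(x)` -/
theorem exp2_of {m ħ₀ : ℝ} {σ : ℝ → R2 → R2 → ℂ} {a : ℕ → R2 → R2 → ℂ}
    (h : HasExpansion m ħ₀ σ a) (κ : R2) {q₁ q₂ : R2 → ℂ} (hq₁ : Continuous q₁)
    (hq₂ : Continuous q₂) (hq : ∀ (ħ : ℝ) (x : R2), a 0 x (ħ • κ) = (ħ : ℂ) * q₁ x + (ħ : ℂ) ^ 2 * q₂ x) :
    Exp2 ħ₀ (fun ħ x => σ ħ x (ħ • κ)) (fun x => q₁ x + a 1 x 0)
      (fun x => q₂ x + (fd (fun z : R2 × R2 => a 1 z.1 z.2) κ (x, 0) + a 2 x 0)) := by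
  have s1 : ContDiff ℝ ∞ (fun z : R2 × R2 => a 1 z.1 z.2) := (h.sym 1).smooth
  have s2 : ContDiff ℝ ∞ (fun z : R2 × R2 => a 2 z.1 z.2) := (h.sym 2).smooth
  refine ⟨?_, ?_, ?_, ?_⟩
  · intro ħ hp hle
    have := (h.smooth ħ hp hle).continuous
    have h2 : Continuous (fun x : R2 => ((x, ħ • κ) : R2 × R2)) := by fun_prop
    exact this.comp h2
  · have h2 : Continuous (fun x : R2 => ((x, 0) : R2 × R2)) := by fun_prop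
    exact hq₁.add (s1.continuous.comp h2)
  · have h2 : Continuous (fun x : R2 => ((x, 0) : R2 × R2)) := by fun_prop
    exact hq₂.add (((sm_fd s1 κ).continuous.comp h2).add (s2.continuous.comp h2))
  · obtain ⟨C1, hC10, hC1⟩ := taylor1 s1 κ ħ₀
    obtain ⟨C2, hC20, hC2⟩ := taylor0 s2 κ ħ₀
    have r1 := rem_bound h κ
    have r2 : Ob ħ₀ 3 (fun ħ x => (ħ : ℂ) * (a 1 x (ħ • κ) - a 1 x 0
        - (ħ : ℂ) * fd (fun z : R2 × R2 => a 1 z.1 z.2) κ (x, 0))) := by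
      refine ⟨C1, fun ħ hp hle x hx => ?_⟩
      rw [norm_mul, Complex.norm_real, Real.norm_of_nonneg hp.le]
      have := hC1 ħ ⟨hp.le, hle⟩ x hx
      calc ħ * ‖a 1 x (ħ • κ) - a 1 x 0 - (ħ : ℂ) * fd (fun z : R2 × R2 => a 1 z.1 z.2) κ (x, 0)‖
          ≤ ħ * (C1 * ħ ^ 2) := by gcongr
        _ = C1 * ħ ^ 3 := by ring
    have r3 : Ob ħ₀ 3 (fun ħ x => (ħ : ℂ) ^ 2 * (a 2 x (ħ • κ) - a 2 x 0)) := by
      refine ⟨C2, fun ħ hp hle x hx => ?_⟩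
      rw [norm_mul, norm_pow, Complex.norm_real, Real.norm_of_nonneg hp.le]
      have := hC2 ħ ⟨hp.le, hle⟩ x hx
      calc ħ ^ 2 * ‖a 2 x (ħ • κ) - a 2 x 0‖ ≤ ħ ^ 2 * (C2 * ħ) := by gcongr
        _ = C2 * ħ ^ 3 := by ring
    have := (r1.add r2).add r3
    refine Eq.mp (congrArg (Ob ħ₀ 3) ?_) this
    funext ħ x
    rw [hq]
    ring

end Pool.H98.EQ
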