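import Pool.Agent.H98.EQ.Jet

/-!
The local obstruction: the system of equations satisfied by the subprincipal data has no smooth
solution near the origin.
-/

open scoped ContDiff
open Polynomial

noncomputable section

namespace Pool.H98.EQ

theorem hc_mul_low {f g : RR → ℝ} (hf : ContDiff ℝ ∞ f) (hg : ContDiff ℝ ∞ g) {a b : ℕ}
    (ha : ∀ k < a, hc k f = 0) (hb : ∀ k < b, hc k g = 0) {n : ℕ} (hn : n < a + b) :
    hc n (f * g) = 0 := by
  rw [hc_mul n hf hg]
  refine Finset.sum_eq_zero fun p hp => ?_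
  have hp' := Finset.HasAntidiagonal.mem_antidiagonal.1 hp
  by_cases h : p.1 < a
  · rw [ha _ h, zero_mul]
  · rw [hb p.2 (by omega), mul_zero]

theorem hc_mul_lead {f g : RR → ℝ} (hf : ContDiff ℝ ∞ f) (hg : ContDiff ℝ ∞ g) {a b : ℕ}
    (ha : ∀ k < a, hc k f = 0) (hb : ∀ k < b, hc k g = 0) :
    hc (a + b) (f * g) = hc a f * hc b g := by
  rw [hc_mul _ hf hg]
  rw [Finset.sum_eq_single (a, b)]
  · intro p hp hne
    have hp' := Finset.HasAntidiagonal.mem_antidiagonal.1 hp
    by_cases h : p.1 < a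
    · rw [ha _ h, zero_mul]
    · by_cases h2 : p.2 < b
      · rw [hb _ h2, mul_zero]
      · exfalso
        apply hne
        ext <;> simp <;> omega
  · intro h
    exact absurd (Finset.HasAntidiagonal.mem_antidiagonal.2 (show (a, b).1 + (a, b).2 = a + b from rfl)) h

/-- smoothness of the zero component convention: if all `hc k f = 0` then so for products. -/
theorem hc_mul_zero {f g : RR → ℝ} (hf : ContDiff ℝ ∞ f) (hg : ContDiff ℝ ∞ g)
    (ha : ∀ k, hc k f = 0) (n : ℕ) : hc n (f * g) = 0 := by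
  rw [hc_mul n hf hg]
  exact Finset.sum_eq_zero fun p hp => by rw [ha, zero_mul]

/-- order of vanishing of the derivative -/
theorem hc_dx_low {f : RR → ℝ} (hf : ContDiff ℝ ∞ f) {m : ℕ}
    (h : ∀ k, 1 ≤ k → k < m + 1 → hc k f = 0) : ∀ k < m, hc k (dx f) = 0 := by
  intro k hk
  rw [hc_dx k hf, h (k + 1) (by omega) (by omega), derivative_zero]

theorem hc_du_low {f : RR → ℝ} (hf : ContDiff ℝ ∞ f) {m : ℕ}
    (h : ∀ k, 1 ≤ k → k < m + 1 → hc k f = 0) : ∀ k < m, hc k (du f) = 0 := by
  intro k hk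
  rw [hc_du k hf, h (k + 1) (by omega) (by omega), derivative_zero]
  simp

/-- The leading coefficients of the vector field. -/
structure Lead (W B : RR → ℝ) : Prop where
  smW : ContDiff ℝ ∞ W
  smB : ContDiff ℝ ∞ B
  W0 : ∀ k < 3, hc k W = 0
  B0 : ∀ k < 3, hc k B = 0
  W3 : hc 3 W = 1
  B3 : hc 3 B = C 24 * X ^ 3 + C 20 * X ^ 2 + C 5 * X ^ 1

/-- the vector field -/
def V (W B f : RR → ℝ) : RR → ℝ := B * dx f + W * du f

theorem sm_V {W B f : RR → ℝ} (hL : Lead W B) (hf : ContDiff ℝ ∞ f) : ContDiff ℝ ∞ (V W B f) :=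
  sm_add (sm_mul hL.smB (sm_dx hf)) (sm_mul hL.smW (sm_du hf))

/-- the polynomial form of the leading part of the vector field -/
def LV (m : ℝ) (p : ℝ[X]) : ℝ[X] :=
  C 24 * (X ^ 3 * derivative p) + C 20 * (X ^ 2 * derivative p) + C 4 * (X ^ 1 * derivative p)
    + C m * p

theorem hc_V_low {W B f : RR → ℝ} (hL : Lead W B) (hf : ContDiff ℝ ∞ f) {m : ℕ}
    (h : ∀ k, 1 ≤ k → k < m + 1 → hc k f = 0) {n : ℕ} (hn : n < m + 3) :
    hc n (V W B f) = 0 := by
  rw [V, hc_add n (sm_mul hL.smB (sm_dx hf)) (sm_mul hL.smW (sm_du hf)),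
    hc_mul_low hL.smB (sm_dx hf) hL.B0 (hc_dx_low hf h) (by omega),
    hc_mul_low hL.smW (sm_du hf) hL.W0 (hc_du_low hf h) (by omega), add_zero]

theorem hc_V_lead {W B f : RR → ℝ} (hL : Lead W B) (hf : ContDiff ℝ ∞ f) {m : ℕ}
    (h : ∀ k, 1 ≤ k → k < m + 1 → hc k f = 0) :
    hc (m + 3) (V W B f) = LV (m + 1) (hc (m + 1) f) := by
  rw [V, hc_add _ (sm_mul hL.smB (sm_dx hf)) (sm_mul hL.smW (sm_du hf)), add_comm m 3,
    hc_mul_lead hL.smB (sm_dx hf) hL.B0 (hc_dx_low hf h),
    hc_mul_lead hL.smW (sm_du hf) hL.W0 (hc_du_low hf h), hL.W3, hL.B3, hc_dx m hf, hc_du m hf, LV]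
  simp only [C_add, C_1]
  have : (C 5 : ℝ[X]) = C 4 + 1 := by rw [← C_1, ← C_add]; norm_num
  rw [this]
  ring

theorem coeff_LV (m : ℝ) (p : ℝ[X]) (n : ℕ) :
    (LV m p).coeff n = 24 * (if 3 ≤ n then p.coeff (n - 3 + 1) * (((n - 3 : ℕ) : ℝ) + 1) else 0)
      + 20 * (if 2 ≤ n then p.coeff (n - 2 + 1) * (((n - 2 : ℕ) : ℝ) + 1) else 0)
      + 4 * (if 1 ≤ n then p.coeff (n - 1 + 1) * (((n - 1 : ℕ) : ℝ) + 1) else 0)
      + m * p.coeff n := by
  simp only [LV, coeff_add, coeff_C_mul, coeff_X_pow_mul', coeff_derivative]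

/-- injectivity of `LV` -/
theorem LV_inj {m : ℝ} (hm : ∀ n : ℕ, 4 * (n : ℝ) + m ≠ 0) {p : ℝ[X]} (h : LV m p = 0) :
    p = 0 := by
  ext n
  rw [coeff_zero]
  induction n using Nat.strong_induction_on with
  | _ n ih =>
    have h1 := congrArg (fun q => q.coeff n) h
    simp only [coeff_zero] at h1
    rw [coeff_LV] at h1
    have e3 : (if 3 ≤ n then p.coeff (n - 3 + 1) * (((n - 3 : ℕ) : ℝ) + 1) else 0) = 0 := by
      split_ifs with h3
      · rw [ih _ (by omega), zero_mul]
      · rfl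
    have e2 : (if 2 ≤ n then p.coeff (n - 2 + 1) * (((n - 2 : ℕ) : ℝ) + 1) else 0) = 0 := by
      split_ifs with h3
      · rw [ih _ (by omega), zero_mul]
      · rfl
    have e1 : (if 1 ≤ n then p.coeff (n - 1 + 1) * (((n - 1 : ℕ) : ℝ) + 1) else 0)
        = n * p.coeff n := by
      split_ifs with h3
      · have : n - 1 + 1 = n := by omega
        rw [this]
        have h4 : (((n - 1 : ℕ) : ℝ) + 1) = n := by
          have : ((n - 1 + 1 : ℕ) : ℝ) = n := by rw [this]
          push_cast at this; exact this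
        rw [h4]; ring
      · have : n = 0 := by omega
        subst this; simp
    rw [e3, e2, e1] at h1
    have h5 : (4 * (n : ℝ) + m) * p.coeff n = 0 := by linarith
    exact (mul_eq_zero.1 h5).resolve_left (hm n)

/-- all higher Taylor coefficients of a first integral vanish -/
theorem first_integral {W B c : RR → ℝ} (hL : Lead W B) (hc' : ContDiff ℝ ∞ c)
    (h : V W B c = 0) : ∀ k, 1 ≤ k → hc k c = 0 := by
  intro k
  induction k using Nat.strong_induction_on with
  | _ k ih =>
    intro hk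
    obtain ⟨m, rfl⟩ : ∃ m, k = m + 1 := ⟨k - 1, by omega⟩
    have h1 := hc_V_lead hL hc' (m := m) (fun j hj1 hj2 => ih j hj2 hj1)
    have h0 : ∀ n, hc n (0 : RR → ℝ) = 0 := by
      intro n
      cases n with
      | zero => simp [hc_zero]
      | succ n => exact hc_const_succ n 0
    rw [h, h0] at h1
    refine LV_inj (m := (m : ℝ) + 1) ?_ h1.symm
    intro n
    positivity

theorem hc_zero_fun (n : ℕ) : hc n (0 : RR → ℝ) = 0 := by
  cases n with
  | zero => simp [hc_zero]
  | succ n => exact hc_const_succ n 0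

theorem hc_smul (n : ℕ) (a : ℝ) {f : RR → ℝ} (hf : ContDiff ℝ ∞ f) :
    hc n ((fun _ => a) * f) = C a * hc n f := by
  have := hc_mul_lead (a := 0) (b := 0) (f := fun _ => a) (g := f)
  rw [hc_mul n contDiff_const hf]
  rw [Finset.sum_eq_single (0, n)]
  · simp [hc_zero]
  · intro p hp hne
    have hp' := Finset.HasAntidiagonal.mem_antidiagonal.1 hp
    cases h1 : p.1 with
    | zero =>
      exfalso; apply hne; ext
      · exact h1
      · simp; omega
    | succ k => rw [hc_const_succ, zero_mul]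
  · intro h
    exact absurd (Finset.HasAntidiagonal.mem_antidiagonal.2
      (show (0, n).1 + (0, n).2 = n by simp)) h

/-- all Taylor coefficients of a solution of `V f = f W_y` with vanishing cubic coefficient
vanish -/
theorem second_flat {W B f : RR → ℝ} (hL : Lead W B) (hf : ContDiff ℝ ∞ f)
    (h : V W B f = f * du W) (h3 : (hc 3 f).coeff 0 = 0) : ∀ k, hc k f = 0 := by
  intro k
  have hdW2 : hc 2 (du W) = C 3 := by
    rw [hc_du 2 hL.smW, hL.W3, derivative_one, mul_zero, sub_zero, mul_one]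
    norm_num
  have hdW : ∀ k < 2, hc k (du W) = 0 :=
    hc_du_low hL.smW (fun j _ hj2 => hL.W0 j (by omega))
  induction k using Nat.strong_induction_on with
  | _ k ih =>
    have e1 : hc (k + 2) (f * du W) = hc k f * C 3 := by
      rw [hc_mul_lead hf (sm_du hL.smW) ih hdW, hdW2]
    cases k with
    | zero =>
      have e2 : hc 2 (V W B f) = 0 := by
        refine hc_V_low hL hf (m := 0) (fun j hj1 hj2 => by omega) (by omega)
      rw [h] at e2
      rw [zero_add] at e1
      rw [e1] at e2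
      have : (C 3 : ℝ[X]) ≠ 0 := by rw [Ne, C_eq_zero]; norm_num
      exact (mul_eq_zero.1 e2).resolve_right this
    | succ m =>
      have e2 := hc_V_lead hL hf (m := m) (fun j hj1 hj2 => ih j hj2)
      rw [h] at e2
      rw [show m + 1 + 2 = m + 3 by ring] at e1
      rw [e1] at e2
      have e3 : LV ((m : ℝ) - 2) (hc (m + 1) f) = 0 := by
        have : (C ((m : ℝ) + 1) : ℝ[X]) = C ((m : ℝ) - 2) + C 3 := by
          rw [← C_add]; congr 1; ring
        rw [LV, this] at e2
        rw [LV]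
        linear_combination -e2
      by_cases hm : m = 2
      · subst hm
        -- use the coefficients
        have e4 : ∀ n, (hc (2 + 1) f).coeff n = 0 := by
          intro n
          induction n using Nat.strong_induction_on with
          | _ n ih2 =>
            cases n with
            | zero => exact h3
            | succ n =>
              have h5 := congrArg (fun q => q.coeff (n + 1)) e3
              simp only [coeff_zero] at h5
              rw [coeff_LV] at h5
              have a3 : (if 3 ≤ n + 1 then (hc (2 + 1) f).coeff (n + 1 - 3 + 1) *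
                  (((n + 1 - 3 : ℕ) : ℝ) + 1) else 0) = 0 := by
                split_ifs with h6
                · rw [ih2 _ (by omega), zero_mul]
                · rfl
              have a2 : (if 2 ≤ n + 1 then (hc (2 + 1) f).coeff (n + 1 - 2 + 1) *
                  (((n + 1 - 2 : ℕ) : ℝ) + 1) else 0) = 0 := by
                split_ifs with h6
                · rw [ih2 _ (by omega), zero_mul]
                · rfl
              rw [a3, a2] at h5
              simp at h5
              rcases h5 with h5 | h5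
              · exact h5
              · exfalso; have : (0 : ℝ) < (n : ℝ) + 1 := by positivity
                linarith
        ext n
        rw [coeff_zero]
        exact e4 n
      · refine LV_inj ?_ e3
        intro n hn
        have h7 : ((4 * n + m : ℕ) : ℝ) = ((2 : ℕ) : ℝ) := by
          push_cast; linarith
        have h8 : 4 * n + m = 2 := by exact_mod_cast h7
        omega


/-- leading part of `ω ↦ V ω - ω B_x` -/
def LX (m : ℝ) (p : ℝ[X]) : ℝ[X] :=
  LV (m - 5) p - (C 72 * (X ^ 2 * p) + C 40 * (X ^ 1 * p))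

theorem coeff_LX (m : ℝ) (p : ℝ[X]) (n : ℕ) :
    (LX m p).coeff n = 24 * (if 3 ≤ n then p.coeff (n - 3 + 1) * (((n - 3 : ℕ) : ℝ) + 1) else 0)
      + 20 * (if 2 ≤ n then p.coeff (n - 2 + 1) * (((n - 2 : ℕ) : ℝ) + 1) else 0)
      + 4 * (if 1 ≤ n then p.coeff (n - 1 + 1) * (((n - 1 : ℕ) : ℝ) + 1) else 0)
      + (m - 5) * p.coeff n
      - (72 * (if 2 ≤ n then p.coeff (n - 2) else 0) + 40 * (if 1 ≤ n then p.coeff (n - 1) else 0))
    := by
  rw [LX, coeff_sub, coeff_LV]
  simp only [coeff_add, coeff_C_mul, coeff_X_pow_mul']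

theorem LX_inj {m : ℕ} (hm : m ≤ 3) {p : ℝ[X]} (hd : p.natDegree ≤ m) (h : LX m p = 0) :
    p = 0 := by
  have hz : ∀ j, m < j → p.coeff j = 0 := fun j hj =>
    coeff_eq_zero_of_natDegree_lt (by omega)
  have hcf : ∀ n, (LX m p).coeff n = 0 := fun n => by rw [h, coeff_zero]
  have h0 := hcf 0
  have h1 := hcf 1
  have h2 := hcf 2
  have h3 := hcf 3
  have h4 := hcf 4
  have h5 := hcf 5
  rw [coeff_LX] at h0 h1 h2 h3 h4 h5
  norm_num at h0 h1 h2 h3 h4 h5
  have key : p.coeff 0 = 0 ∧ p.coeff 1 = 0 ∧ p.coeff 2 = 0 ∧ p.coeff 3 = 0 := by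
    interval_cases m
    · have z1 := hz 1 (by norm_num)
      have z2 := hz 2 (by norm_num)
      have z3 := hz 3 (by norm_num)
      norm_num at h0
      exact ⟨h0, z1, z2, z3⟩
    · have z2 := hz 2 (by norm_num)
      have z3 := hz 3 (by norm_num)
      have z4 := hz 4 (by norm_num)
      norm_num [z2, z3, z4] at h0 h3
      refine ⟨h0, ?_, z2, z3⟩
      linarith
    · have z3 := hz 3 (by norm_num)
      have z4 := hz 4 (by norm_num)
      norm_num [z3, z4] at h0 h1 h2
      rw [h0] at h1 h2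
      have h1' : p.coeff 1 = 0 := by linarith
      rw [h1'] at h2
      exact ⟨h0, h1', by linarith, z3⟩
    · have z4 := hz 4 (by norm_num)
      norm_num [z4] at h0 h1 h2 h3
      rw [h0] at h1 h2
      have h1' : p.coeff 1 = 0 := by linarith
      rw [h1'] at h2 h3
      have h2' : p.coeff 2 = 0 := by linarith
      rw [h2'] at h3
      exact ⟨h0, h1', h2', by linarith⟩
  ext n
  rw [coeff_zero]
  by_cases hn : n ≤ 3
  · interval_cases n
    · exact key.1
    · exact key.2.1
    · exact key.2.2.1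
    · exact key.2.2.2
  · exact hz n (by omega)

/-- the leading part of `G` -/
def g6 : ℝ[X] := C 243 * X ^ 6 + C 405 * X ^ 5 + C 270 * X ^ 4 + C 90 * X ^ 3 + C 15 * X ^ 2
  + C 1 * X ^ 1

theorem coeff_g6 (n : ℕ) : g6.coeff n = 243 * (if n = 6 then 1 else 0)
    + 405 * (if n = 5 then 1 else 0) + 270 * (if n = 4 then 1 else 0)
    + 90 * (if n = 3 then 1 else 0) + 15 * (if n = 2 then 1 else 0)
    + 1 * (if n = 1 then 1 else 0) := by
  simp only [g6, coeff_add, coeff_C_mul, coeff_X_pow]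

theorem LX_four {p : ℝ[X]} (hd : p.natDegree ≤ 4) {a : ℝ} (h : LX 4 p = C a * g6) :
    p = 0 ∧ a = 0 := by
  have hz : ∀ j, 4 < j → p.coeff j = 0 := fun j hj =>
    coeff_eq_zero_of_natDegree_lt (by omega)
  have hcf : ∀ n, (LX 4 p).coeff n = a * g6.coeff n := fun n => by rw [h, coeff_C_mul]
  have z5 := hz 5 (by norm_num)
  have z6 := hz 6 (by norm_num)
  have h0 := hcf 0
  have h1 := hcf 1
  have h2 := hcf 2
  have h3 := hcf 3
  have h4 := hcf 4
  have h5 := hcf 5
  have h6 := hcf 6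
  rw [coeff_LX, coeff_g6] at h0 h1 h2 h3 h4 h5 h6
  norm_num [z5, z6] at h0 h1 h2 h3 h4 h5 h6
  have ha : a = 0 := by linarith
  subst ha
  refine ⟨?_, rfl⟩
  ext n
  rw [coeff_zero]
  by_cases hn : n ≤ 4
  · interval_cases n <;> linarith
  · exact hz n (by omega)

theorem final_contra {p q h : ℝ[X]} (hp : p.natDegree ≤ 5) (hq : q.natDegree ≤ 4)
    (hh : h.natDegree ≤ 1)
    (e1 : LX 5 p = C 2 * (g6 * h))
    (e2 : LV 4 q = p * h - C (1 / 2) * derivative (g6 * (C 144 * X + C 40))) : False := by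
  have hpz : ∀ j, 5 < j → p.coeff j = 0 := fun j hj =>
    coeff_eq_zero_of_natDegree_lt (by omega)
  have hqz : ∀ j, 4 < j → q.coeff j = 0 := fun j hj =>
    coeff_eq_zero_of_natDegree_lt (by omega)
  obtain ⟨u, v, rfl⟩ : ∃ u v : ℝ, h = C u + C v * X := by
    refine ⟨h.coeff 0, h.coeff 1, ?_⟩
    rw [add_comm]
    exact eq_X_add_C_of_natDegree_le_one hh
  have c1 : ∀ n, (LX 5 p).coeff n = 2 * (g6.coeff n * u + v * (if 1 ≤ n then g6.coeff (n - 1) else 0)) := by
    intro n
    rw [e1, coeff_C_mul, show g6 * (C u + C v * X) = g6 * C u + C v * (X ^ 1 * g6) by ring,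
      coeff_add, coeff_mul_C, coeff_C_mul, coeff_X_pow_mul']
  have c2 : ∀ n, (LV 4 q).coeff n = (p.coeff n * u + v * (if 1 ≤ n then p.coeff (n - 1) else 0))
      - 1 / 2 * ((g6.coeff (n + 1) * 40 + 144 * (if 1 ≤ n + 1 then g6.coeff (n + 1 - 1) else 0))
        * ((n : ℝ) + 1)) := by
    intro n
    rw [e2, coeff_sub, coeff_C_mul, coeff_derivative,
      show p * (C u + C v * X) = p * C u + C v * (X ^ 1 * p) by ring,
      show g6 * (C 144 * X + C 40) = g6 * C 40 + C 144 * (X ^ 1 * g6) by ring]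
    simp only [coeff_add, coeff_mul_C, coeff_C_mul, coeff_X_pow_mul']
  have p6 := hpz 6 (by norm_num)
  have p7 := hpz 7 (by norm_num)
  have q5 := hqz 5 (by norm_num)
  have q6 := hqz 6 (by norm_num)
  have a0 := c1 0
  have a1 := c1 1
  have a2 := c1 2
  have a3 := c1 3
  have a4 := c1 4
  have a5 := c1 5
  have a6 := c1 6
  have a7 := c1 7
  rw [coeff_LX] at a0 a1 a2 a3 a4 a5 a6 a7
  simp only [coeff_g6] at a0 a1 a2 a3 a4 a5 a6 a7
  norm_num [p6, p7] at a0 a1 a2 a3 a4 a5 a6 a7
  have b0 := c2 0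
  have b1 := c2 1
  have b2 := c2 2
  have b3 := c2 3
  have b4 := c2 4
  have b5 := c2 5
  have b6 := c2 6
  rw [coeff_LV] at b0 b1 b2 b3 b4 b5 b6
  simp only [coeff_g6] at b0 b1 b2 b3 b4 b5 b6
  norm_num [p6, p7, q5, q6] at b0 b1 b2 b3 b4 b5 b6
  have P5 : p.coeff 5 = 81 / 8 * v := by linarith
  have P4 : p.coeff 4 = 81 / 4 * u + 135 / 16 * v := by linarith
  have P0 : p.coeff 0 = 1 / 4 * u - 1 / 16 * v := by linarith
  have P1 : p.coeff 1 = 3 * u - 5 / 8 * v := by linarith
  have P2 : p.coeff 2 = 27 / 2 * u - 15 / 8 * v := by linarith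
  have P3 : p.coeff 3 = 27 * u := by linarith
  simp only [P0, P1, P2, P3, P4, P5] at b1 b2 b3 b4 b5
  nlinarith [sq_nonneg (2 * u - v / 2)]


/-- constant function -/
def cst (a : ℝ) : RR → ℝ := fun _ => a

theorem sm_cst (a : ℝ) : ContDiff ℝ ∞ (cst a) := contDiff_const

theorem dx_cst_mul (a : ℝ) {f : RR → ℝ} (hf : ContDiff ℝ ∞ f) : dx (cst a * f) = cst a * dx f := by
  rw [dx_mul (sm_cst a) hf]
  have : dx (cst a) = 0 := dx_const a
  rw [this, zero_mul, zero_add]

theorem du_cst_mul (a : ℝ) {f : RR → ℝ} (hf : ContDiff ℝ ∞ f) : du (cst a * f) = cst a * du f := by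
  rw [du_mul (sm_cst a) hf]
  have : du (cst a) = 0 := du_const a
  rw [this, zero_mul, zero_add]

theorem hc_cst_mul (n : ℕ) (a : ℝ) {f : RR → ℝ} (hf : ContDiff ℝ ∞ f) :
    hc n (cst a * f) = C a * hc n f := hc_smul n a hf

theorem V_sub_cst {W B f g : RR → ℝ} (a : ℝ) (hf : ContDiff ℝ ∞ f)
    (hg : ContDiff ℝ ∞ g) : V W B (f - cst a * g) = V W B f - cst a * V W B g := by
  rw [V, V, V, dx_sub hf (sm_mul (sm_cst a) hg), du_sub hf (sm_mul (sm_cst a) hg),
    dx_cst_mul a hg, du_cst_mul a hg]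
  ring

theorem local_obstruction {W B G c al de b1 b2 h1 h2 : RR → ℝ} (hL : Lead W B)
    (hWx : dx W = 0) (smG : ContDiff ℝ ∞ G) (G0 : ∀ k < 6, hc k G = 0) (G6 : hc 6 G = g6)
    (smc : ContDiff ℝ ∞ c) (smal : ContDiff ℝ ∞ al) (smde : ContDiff ℝ ∞ de)
    (smb1 : ContDiff ℝ ∞ b1) (smb2 : ContDiff ℝ ∞ b2) (smh1 : ContDiff ℝ ∞ h1)
    (smh2 : ContDiff ℝ ∞ h2)
    (e0 : V W B c = 0) (e1 : V W B b2 = b2 * du W)
    (e2 : V W B b1 = b1 * dx B + b2 * du B + cst 2 * (G * dx al))
    (e3 : V W B de = b1 * dx al + b2 * du al - (h1 * dx c + h2 * du c)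
      - cst (1 / 2) * dx (G * dx (dx B))) : False := by
  -- constants
  set lam : ℝ := (hc 3 b2).coeff 0 with hlam
  set r : RR → ℝ := b2 - cst lam * W with hr
  set om : RR → ℝ := b1 - cst lam * B with hom
  set dl : RR → ℝ := de - cst lam * al with hdl
  have smr : ContDiff ℝ ∞ r := sm_sub smb2 (sm_mul (sm_cst _) hL.smW)
  have smom : ContDiff ℝ ∞ om := sm_sub smb1 (sm_mul (sm_cst _) hL.smB)
  have smdl : ContDiff ℝ ∞ dl := sm_sub smde (sm_mul (sm_cst _) smal)
  -- `c` is flat
  have hc0 : ∀ k, 1 ≤ k → hc k c = 0 := first_integral hL smc e0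
  have hcx : ∀ k, hc k (dx c) = 0 := fun k => by
    rw [hc_dx k smc, hc0 (k + 1) (by omega), derivative_zero]
  have hcu : ∀ k, hc k (du c) = 0 := fun k => by
    rw [hc_du k smc, hc0 (k + 1) (by omega), derivative_zero]; simp
  -- `r` is flat
  have hr0 : ∀ k, hc k r = 0 := by
    apply second_flat hL smr
    · rw [hr, V_sub_cst lam smb2 hL.smW, e1]
      have : V W B W = W * du W := by rw [V, hWx]; ring
      rw [this]; ring
    · rw [hr, hc_sub 3 smb2 (sm_mul (sm_cst _) hL.smW), hc_cst_mul 3 lam hL.smW, hL.W3]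
      simp [hlam]
  -- equation for `om`
  have eom : V W B om = om * dx B + r * du B + cst 2 * (G * dx al) := by
    rw [hom, V_sub_cst lam smb1 hL.smB, e2]
    have : V W B B = B * dx B + W * du B := rfl
    rw [this, hr]; ring
  have edl : V W B dl = om * dx al + r * du al - (h1 * dx c + h2 * du c)
      - cst (1 / 2) * dx (G * dx (dx B)) := by
    rw [hdl, V_sub_cst lam smde smal, e3]
    have : V W B al = B * dx al + W * du al := rfl
    rw [this, hom, hr]; ring
  -- orders
  have smdB := sm_dx hL.smB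
  have dB0 : ∀ k < 2, hc k (dx B) = 0 :=
    hc_dx_low hL.smB (fun j _ hj2 => hL.B0 j (by omega))
  have dB2 : hc 2 (dx B) = C 72 * X ^ 2 + C 40 * X ^ 1 + C 5 := by
    rw [hc_dx 2 hL.smB, hL.B3]
    simp only [derivative_add, derivative_mul, derivative_C, zero_mul, zero_add,
      derivative_X_pow, pow_one, derivative_X, mul_one]
    rw [show (C 72 : ℝ[X]) = C 24 * C 3 by rw [← C_mul]; norm_num,
      show (C 40 : ℝ[X]) = C 20 * C 2 by rw [← C_mul]; norm_num]
    norm_num
    ring
  have ddB0 : ∀ k < 1, hc k (dx (dx B)) = 0 :=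
    hc_dx_low smdB (fun j _ hj2 => dB0 j (by omega))
  have ddB1 : hc 1 (dx (dx B)) = C 144 * X + C 40 := by
    rw [hc_dx 1 smdB, dB2]
    simp only [derivative_add, derivative_mul, derivative_C, zero_mul, zero_add,
      derivative_X_pow, pow_one, derivative_X, mul_one]
    rw [show (C 144 : ℝ[X]) = C 72 * C 2 by rw [← C_mul]; norm_num]
    norm_num
    ring
  -- right-hand side of `eom`
  have hG1 : ∀ n, n < 6 → hc n (G * dx al) = 0 := fun n hn =>
    hc_mul_low smG (sm_dx smal) G0 (b := 0) (by intro k hk; omega) (by omega)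
  have rB : ∀ n, hc n (r * du B) = 0 := fun n => hc_mul_zero smr (sm_du hL.smB) hr0 n
  have ral : ∀ n, hc n (r * du al) = 0 := fun n => hc_mul_zero smr (sm_du smal) hr0 n
  have hh : ∀ n, hc n (h1 * dx c + h2 * du c) = 0 := fun n => by
    rw [hc_add n (sm_mul smh1 (sm_dx smc)) (sm_mul smh2 (sm_du smc)),
      mul_comm h1, mul_comm h2, hc_mul_zero (sm_dx smc) smh1 hcx n,
      hc_mul_zero (sm_du smc) smh2 hcu n, add_zero]
  -- leading parts of the `om` equation
  have key : ∀ m, (∀ k < m, hc k om = 0) →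
      LX m (hc m om) = C 2 * hc (m + 2) (G * dx al) := by
    intro m hm
    have a1 : hc (m + 2) (V W B om) = LV m (hc m om) := by
      cases m with
      | zero =>
        have e : hc 2 (V W B om) = 0 :=
          hc_V_low hL smom (m := 0) (fun j hj1 hj2 => by omega) (by omega)
        rw [zero_add, e, hc_zero, LV]
        simp
      | succ m =>
        have e := hc_V_lead hL smom (m := m) (fun j hj1 hj2 => hm j hj2)
        rw [show m + 1 + 2 = m + 3 by ring, e]
        push_cast
        rfl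
    have a2 : hc (m + 2) (om * dx B) = hc m om * (C 72 * X ^ 2 + C 40 * X ^ 1 + C 5) := by
      rw [hc_mul_lead smom smdB hm dB0, dB2]
    have a3 := congrArg (hc (m + 2)) eom
    rw [hc_add _ (sm_add (sm_mul smom smdB) (sm_mul smr (sm_du hL.smB)))
        (sm_mul (sm_cst _) (sm_mul smG (sm_dx smal))),
      hc_add _ (sm_mul smom smdB) (sm_mul smr (sm_du hL.smB)), rB, a1, a2,
      hc_cst_mul _ _ (sm_mul smG (sm_dx smal)), add_zero] at a3
    rw [LX]
    have : LV ((m : ℝ) - 5) (hc m om) = LV m (hc m om) - C 5 * hc m om := by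
      rw [LV, LV, C_sub]; ring
    rw [this]
    linear_combination a3
  have o0 : hc 0 om = 0 := by
    apply LX_inj (m := 0) (by norm_num) (natDegree_hc_le _ _)
    have := key 0 (by intro k hk; omega)
    rw [this, hG1 _ (by norm_num), mul_zero]
  have o1 : hc 1 om = 0 := by
    apply LX_inj (m := 1) (by norm_num) (natDegree_hc_le _ _)
    have := key 1 (by intro k hk; interval_cases k; exact o0)
    rw [this, hG1 _ (by norm_num), mul_zero]
  have o2 : hc 2 om = 0 := by
    apply LX_inj (m := 2) (by norm_num) (natDegree_hc_le _ _)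
    have := key 2 (by intro k hk; interval_cases k <;> assumption)
    rw [this, hG1 _ (by norm_num), mul_zero]
  have o3 : hc 3 om = 0 := by
    apply LX_inj (m := 3) (by norm_num) (natDegree_hc_le _ _)
    have := key 3 (by intro k hk; interval_cases k <;> assumption)
    rw [this, hG1 _ (by norm_num), mul_zero]
  have o4' : hc 4 om = 0 ∧ 2 * dx al 0 = 0 := by
    apply LX_four (natDegree_hc_le _ _)
    have h1 := key 4 (by intro k hk; interval_cases k <;> assumption)
    have h2 := hc_mul_lead smG (sm_dx smal) (a := 6) (b := 0) G0 (by intro k hk; omega)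
    rw [Nat.add_zero, G6, hc_zero] at h2
    have h3 : (4 : ℕ) + 2 = 6 := rfl
    rw [h3, h2, Nat.cast_ofNat] at h1
    rw [h1, C_mul]
    ring
  have o4 := o4'.1
  have hal0 : ∀ k < 1, hc k (dx al) = 0 := by
    intro k hk
    interval_cases k
    rw [hc_zero]
    have := o4'.2
    have h3 : dx al 0 = 0 := by linarith
    rw [h3, C_0]
  have hom5 : ∀ k < 5, hc k om = 0 := by
    intro k hk; interval_cases k <;> assumption
  have e5 : LX 5 (hc 5 om) = C 2 * (g6 * hc 1 (dx al)) := by
    have h1 := key 5 hom5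
    have h2 := hc_mul_lead smG (sm_dx smal) (a := 6) (b := 1) G0 hal0
    have h3 : (5 : ℕ) + 2 = 6 + 1 := rfl
    rw [h3, h2, G6, Nat.cast_ofNat] at h1
    exact h1
  -- the `dl` equation
  have homal : ∀ n < 6, hc n (om * dx al) = 0 := fun n hn =>
    hc_mul_low smom (sm_dx smal) hom5 hal0 (by omega)
  have smGB : ContDiff ℝ ∞ (G * dx (dx B)) := sm_mul smG (sm_dx smdB)
  have hGB0 : ∀ n < 7, hc n (G * dx (dx B)) = 0 := fun n hn =>
    hc_mul_low smG (sm_dx smdB) G0 ddB0 (by omega)
  have hGB : ∀ n < 6, hc n (dx (G * dx (dx B))) = 0 :=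
    hc_dx_low smGB (fun j _ hj2 => hGB0 j (by omega))
  have hGB6 : hc 6 (dx (G * dx (dx B))) = derivative (g6 * (C 144 * X + C 40)) := by
    have h2 := hc_mul_lead smG (sm_dx smdB) (a := 6) (b := 1) G0 ddB0
    rw [hc_dx 6 smGB, h2, G6, ddB1]
  have hV : ∀ n, hc n (V W B dl) = hc n (om * dx al)
      - C (1 / 2) * hc n (dx (G * dx (dx B))) := by
    intro n
    rw [edl, hc_sub _ (sm_sub (sm_add (sm_mul smom (sm_dx smal)) (sm_mul smr (sm_du smal)))
        (sm_add (sm_mul smh1 (sm_dx smc)) (sm_mul smh2 (sm_du smc))))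
        (sm_mul (sm_cst _) (sm_dx smGB)),
      hc_sub _ (sm_add (sm_mul smom (sm_dx smal)) (sm_mul smr (sm_du smal)))
        (sm_add (sm_mul smh1 (sm_dx smc)) (sm_mul smh2 (sm_du smc))),
      hc_add _ (sm_mul smom (sm_dx smal)) (sm_mul smr (sm_du smal)), ral, hh,
      hc_cst_mul _ _ (sm_dx smGB)]
    ring
  have low : ∀ n, n < 6 → hc n (V W B dl) = 0 := fun n hn => by
    rw [hV, homal n hn, hGB n hn]; simp
  have d1 : hc 1 dl = 0 := by
    have e := hc_V_lead hL smdl (m := 0) (fun j hj1 hj2 => by omega)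
    rw [low _ (by norm_num)] at e
    exact LV_inj (fun n => by positivity) e.symm
  have d2 : hc 2 dl = 0 := by
    have e := hc_V_lead hL smdl (m := 1) (fun j hj1 hj2 => by
      interval_cases j; exact d1)
    rw [low _ (by norm_num)] at e
    exact LV_inj (fun n => by positivity) e.symm
  have d3 : hc 3 dl = 0 := by
    have e := hc_V_lead hL smdl (m := 2) (fun j hj1 hj2 => by
      interval_cases j <;> assumption)
    rw [low _ (by norm_num)] at e
    exact LV_inj (fun n => by positivity) e.symm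
  have e6 : LV 4 (hc 4 dl) = hc 5 om * hc 1 (dx al)
      - C (1 / 2) * derivative (g6 * (C 144 * X + C 40)) := by
    have e := hc_V_lead hL smdl (m := 3) (fun j hj1 hj2 => by
      interval_cases j <;> assumption)
    have h2 := hc_mul_lead smom (sm_dx smal) (a := 5) (b := 1) hom5 hal0
    have h3 : (3 : ℕ) + 3 = 5 + 1 := rfl
    have h4 : (5 : ℕ) + 1 = 6 := rfl
    rw [hV, h3, h2, h4, hGB6] at e
    have h5 : ((3 : ℕ) : ℝ) + 1 = 4 := by norm_num
    rw [h5] at e
    exact e.symm
  exact final_contra (natDegree_hc_le _ _) (natDegree_hc_le _ _) (natDegree_hc_le _ _) e5 e6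

end Pool.H98.EQ
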