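import Pool.Agent.H98.EQ.Sys
import Pool.Agent.H98.EQ.Local

/-!
Leading Taylor components at the origin of the coefficients of the explicit classical system.
-/

open scoped ContDiff
open Real Polynomial

noncomputable section

namespace Pool.H98.EQ

/-- `f` vanishes to order `n` at the origin, with leading part `p`. -/
structure LP (n : ℕ) (f : RR → ℝ) (p : ℝ[X]) : Prop where
  sm : ContDiff ℝ ∞ f
  low : ∀ k < n, hc k f = 0
  lead : hc n f = p

theorem LP.mul {n m : ℕ} {f g : RR → ℝ} {p q : ℝ[X]} (hf : LP n f p) (hg : LP m g q) :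
    LP (n + m) (f * g) (p * q) where
  sm := sm_mul hf.sm hg.sm
  low := fun k hk => hc_mul_low hf.sm hg.sm hf.low hg.low hk
  lead := by rw [hc_mul_lead hf.sm hg.sm hf.low hg.low, hf.lead, hg.lead]

theorem LP.add {n : ℕ} {f g : RR → ℝ} {p q : ℝ[X]} (hf : LP n f p) (hg : LP n g q) :
    LP n (f + g) (p + q) where
  sm := sm_add hf.sm hg.sm
  low := fun k hk => by rw [hc_add k hf.sm hg.sm, hf.low k hk, hg.low k hk, add_zero]
  lead := by rw [hc_add n hf.sm hg.sm, hf.lead, hg.lead]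

theorem LP.weaken {n m : ℕ} {f : RR → ℝ} {p : ℝ[X]} (hf : LP m f p) (h : n < m) : LP n f 0 where
  sm := hf.sm
  low := fun k hk => hf.low k (hk.trans h)
  lead := hf.low n h

theorem LP.cst (a : ℝ) : LP 0 (cst a) (C a) where
  sm := sm_cst a
  low := fun k hk => by omega
  lead := hc_zero _

theorem LP.div {n : ℕ} {B Q : RR → ℝ} {p : ℝ[X]} {q : ℝ} (smB : ContDiff ℝ ∞ B)
    (hQ : LP 0 Q (C q)) (hq : q ≠ 0) (h : LP n (B * Q) (C q * p)) : LP n B p := by
  have hC : (C q : ℝ[X]) ≠ 0 := by rwa [Ne, C_eq_zero]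
  have low : ∀ k < n, hc k B = 0 := by
    intro k
    induction k using Nat.strong_induction_on with
    | _ k ih =>
      intro hk
      have e := hc_mul_lead smB hQ.sm (a := k) (b := 0)
        (fun j hj => ih j hj (hj.trans hk)) (fun j hj => by omega)
      rw [Nat.add_zero, h.low k hk, hQ.lead] at e
      exact (mul_eq_zero.1 e.symm).resolve_right hC
  refine ⟨smB, low, ?_⟩
  have e := hc_mul_lead smB hQ.sm (a := n) (b := 0) low (fun j hj => by omega)
  rw [Nat.add_zero, h.lead, hQ.lead, mul_comm] at e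
  exact (mul_right_cancel₀ hC e).symm

def fs : RR → ℝ := fun p => sin (p.1 / 2)
def fcx : RR → ℝ := fun p => cos (p.1 / 2)
def fU : RR → ℝ := fun p => sin p.2
def fCu : RR → ℝ := fun p => cos p.2

theorem sm_fs : ContDiff ℝ ∞ fs := by unfold fs; fun_prop
theorem sm_fcx : ContDiff ℝ ∞ fcx := by unfold fcx; fun_prop
theorem sm_fU : ContDiff ℝ ∞ fU := by unfold fU; fun_prop
theorem sm_fCu : ContDiff ℝ ∞ fCu := by unfold fCu; fun_prop

theorem LP_fs : LP 1 fs (C (1 / 2) * X) where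
  sm := sm_fs
  low := fun k hk => by
    interval_cases k
    rw [hc_zero]; simp [fs]
  lead := by
    have h1 : dx fs (0 : RR) = 1 / 2 := by
      refine dx_of sm_fs ?_
      refine (hs' (0 : RR).1).congr_deriv ?_
      simp
    have h2 : du fs (0 : RR) = 0 := by
      refine du_of sm_fs ?_
      exact (hasDerivAt_const (0 : ℝ) (sin ((0 : ℝ) / 2)))
    rw [hc_succ, hc_zero, hc_zero, h1, h2]
    norm_num

theorem LP_fU : LP 1 fU (C 1) where
  sm := sm_fU
  low := fun k hk => by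
    interval_cases k
    rw [hc_zero]; simp [fU]
  lead := by
    have h1 : dx fU (0 : RR) = 0 := by
      refine dx_of sm_fU ?_
      exact (hasDerivAt_const (0 : ℝ) (sin (0 : ℝ)))
    have h2 : du fU (0 : RR) = 1 := by
      refine du_of sm_fU ?_
      refine (hasDerivAt_sin (0 : RR).2).congr_deriv ?_
      simp
    rw [hc_succ, hc_zero, hc_zero, h1, h2]
    norm_num

theorem LP_fcx : LP 0 fcx (C 1) where
  sm := sm_fcx
  low := fun k hk => by omega
  lead := by rw [hc_zero]; simp [fcx]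

theorem LP_fCu : LP 0 fCu (C 1) where
  sm := sm_fCu
  low := fun k hk => by omega
  lead := by rw [hc_zero]; simp [fCu]

theorem LP_Q : LP 0 Qf (C 24) where
  sm := sm_Qf
  low := fun k hk => by omega
  lead := by rw [hc_zero]; congr 1; simp [Qf, Qp]

theorem LP_W : LP 3 Wf 1 := by
  have h := (LP_fU.mul LP_fU).mul LP_fU
  have e : fU * fU * fU = Wf := by
    funext p; simp only [fU, Wf, Pi.mul_apply]; ring
  rw [e] at h
  simpa using h

theorem LP_B : LP 3 Bf (C 24 * X ^ 3 + C 20 * X ^ 2 + C 5 * X ^ 1) := by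
  refine LP.div sm_Bf LP_Q (by norm_num) ?_
  -- the factors
  have t1 := ((LP.cst 768).mul (LP_fs.mul LP_fs)).mul LP_fcx
  have t2 := (((LP.cst 320).mul (LP_fs.mul LP_fU)).mul LP_fcx).mul LP_fcx
  have t3 := ((((LP.cst 40).mul (LP_fU.mul LP_fU)).mul LP_fcx).mul LP_fcx).mul LP_fcx
  have t4 := (LP_fs.mul (LP_fU.mul (LP_fU.mul LP_fU))).weaken (n := 2) (by norm_num)
  have t5 := (((LP.cst 6).mul LP_fs).mul LP_fcx).mul LP_fcx
  have t6 := (LP_fCu.mul (t5.mul (((t1.add t2).add t3).add t4)))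
  have e : fCu * (cst 6 * fs * fcx * fcx * (cst 768 * (fs * fs) * fcx + cst 320 * (fs * fU) * fcx * fcx
      + cst 40 * (fU * fU) * fcx * fcx * fcx + fs * (fU * (fU * fU)))) = Bf * Qf := by
    funext p
    have hQ := (Qf_pos p).ne'
    simp only [fCu, fs, fcx, fU, cst, Bf, bp, Pi.mul_apply, Pi.add_apply]
    field_simp
  rw [e] at t6
  refine ⟨t6.sm, fun k hk => t6.low k (by omega), ?_⟩
  refine Eq.trans t6.lead ?_
  simp only [C_1, mul_one, one_mul, add_zero]
  rw [show (C (1 / 2) : ℝ[X]) = C (1/2) from rfl]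
  have a1 : (C 6 * (C (1 / 2) * X) * (C 768 * (C (1 / 2) * X * (C (1 / 2) * X)) + C 320 * (C (1 / 2) * X)
      + C 40) : ℝ[X]) = C (6 * (1 / 2) * 768 * (1 / 2) * (1 / 2)) * X ^ 3
        + C (6 * (1 / 2) * 320 * (1 / 2)) * X ^ 2 + C (6 * (1 / 2) * 40) * X := by
    simp only [C_mul]; ring
  rw [a1]
  have a2 : (C 24 * (C 24 * X ^ 3 + C 20 * X ^ 2 + C 5 * X ^ 1) : ℝ[X])
      = C (24 * 24) * X ^ 3 + C (24 * 20) * X ^ 2 + C (24 * 5) * X := by
    simp only [C_mul]; ring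
  rw [a2]
  norm_num

theorem LP_G : LP 6 Gf g6 := by
  have hQ2 : LP 0 (Qf * Qf) (C (24 * 24)) := by
    have := LP_Q.mul LP_Q
    rw [← C_mul] at this; exact this
  refine LP.div sm_Gf hQ2 (by norm_num) ?_
  have n1 := ((LP.cst 6).mul LP_fs).add (LP_fcx.mul LP_fU)
  have n5 := n1.mul (n1.mul (n1.mul (n1.mul n1)))
  have c6 := LP_fcx.mul (LP_fcx.mul (LP_fcx.mul (LP_fcx.mul (LP_fcx.mul LP_fcx))))
  have t := (((LP.cst 1152).mul LP_fs).mul c6).mul n5
  have e : cst 1152 * fs * (fcx * (fcx * (fcx * (fcx * (fcx * fcx))))) * ((cst 6 * fs + fcx * fU)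
      * ((cst 6 * fs + fcx * fU) * ((cst 6 * fs + fcx * fU) * ((cst 6 * fs + fcx * fU)
      * (cst 6 * fs + fcx * fU))))) = Gf * (Qf * Qf) := by
    funext p
    have hQ := (Qf_pos p).ne'
    simp only [fs, fcx, fU, cst, Gf, gp, Pi.mul_apply, Pi.add_apply]
    field_simp
  rw [e] at t
  refine ⟨t.sm, fun k hk => t.low k (by omega), ?_⟩
  refine Eq.trans t.lead ?_
  simp only [C_1, mul_one, one_mul, add_zero]
  have a1 : (C 6 * (C (1 / 2) * X) + 1 : ℝ[X]) = C 3 * X + 1 := by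
    rw [← mul_assoc, ← C_mul]; norm_num
  rw [a1]
  unfold g6
  have a2 : (C 1152 * (C (1 / 2) * X) : ℝ[X]) = C (24 * 24) * X := by
    rw [← mul_assoc, ← C_mul]; norm_num
  rw [a2]
  have a3 : ((C 3 * X + 1) * ((C 3 * X + 1) * ((C 3 * X + 1) * ((C 3 * X + 1) * (C 3 * X + 1)))) : ℝ[X])
      = C (3 * 3 * 3 * 3 * 3) * X ^ 5 + C (3 * 3 * 3 * 3) * 5 * X ^ 4 + C (3 * 3 * 3) * 10 * X ^ 3
        + C (3 * 3) * 10 * X ^ 2 + C 3 * 5 * X + 1 := by
    simp only [C_mul]; ring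
  rw [a3]
  have b1 : (C 405 : ℝ[X]) = C (3 * 3 * 3 * 3) * 5 := by
    rw [show (5 : ℝ[X]) = C 5 from (map_ofNat C 5).symm, ← C_mul]; norm_num
  have b2 : (C 270 : ℝ[X]) = C (3 * 3 * 3) * 10 := by
    rw [show (10 : ℝ[X]) = C 10 from (map_ofNat C 10).symm, ← C_mul]; norm_num
  have b3 : (C 90 : ℝ[X]) = C (3 * 3) * 10 := by
    rw [show (10 : ℝ[X]) = C 10 from (map_ofNat C 10).symm, ← C_mul]; norm_num
  have b4 : (C 15 : ℝ[X]) = C 3 * 5 := by
    rw [show (5 : ℝ[X]) = C 5 from (map_ofNat C 5).symm, ← C_mul]; norm_num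
  have b5 : (C 243 : ℝ[X]) = C (3 * 3 * 3 * 3 * 3) := by norm_num
  rw [b1, b2, b3, b4, b5, C_1]
  ring

theorem lead_WB : Lead Wf Bf where
  smW := sm_Wf
  smB := sm_Bf
  W0 := LP_W.low
  B0 := LP_B.low
  W3 := LP_W.lead
  B3 := LP_B.lead

end Pool.H98.EQ
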