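import Pool.Agent.H98.EQ.Torus
import Pool.Agent.H98.EQ.Local

/-!
Pointwise identities from integral identities tested on all exponentials.
-/

open MeasureTheory Complex
open scoped ContDiff InnerProductSpace

noncomputable section

namespace Pool.H98.EQ

theorem quad_test {W0 W1 W2 W3 : R2 → ℂ} (s0 : ContDiff ℝ ∞ W0) (s1 : ContDiff ℝ ∞ W1)
    (s2 : ContDiff ℝ ∞ W2) (s3 : ContDiff ℝ ∞ W3) (p0 : IsPer W0) (p1 : IsPer W1) (p2 : IsPer W2)
    (p3 : IsPer W3)
    (h : ∀ m : ℤ × ℤ, ∫ x, ex m x * (W0 x + (m.1 : ℂ) * W1 x + (m.2 : ℂ) * W2 x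
      + (m.1 : ℂ) ^ 2 * W3 x) ∂mu = 0) (x : R2) :
    W0 x + I * dx W1 x + I * du W2 x - dx (dx W3) x = 0 := by
  have key := fourier_unique (f := fun x => W0 x + I * dx W1 x + I * du W2 x - dx (dx W3) x) ?_ ?_ ?_
  · exact key x
  · have c0 := s0.continuous
    have c1 := (sm_dx s1).continuous
    have c2 := (sm_du s2).continuous
    have c3 := (sm_dx (sm_dx s3)).continuous
    fun_prop
  · intro y
    simp only
    rw [(p0 y).1, (p0 y).2, (p1.dx y).1, (p1.dx y).2, (p2.du y).1, (p2.du y).2, (p3.dx.dx y).1,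
      (p3.dx.dx y).2]
    exact ⟨rfl, rfl⟩
  · intro m
    rw [← h m]
    have hcex : Continuous (ex m) := (sm_ex m).continuous
    have i0 : Integrable (fun x => ex m x * W0 x) mu := int_mu (hcex.mul s0.continuous)
    have i1 : Integrable (fun x => ex m x * ((m.1 : ℂ) * W1 x)) mu :=
      int_mu (hcex.mul (continuous_const.mul s1.continuous))
    have i2 : Integrable (fun x => ex m x * ((m.2 : ℂ) * W2 x)) mu :=
      int_mu (hcex.mul (continuous_const.mul s2.continuous))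
    have i3 : Integrable (fun x => ex m x * ((m.1 : ℂ) ^ 2 * W3 x)) mu :=
      int_mu (hcex.mul (continuous_const.mul s3.continuous))
    have j1 : Integrable (fun x => ex m x * (I * dx W1 x)) mu :=
      int_mu (hcex.mul (continuous_const.mul (sm_dx s1).continuous))
    have j2 : Integrable (fun x => ex m x * (I * du W2 x)) mu :=
      int_mu (hcex.mul (continuous_const.mul (sm_du s2).continuous))
    have j3 : Integrable (fun x => ex m x * (dx (dx W3) x)) mu :=
      int_mu (hcex.mul (sm_dx (sm_dx s3)).continuous)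
    have e1 : ∀ x, ex m x * (W0 x + I * dx W1 x + I * du W2 x - dx (dx W3) x)
        = ex m x * W0 x + ex m x * (I * dx W1 x) + ex m x * (I * du W2 x)
          - ex m x * (dx (dx W3) x) := by intro x; ring
    have e2 : ∀ x, ex m x * (W0 x + (m.1 : ℂ) * W1 x + (m.2 : ℂ) * W2 x + (m.1 : ℂ) ^ 2 * W3 x)
        = ex m x * W0 x + ex m x * ((m.1 : ℂ) * W1 x) + ex m x * ((m.2 : ℂ) * W2 x)
          + ex m x * ((m.1 : ℂ) ^ 2 * W3 x) := by intro x; ring
    simp only [e1, e2]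
    have k1 : Integrable (fun x => ex m x * W0 x + ex m x * (I * dx W1 x)) mu := i0.add j1
    have k2 : Integrable (fun x => ex m x * W0 x + ex m x * (I * dx W1 x)
      + ex m x * (I * du W2 x)) mu := k1.add j2
    have l1 : Integrable (fun x => ex m x * W0 x + ex m x * ((m.1 : ℂ) * W1 x)) mu := i0.add i1
    have l2 : Integrable (fun x => ex m x * W0 x + ex m x * ((m.1 : ℂ) * W1 x)
      + ex m x * ((m.2 : ℂ) * W2 x)) mu := l1.add i2
    rw [integral_sub k2 j3, integral_add k1 j2, integral_add i0 j1,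
      integral_add l2 i3, integral_add l1 i2, integral_add i0 i1, ibp_x s1 p1 m, ibp_u s2 p2 m]
    have e3 : ∫ x, ex m x * ((m.1 : ℂ) ^ 2 * W3 x) ∂mu = - ∫ x, ex m x * (dx (dx W3) x) ∂mu := by
      have a1 : ∀ x, ex m x * ((m.1 : ℂ) ^ 2 * W3 x) = (m.1 : ℂ) * (ex m x * ((m.1 : ℂ) * W3 x)) := by
        intro x; ring
      simp only [a1]
      rw [integral_const_mul, ibp_x s3 p3 m, ← integral_const_mul]
      have a2 : ∀ x, (m.1 : ℂ) * (ex m x * (I * dx W3 x)) = I * (ex m x * ((m.1 : ℂ) * dx W3 x)) := by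
        intro x; ring
      simp only [a2]
      rw [integral_const_mul, ibp_x (sm_dx s3) p3.dx m, ← integral_const_mul, ← integral_neg]
      refine integral_congr_ae (Filter.Eventually.of_forall fun x => ?_)
      show I * (ex m x * (I * dx (dx W3) x)) = -(ex m x * dx (dx W3) x)
      linear_combination (ex m x * dx (dx W3) x) * I_mul_I
    rw [e3]
    ring

/-- complexification of a real function -/
def cc (f : R2 → ℝ) : R2 → ℂ := fun x => (f x : ℂ)

theorem sm_cc {f : R2 → ℝ} (hf : ContDiff ℝ ∞ f) : ContDiff ℝ ∞ (cc f) :=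
  Complex.ofRealCLM.contDiff.comp hf

theorem IsPer.cc {f : R2 → ℝ} (hf : IsPer f) : IsPer (cc f) := by
  intro x
  simp only [Pool.H98.EQ.cc]
  rw [(hf x).1, (hf x).2]
  exact ⟨rfl, rfl⟩

theorem dx_comb {f g : R2 → ℝ} (hf : ContDiff ℝ ∞ f) (hg : ContDiff ℝ ∞ g) :
    dx (fun x => (f x : ℂ) + I * (g x : ℂ)) = fun x => ((dx f x : ℝ) : ℂ) + I * ((dx g x : ℝ) : ℂ) := by
  funext x
  have h1 : HasFDerivAt f (fderiv ℝ f x) x := (sm_diff hf x).hasFDerivAt
  have h2 : HasFDerivAt g (fderiv ℝ g x) x := (sm_diff hg x).hasFDerivAt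
  have h3 := (Complex.ofRealCLM.hasFDerivAt (x := f x)).comp x h1
  have h4 := (Complex.ofRealCLM.hasFDerivAt (x := g x)).comp x h2
  have h5 := h3.add (h4.const_mul I)
  have h6 : HasFDerivAt (fun x => (f x : ℂ) + I * (g x : ℂ)) _ x := h5
  show fderiv ℝ (fun x => (f x : ℂ) + I * (g x : ℂ)) x (1, 0) = _
  rw [h6.fderiv]
  simp [dx]

theorem du_comb {f g : R2 → ℝ} (hf : ContDiff ℝ ∞ f) (hg : ContDiff ℝ ∞ g) :
    du (fun x => (f x : ℂ) + I * (g x : ℂ)) = fun x => ((du f x : ℝ) : ℂ) + I * ((du g x : ℝ) : ℂ) := by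
  funext x
  have h1 : HasFDerivAt f (fderiv ℝ f x) x := (sm_diff hf x).hasFDerivAt
  have h2 : HasFDerivAt g (fderiv ℝ g x) x := (sm_diff hg x).hasFDerivAt
  have h3 := (Complex.ofRealCLM.hasFDerivAt (x := f x)).comp x h1
  have h4 := (Complex.ofRealCLM.hasFDerivAt (x := g x)).comp x h2
  have h5 := h3.add (h4.const_mul I)
  have h6 : HasFDerivAt (fun x => (f x : ℂ) + I * (g x : ℂ)) _ x := h5
  show fderiv ℝ (fun x => (f x : ℂ) + I * (g x : ℂ)) x (0, 1) = _
  rw [h6.fderiv]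
  simp [du]

/-- smooth periodic real function -/
structure SP (f : R2 → ℝ) : Prop where
  sm : ContDiff ℝ ∞ f
  per : IsPer f

theorem SP.mul {f g : R2 → ℝ} (hf : SP f) (hg : SP g) : SP (f * g) where
  sm := sm_mul hf.sm hg.sm
  per := fun x => by simp only [Pi.mul_apply, (hf.per x).1, (hf.per x).2, (hg.per x).1, (hg.per x).2]; exact ⟨trivial, trivial⟩

theorem SP.add {f g : R2 → ℝ} (hf : SP f) (hg : SP g) : SP (f + g) where
  sm := sm_add hf.sm hg.sm
  per := fun x => by simp only [Pi.add_apply, (hf.per x).1, (hf.per x).2, (hg.per x).1, (hg.per x).2]; exact ⟨trivial, trivial⟩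

theorem SP.sub {f g : R2 → ℝ} (hf : SP f) (hg : SP g) : SP (f - g) where
  sm := sm_sub hf.sm hg.sm
  per := fun x => by simp only [Pi.sub_apply, (hf.per x).1, (hf.per x).2, (hg.per x).1, (hg.per x).2]; exact ⟨trivial, trivial⟩

theorem SP.cst (a : ℝ) : SP (cst a) where
  sm := sm_cst a
  per := fun _ => ⟨rfl, rfl⟩

/-- the real and imaginary parts of `quad_test` -/
theorem quad_real {R0 S0 R1 S1 R2' S2 R3 S3 : R2 → ℝ} (a0 : SP R0) (b0 : SP S0) (a1 : SP R1)
    (b1 : SP S1) (a2 : SP R2') (b2 : SP S2) (a3 : SP R3) (b3 : SP S3)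
    (h : ∀ m : ℤ × ℤ, ∫ x, ex m x * (((R0 x : ℂ) + I * (S0 x : ℂ))
      + (m.1 : ℂ) * ((R1 x : ℂ) + I * (S1 x : ℂ)) + (m.2 : ℂ) * ((R2' x : ℂ) + I * (S2 x : ℂ))
      + (m.1 : ℂ) ^ 2 * ((R3 x : ℂ) + I * (S3 x : ℂ))) ∂mu = 0) :
    (R0 - dx S1 - du S2 - dx (dx R3) = 0) ∧ (S0 + dx R1 + du R2' - dx (dx S3) = 0) := by
  have sm : ∀ {f g : R2 → ℝ}, SP f → SP g → ContDiff ℝ ∞ (fun x => (f x : ℂ) + I * (g x : ℂ)) := by
    intro f g hf hg
    exact (sm_cc hf.sm).add (contDiff_const.mul (sm_cc hg.sm))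
  have pe : ∀ {f g : R2 → ℝ}, SP f → SP g → IsPer (fun x => (f x : ℂ) + I * (g x : ℂ)) := by
    intro f g hf hg x
    simp only [(hf.per x).1, (hf.per x).2, (hg.per x).1, (hg.per x).2]
    exact ⟨trivial, trivial⟩
  have key := quad_test (sm a0 b0) (sm a1 b1) (sm a2 b2) (sm a3 b3) (pe a0 b0) (pe a1 b1)
    (pe a2 b2) (pe a3 b3) h
  rw [dx_comb a1.sm b1.sm, du_comb a2.sm b2.sm, dx_comb a3.sm b3.sm,
    dx_comb (sm_dx a3.sm) (sm_dx b3.sm)] at key
  constructor
  · funext x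
    have := congrArg Complex.re (key x)
    simp at this ⊢
    linarith
  · funext x
    have := congrArg Complex.im (key x)
    simp at this ⊢
    linarith


/-- The data extracted from the expansions of `P₁(ħ)`, `P₂(ħ)`: the coefficients
`S_{ij}(k,x)` of `ħ^j` in `σ_i(x,ħk)`, and the integral identities expressing symmetry and
commutation. -/
structure Tested (B W G al ali gx gu gxi gui e ei c ci bx bu bxi bui d di : R2 → ℝ) : Prop where
  hB : SP B
  hW : SP W
  hG : SP G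
  hal : SP al
  hali : SP ali
  hgx : SP gx
  hgu : SP gu
  hgxi : SP gxi
  hgui : SP gui
  he : SP e
  hei : SP ei
  hc : SP c
  hci : SP ci
  hbx : SP bx
  hbu : SP bu
  hbxi : SP bxi
  hbui : SP bui
  hd : SP d
  hdi : SP di

/-- `S₁₁` -/
def S11 (B W al ali : R2 → ℝ) (k : ℤ × ℤ) (x : R2) : ℂ :=
  ((B x : ℂ) * k.1 + (W x : ℂ) * k.2) + ((al x : ℂ) + I * (ali x : ℂ))

/-- `S₁₂` -/
def S12 (gx gu gxi gui e ei : R2 → ℝ) (k : ℤ × ℤ) (x : R2) : ℂ :=
  (((gx x : ℂ) + I * (gxi x : ℂ)) * k.1 + ((gu x : ℂ) + I * (gui x : ℂ)) * k.2)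
    + ((e x : ℂ) + I * (ei x : ℂ))

/-- `S₂₁` -/
def S21 (c ci : R2 → ℝ) (_k : ℤ × ℤ) (x : R2) : ℂ := (c x : ℂ) + I * (ci x : ℂ)

/-- `S₂₂` -/
def S22 (G bx bu bxi bui d di : R2 → ℝ) (k : ℤ × ℤ) (x : R2) : ℂ :=
  (G x : ℂ) * (k.1 : ℂ) ^ 2 +
  ((((bx x : ℂ) + I * (bxi x : ℂ)) * k.1 + ((bu x : ℂ) + I * (bui x : ℂ)) * k.2)
    + ((d x : ℂ) + I * (di x : ℂ)))

section ident

variable {B W G al ali gx gu gxi gui e ei c ci bx bu bxi bui d di : R2 → ℝ}

theorem conj_S11 (k : ℤ × ℤ) (x : R2) : (starRingEnd ℂ) (S11 B W al ali k x)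
    = ((B x : ℂ) * k.1 + (W x : ℂ) * k.2) + ((al x : ℂ) - I * (ali x : ℂ)) := by
  simp only [S11, map_add, map_mul, Complex.conj_ofReal, conj_I, map_intCast]
  ring

theorem conj_S12 (k : ℤ × ℤ) (x : R2) : (starRingEnd ℂ) (S12 gx gu gxi gui e ei k x)
    = (((gx x : ℂ) - I * (gxi x : ℂ)) * k.1 + ((gu x : ℂ) - I * (gui x : ℂ)) * k.2)
    + ((e x : ℂ) - I * (ei x : ℂ)) := by
  simp only [S12, map_add, map_mul, Complex.conj_ofReal, conj_I, map_intCast]
  ring

theorem conj_S21 (k : ℤ × ℤ) (x : R2) : (starRingEnd ℂ) (S21 c ci k x)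
    = (c x : ℂ) - I * (ci x : ℂ) := by
  simp only [S21, map_add, map_mul, Complex.conj_ofReal, conj_I]
  ring

theorem conj_S22 (k : ℤ × ℤ) (x : R2) : (starRingEnd ℂ) (S22 G bx bu bxi bui d di k x)
    = (G x : ℂ) * (k.1 : ℂ) ^ 2 +
  ((((bx x : ℂ) - I * (bxi x : ℂ)) * k.1 + ((bu x : ℂ) - I * (bui x : ℂ)) * k.2)
    + ((d x : ℂ) - I * (di x : ℂ))) := by
  simp only [S22, map_add, map_mul, map_pow, Complex.conj_ofReal, conj_I, map_intCast]
  ring

/-- symmetry of `P₁` at order `ħ` -/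
theorem id_s1 (T : Tested B W G al ali gx gu gxi gui e ei c ci bx bu bxi bui d di)
    (h : ∀ k m : ℤ × ℤ, ∫ x, ex m x * ((starRingEnd ℂ) (S11 B W al ali k x)
      - S11 B W al ali (k + m) x) ∂mu = 0) :
    cst 2 * ali + dx B + du W = 0 := by
  have h0 := (quad_real (SP.cst 0) ((SP.cst (-2)).mul T.hali) ((SP.cst (-1)).mul T.hB) (SP.cst 0)
    ((SP.cst (-1)).mul T.hW) (SP.cst 0) (SP.cst 0) (SP.cst 0) (fun m => by
      rw [← h 0 m]
      refine integral_congr_ae (Filter.Eventually.of_forall fun x => ?_)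
      simp only [conj_S11]
      simp only [S11, cst, Pi.mul_apply, Prod.fst_zero, Prod.snd_zero, zero_add]
      push_cast
      ring)).2
  rw [dx_cst_mul _ T.hB.sm, du_cst_mul _ T.hW.sm] at h0
  have e0 : dx (cst 0) = 0 := dx_const 0
  have e1 : dx (0 : R2 → ℝ) = 0 := dx_const 0
  rw [e0, e1] at h0
  funext x
  have := congrFun h0 x
  simp [cst] at this ⊢
  linarith

/-- symmetry of `P₁` at order `ħ²` -/
theorem id_s2 (T : Tested B W G al ali gx gu gxi gui e ei c ci bx bu bxi bui d di)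
    (h : ∀ k m : ℤ × ℤ, ∫ x, ex m x * ((starRingEnd ℂ) (S12 gx gu gxi gui e ei k x)
      - S12 gx gu gxi gui e ei (k + m) x) ∂mu = 0) :
    gxi = 0 ∧ gui = 0 ∧ cst 2 * ei + dx gx + du gu = 0 := by
  have e0 : dx (cst 0) = 0 := dx_const 0
  have e1 : dx (0 : R2 → ℝ) = 0 := dx_const 0
  have main : ∀ k : ℤ × ℤ, cst 2 * ei + cst (2 * k.1) * gxi + cst (2 * k.2) * gui + dx gx + du gu
      = 0 := by
    intro k
    have h0 := (quad_real (SP.cst 0) ((((SP.cst (-2)).mul T.hei).add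
        ((SP.cst (-2 * k.1)).mul T.hgxi)).add ((SP.cst (-2 * k.2)).mul T.hgui))
      ((SP.cst (-1)).mul T.hgx) ((SP.cst (-1)).mul T.hgxi)
      ((SP.cst (-1)).mul T.hgu) ((SP.cst (-1)).mul T.hgui) (SP.cst 0) (SP.cst 0) (fun m => by
        rw [← h k m]
        refine integral_congr_ae (Filter.Eventually.of_forall fun x => ?_)
        simp only [conj_S12]
        simp only [S12, cst, Pi.mul_apply, Pi.add_apply, Prod.fst_add, Prod.snd_add]
        push_cast
        ring)).2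
    rw [dx_cst_mul _ T.hgx.sm, du_cst_mul _ T.hgu.sm, e0, e1] at h0
    funext x
    have := congrFun h0 x
    simp [cst] at this ⊢
    linarith
  have m0 := main 0
  have m1 := main (1, 0)
  have m2 := main (0, 1)
  refine ⟨?_, ?_, ?_⟩
  · funext x
    have a0 := congrFun m0 x
    have a1 := congrFun m1 x
    simp [cst] at a0 a1 ⊢
    linarith
  · funext x
    have a0 := congrFun m0 x
    have a1 := congrFun m2 x
    simp [cst] at a0 a1 ⊢
    linarith
  · funext x
    have a0 := congrFun m0 x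
    simp [cst] at a0 ⊢
    linarith

/-- symmetry of `P₂` at order `ħ` -/
theorem id_s3 (T : Tested B W G al ali gx gu gxi gui e ei c ci bx bu bxi bui d di)
    (h : ∀ k m : ℤ × ℤ, ∫ x, ex m x * ((starRingEnd ℂ) (S21 c ci k x)
      - S21 c ci (k + m) x) ∂mu = 0) : ci = 0 := by
  have h0 := (quad_real (SP.cst 0) ((SP.cst (-2)).mul T.hci) (SP.cst 0) (SP.cst 0)
    (SP.cst 0) (SP.cst 0) (SP.cst 0) (SP.cst 0) (fun m => by
      rw [← h 0 m]
      refine integral_congr_ae (Filter.Eventually.of_forall fun x => ?_)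
      simp only [conj_S21]
      simp only [S21, cst, Pi.mul_apply]
      push_cast
      ring)).2
  have e0 : dx (cst 0) = 0 := dx_const 0
  have e2 : du (cst 0) = 0 := du_const 0
  have e1 : dx (0 : R2 → ℝ) = 0 := dx_const 0
  rw [e0, e1, e2] at h0
  funext x
  have := congrFun h0 x
  simp [cst] at this ⊢
  linarith

/-- symmetry of `P₂` at order `ħ²` -/
theorem id_s4 (T : Tested B W G al ali gx gu gxi gui e ei c ci bx bu bxi bui d di)
    (h : ∀ k m : ℤ × ℤ, ∫ x, ex m x * ((starRingEnd ℂ) (S22 G bx bu bxi bui d di k x)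
      - S22 G bx bu bxi bui d di (k + m) x) ∂mu = 0) :
    bxi + dx G = 0 ∧ bui = 0 ∧ cst 2 * di + dx bx + du bu = 0 := by
  have e0 : dx (cst 0) = 0 := dx_const 0
  have e1 : dx (0 : R2 → ℝ) = 0 := dx_const 0
  have main : ∀ k : ℤ × ℤ, cst 2 * di + cst (2 * k.1) * bxi + cst (2 * k.2) * bui
      + cst (2 * k.1) * dx G + dx bx + du bu = 0 := by
    intro k
    have h0 := (quad_real (SP.cst 0) ((((SP.cst (-2)).mul T.hdi).add
        ((SP.cst (-2 * k.1)).mul T.hbxi)).add ((SP.cst (-2 * k.2)).mul T.hbui))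
      (((SP.cst (-1)).mul T.hbx).add ((SP.cst (-2 * k.1)).mul T.hG)) ((SP.cst (-1)).mul T.hbxi)
      ((SP.cst (-1)).mul T.hbu) ((SP.cst (-1)).mul T.hbui) ((SP.cst (-1)).mul T.hG)
      (SP.cst 0) (fun m => by
        rw [← h k m]
        refine integral_congr_ae (Filter.Eventually.of_forall fun x => ?_)
        simp only [conj_S22]
        simp only [S22, cst, Pi.mul_apply, Pi.add_apply, Prod.fst_add, Prod.snd_add]
        push_cast
        ring)).2
    rw [dx_add ((SP.cst (-1)).mul T.hbx).sm ((SP.cst (-2 * k.1)).mul T.hG).sm,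
      dx_cst_mul _ T.hbx.sm, dx_cst_mul _ T.hG.sm, du_cst_mul _ T.hbu.sm, e0, e1] at h0
    funext x
    have := congrFun h0 x
    simp [cst] at this ⊢
    linarith
  have m0 := main 0
  have m1 := main (1, 0)
  have m2 := main (0, 1)
  refine ⟨?_, ?_, ?_⟩
  · funext x
    have a0 := congrFun m0 x
    have a1 := congrFun m1 x
    simp [cst] at a0 a1 ⊢
    linarith
  · funext x
    have a0 := congrFun m0 x
    have a1 := congrFun m2 x
    simp [cst] at a0 a1 ⊢
    linarith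
  · funext x
    have a0 := congrFun m0 x
    simp [cst] at a0 ⊢
    linarith

end ident

end Pool.H98.EQ
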