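import Pool.Agent.H98.EQ.Ident

/-!
Pointwise identities from the commutation relation.
-/

open MeasureTheory Complex
open scoped ContDiff InnerProductSpace

noncomputable section

namespace Pool.H98.EQ

section ident

variable {B W G al ali gx gu gxi gui e ei c ci bx bu bxi bui d di : R2 → ℝ}

theorem SP.cont {f : R2 → ℝ} (hf : SP f) : Continuous (fun x => (f x : ℂ)) :=
  Complex.continuous_ofReal.comp hf.sm.continuous

theorem cont_S11 (T : Tested B W G al ali gx gu gxi gui e ei c ci bx bu bxi bui d di) (k : ℤ × ℤ) :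
    Continuous (S11 B W al ali k) := by
  have h1 := T.hB.cont
  have h2 := T.hW.cont
  have h3 := T.hal.cont
  have h4 := T.hali.cont
  unfold S11
  fun_prop

theorem cont_S12 (T : Tested B W G al ali gx gu gxi gui e ei c ci bx bu bxi bui d di) (k : ℤ × ℤ) :
    Continuous (S12 gx gu gxi gui e ei k) := by
  have h1 := T.hgx.cont
  have h2 := T.hgu.cont
  have h3 := T.hgxi.cont
  have h4 := T.hgui.cont
  have h5 := T.he.cont
  have h6 := T.hei.cont
  unfold S12
  fun_prop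

theorem cont_S21 (T : Tested B W G al ali gx gu gxi gui e ei c ci bx bu bxi bui d di) (k : ℤ × ℤ) :
    Continuous (S21 c ci k) := by
  have h1 := T.hc.cont
  have h2 := T.hci.cont
  unfold S21
  fun_prop

theorem cont_S22 (T : Tested B W G al ali gx gu gxi gui e ei c ci bx bu bxi bui d di) (k : ℤ × ℤ) :
    Continuous (S22 G bx bu bxi bui d di k) := by
  have h1 := T.hbx.cont
  have h2 := T.hbu.cont
  have h3 := T.hbxi.cont
  have h4 := T.hbui.cont
  have h5 := T.hd.cont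
  have h6 := T.hdi.cont
  have h7 := T.hG.cont
  unfold S22
  fun_prop

/-- order `ħ²` of the commutation relation -/
theorem id_c2 (T : Tested B W G al ali gx gu gxi gui e ei c 0 bx bu bxi bui d di)
    (h1 : cst 2 * ali + dx B + du W = 0)
    (h : ∀ k m : ℤ × ℤ, ∫ x, ex m x * ((starRingEnd ℂ) (S21 c 0 k x) * S11 B W al ali (k + m) x
      - (starRingEnd ℂ) (S11 B W al ali k x) * S21 c 0 (k + m) x) ∂mu = 0) :
    B * dx c + W * du c = 0 := by
  have h0 := (quad_real (SP.cst 0) ((SP.cst 2).mul (T.hc.mul T.hali)) (T.hc.mul T.hB) (SP.cst 0)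
    (T.hc.mul T.hW) (SP.cst 0) (SP.cst 0) (SP.cst 0) (fun m => by
      rw [← h 0 m]
      refine integral_congr_ae (Filter.Eventually.of_forall fun x => ?_)
      simp only [conj_S21, conj_S11]
      simp only [S11, S21, cst, Pi.mul_apply, Prod.fst_zero, Prod.snd_zero, zero_add,
        Pi.zero_apply]
      push_cast
      ring)).2
  have e0 : dx (cst 0) = 0 := dx_const 0
  have e1 : dx (0 : R2 → ℝ) = 0 := dx_const 0
  rw [dx_mul T.hc.sm T.hB.sm, du_mul T.hc.sm T.hW.sm, e0, e1] at h0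
  funext x
  have a0 := congrFun h0 x
  have a1 := congrFun h1 x
  simp [cst] at a0 a1 ⊢
  linear_combination a0 - c x * a1

/-- the order `ħ³` coefficient in the commutation relation -/
def TT (B W G al ali gx gu e ei c bx bu bxi d di : R2 → ℝ) (k m : ℤ × ℤ) (x : R2) : ℂ :=
  ((starRingEnd ℂ) (S21 c 0 k x) * S12 gx gu 0 0 e ei (k + m) x
    + (starRingEnd ℂ) (S22 G bx bu bxi 0 d di k x) * S11 B W al ali (k + m) x)
  - ((starRingEnd ℂ) (S11 B W al ali k x) * S22 G bx bu bxi 0 d di (k + m) x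
    + (starRingEnd ℂ) (S12 gx gu 0 0 e ei k x) * S21 c 0 (k + m) x)

theorem cont_TT (T : Tested B W G al ali gx gu 0 0 e ei c 0 bx bu bxi 0 d di) (k m : ℤ × ℤ) :
    Continuous (TT B W G al ali gx gu e ei c bx bu bxi d di k m) := by
  have h1 := fun k => cont_S11 T k
  have h2 := fun k => cont_S12 T k
  have h3 := fun k => cont_S21 T k
  have h4 := fun k => cont_S22 T k
  have g1 := h1 k
  have g2 := h2 k
  have g3 := h3 k
  have g4 := h4 k
  have f1 := h1 (k + m)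
  have f2 := h2 (k + m)
  have f3 := h3 (k + m)
  have f4 := h4 (k + m)
  unfold TT
  fun_prop

theorem TT_sub (T : Tested B W G al ali gx gu 0 0 e ei c 0 bx bu bxi 0 d di)
    (h : ∀ k m : ℤ × ℤ, ∫ x, ex m x * TT B W G al ali gx gu e ei c bx bu bxi d di k m x ∂mu = 0)
    (k k' m : ℤ × ℤ) :
    ∫ x, ex m x * (TT B W G al ali gx gu e ei c bx bu bxi d di k m x
      - TT B W G al ali gx gu e ei c bx bu bxi d di k' m x) ∂mu = 0 := by
  have hcex : Continuous (ex m) := (sm_ex m).continuous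
  have i1 := int_mu (hcex.mul (cont_TT T k m))
  have i2 := int_mu (hcex.mul (cont_TT T k' m))
  have := integral_sub i1 i2
  simp only [Pi.mul_apply] at this
  rw [h k m, h k' m, sub_zero] at this
  rw [← this]
  refine integral_congr_ae (Filter.Eventually.of_forall fun x => ?_)
  simp only [Pi.mul_apply]
  ring

/-- order `ħ³`, odd part in `k = e₂` -/
theorem id_c3u (T : Tested B W G al ali gx gu 0 0 e ei c 0 bx bu bxi 0 d di)
    (hWx : dx W = 0)
    (h1 : cst 2 * ali + dx B + du W = 0) (h2 : cst 2 * di + dx bx + du bu = 0)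
    (h : ∀ k m : ℤ × ℤ, ∫ x, ex m x * TT B W G al ali gx gu e ei c bx bu bxi d di k m x ∂mu = 0) :
    B * dx bu + W * du bu = bu * du W := by
  have h0 := (quad_real (SP.cst 0)
    (((SP.cst (-4)).mul (T.hdi.mul T.hW)).add ((SP.cst 4).mul (T.hbu.mul T.hali)))
    (((SP.cst 2).mul (T.hbu.mul T.hB)).sub ((SP.cst 2).mul (T.hW.mul T.hbx)))
    ((SP.cst (-2)).mul (T.hW.mul T.hbxi))
    (SP.cst 0) (SP.cst 0) ((SP.cst (-2)).mul (T.hW.mul T.hG)) (SP.cst 0) (fun m => by
      rw [← TT_sub T h (0, 1) (0, -1) m]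
      refine integral_congr_ae (Filter.Eventually.of_forall fun x => ?_)
      simp only [TT, conj_S21, conj_S11, conj_S22, conj_S12]
      simp only [S11, S21, S12, S22, cst, Pi.mul_apply, Pi.add_apply, Pi.sub_apply, Prod.fst_add,
        Prod.snd_add, zero_add, Pi.zero_apply]
      push_cast
      ring)).2
  have e0 : dx (cst 0) = 0 := dx_const 0
  have e1 : dx (0 : R2 → ℝ) = 0 := dx_const 0
  have e2 : du (cst 0) = 0 := du_const 0
  rw [dx_sub (sm_mul (sm_cst 2) (sm_mul T.hbu.sm T.hB.sm))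
      (sm_mul (sm_cst 2) (sm_mul T.hW.sm T.hbx.sm)), dx_cst_mul _ (sm_mul T.hbu.sm T.hB.sm),
    dx_cst_mul _ (sm_mul T.hW.sm T.hbx.sm), dx_mul T.hbu.sm T.hB.sm, dx_mul T.hW.sm T.hbx.sm,
    e0, e1, e2, hWx] at h0
  funext x
  have a0 := congrFun h0 x
  have a1 := congrFun h1 x
  have a2 := congrFun h2 x
  simp [cst] at a0 a1 a2 ⊢
  linear_combination a0 / 2 - bu x * a1 + W x * a2

/-- order `ħ³`, odd part in `k = e₁` -/
theorem id_c3x (T : Tested B W G al ali gx gu 0 0 e ei c 0 bx bu bxi 0 d di)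
    (h1 : cst 2 * ali + dx B + du W = 0) (h2 : cst 2 * di + dx bx + du bu = 0)
    (h3 : bxi + dx G = 0)
    (h : ∀ k m : ℤ × ℤ, ∫ x, ex m x * TT B W G al ali gx gu e ei c bx bu bxi d di k m x ∂mu = 0) :
    B * dx bx + W * du bx = bx * dx B + bu * du B + cst 2 * (G * dx al) := by
  have h0 := (quad_real (SP.cst 0)
    ((((SP.cst (-4)).mul (T.hdi.mul T.hB)).add ((SP.cst 4).mul (T.hbx.mul T.hali))).sub
      ((SP.cst 4).mul (T.hbxi.mul T.hal)))
    ((SP.cst (-4)).mul (T.hG.mul T.hal))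
    (((SP.cst (-4)).mul (T.hB.mul T.hbxi)).add ((SP.cst 4).mul (T.hG.mul T.hali)))
    (((SP.cst 2).mul (T.hbx.mul T.hW)).sub ((SP.cst 2).mul (T.hB.mul T.hbu)))
    ((SP.cst (-2)).mul (T.hbxi.mul T.hW))
    ((SP.cst (-2)).mul (T.hB.mul T.hG)) (SP.cst 0) (fun m => by
      rw [← TT_sub T h (1, 0) (-1, 0) m]
      refine integral_congr_ae (Filter.Eventually.of_forall fun x => ?_)
      simp only [TT, conj_S21, conj_S11, conj_S22, conj_S12]
      simp only [S11, S21, S12, S22, cst, Pi.mul_apply, Pi.add_apply, Pi.sub_apply, Prod.fst_add,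
        Prod.snd_add, zero_add, Pi.zero_apply]
      push_cast
      ring)).2
  have e0 : dx (cst 0) = 0 := dx_const 0
  have e1 : dx (0 : R2 → ℝ) = 0 := dx_const 0
  rw [dx_cst_mul _ (sm_mul T.hG.sm T.hal.sm), dx_mul T.hG.sm T.hal.sm,
    du_sub (sm_mul (sm_cst 2) (sm_mul T.hbx.sm T.hW.sm))
      (sm_mul (sm_cst 2) (sm_mul T.hB.sm T.hbu.sm)), du_cst_mul _ (sm_mul T.hbx.sm T.hW.sm),
    du_cst_mul _ (sm_mul T.hB.sm T.hbu.sm), du_mul T.hbx.sm T.hW.sm, du_mul T.hB.sm T.hbu.sm,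
    e0, e1] at h0
  funext x
  have a0 := congrFun h0 x
  have a1 := congrFun h1 x
  have a2 := congrFun h2 x
  have a3 := congrFun h3 x
  simp [cst] at a0 a1 a2 a3 ⊢
  linear_combination a0 / 2 - bx x * a1 + B x * a2 + 2 * al x * a3

/-- order `ħ³`, `k = 0` -/
theorem id_c30 (T : Tested B W G al ali gx gu 0 0 e ei c 0 bx bu bxi 0 d di)
    (hWx : dx W = 0)
    (h1 : cst 2 * ali + dx B + du W = 0) (h2 : cst 2 * di + dx bx + du bu = 0)
    (h3 : bxi + dx G = 0) (h4 : cst 2 * ei + dx gx + du gu = 0)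
    (h : ∀ k m : ℤ × ℤ, ∫ x, ex m x * TT B W G al ali gx gu e ei c bx bu bxi d di k m x ∂mu = 0) :
    B * dx d + W * du d = bx * dx al + bu * du al - (gx * dx c + gu * du c)
      - cst (1 / 2) * dx (G * dx (dx B)) := by
  have h0 := (quad_real (SP.cst 0)
    (((SP.cst 2).mul (T.hc.mul T.hei)).add (((SP.cst 2).mul (T.hd.mul T.hali)).sub
      ((SP.cst 2).mul (T.hdi.mul T.hal))))
    (((T.hc.mul T.hgx).add (T.hd.mul T.hB)).sub ((T.hal.mul T.hbx).add (T.hali.mul T.hbxi)))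
    (((T.hali.mul T.hbx).sub (T.hdi.mul T.hB)).sub (T.hal.mul T.hbxi))
    (((T.hc.mul T.hgu).add (T.hd.mul T.hW)).sub (T.hal.mul T.hbu))
    ((T.hali.mul T.hbu).sub (T.hdi.mul T.hW))
    ((SP.cst (-1)).mul (T.hal.mul T.hG)) (T.hali.mul T.hG) (fun m => by
      rw [← h 0 m]
      refine integral_congr_ae (Filter.Eventually.of_forall fun x => ?_)
      simp only [TT, conj_S21, conj_S11, conj_S22, conj_S12]
      simp only [S11, S21, S12, S22, cst, Pi.mul_apply, Pi.add_apply, Pi.sub_apply, Prod.fst_zero,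
        Prod.snd_zero, zero_add, Pi.zero_apply]
      push_cast
      linear_combination (- ex m x * (ali x : ℂ) * (m.1 : ℂ) * (bxi x : ℂ)) * I_mul_I)).2
  have z1 : dx (0 : R2 → ℝ) = 0 := dx_const 0
  have z2 : du (0 : R2 → ℝ) = 0 := du_const 0
  have f1 : cst 2 * dx ali + dx (dx B) = 0 := by
    have := congrArg dx h1
    rw [dx_add (sm_add (sm_mul (sm_cst 2) T.hali.sm) (sm_dx T.hB.sm)) (sm_du T.hW.sm),
      dx_add (sm_mul (sm_cst 2) T.hali.sm) (sm_dx T.hB.sm), dx_cst_mul _ T.hali.sm,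
      ← du_dx T.hW.sm, hWx, z1, z2, add_zero] at this
    exact this
  have f2 : cst 2 * dx (dx ali) + dx (dx (dx B)) = 0 := by
    have := congrArg dx f1
    rw [dx_add (sm_mul (sm_cst 2) (sm_dx T.hali.sm)) (sm_dx (sm_dx T.hB.sm)),
      dx_cst_mul _ (sm_dx T.hali.sm), z1] at this
    exact this
  have f3 : dx bxi + dx (dx G) = 0 := by
    have := congrArg dx h3
    rw [dx_add T.hbxi.sm (sm_dx T.hG.sm), z1] at this
    exact this
  rw [dx_sub (sm_add (sm_mul T.hc.sm T.hgx.sm) (sm_mul T.hd.sm T.hB.sm))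
      (sm_add (sm_mul T.hal.sm T.hbx.sm) (sm_mul T.hali.sm T.hbxi.sm)),
    dx_add (sm_mul T.hc.sm T.hgx.sm) (sm_mul T.hd.sm T.hB.sm),
    dx_add (sm_mul T.hal.sm T.hbx.sm) (sm_mul T.hali.sm T.hbxi.sm),
    dx_mul T.hc.sm T.hgx.sm, dx_mul T.hd.sm T.hB.sm, dx_mul T.hal.sm T.hbx.sm,
    dx_mul T.hali.sm T.hbxi.sm,
    du_sub (sm_add (sm_mul T.hc.sm T.hgu.sm) (sm_mul T.hd.sm T.hW.sm))
      (sm_mul T.hal.sm T.hbu.sm), du_add (sm_mul T.hc.sm T.hgu.sm) (sm_mul T.hd.sm T.hW.sm),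
    du_mul T.hc.sm T.hgu.sm, du_mul T.hd.sm T.hW.sm, du_mul T.hal.sm T.hbu.sm,
    dx_mul T.hali.sm T.hG.sm,
    dx_add (sm_mul (sm_dx T.hali.sm) T.hG.sm) (sm_mul T.hali.sm (sm_dx T.hG.sm)),
    dx_mul (sm_dx T.hali.sm) T.hG.sm, dx_mul T.hali.sm (sm_dx T.hG.sm)] at h0
  rw [dx_mul T.hG.sm (sm_dx (sm_dx T.hB.sm))]
  funext x
  have a0 := congrFun h0 x
  have a1 := congrFun h1 x
  have a2 := congrFun h2 x
  have a3 := congrFun h3 x
  have a4 := congrFun h4 x
  have b1 := congrFun f1 x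
  have b2 := congrFun f2 x
  have b3 := congrFun f3 x
  simp [cst] at a0 a1 a2 a3 a4 b1 b2 b3 ⊢
  linear_combination a0 - c x * a4 - d x * a1 + al x * a2 + dx ali x * a3 + ali x * b3
    + (1 / 2) * dx G x * b1 + (1 / 2) * G x * b2

end ident

end Pool.H98.EQ
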