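import Mathlib

/-!
Partial derivatives of functions on the plane and the calculus of homogeneous Taylor components
at the origin.
-/

open scoped ContDiff
open Polynomial

noncomputable section

namespace Pool.H98.EQ

abbrev RR := ℝ × ℝ

/-- partial derivative in the first variable -/
def dx {F : Type*} [NormedAddCommGroup F] [NormedSpace ℝ F] (f : RR → F) : RR → F :=
  fun p => fderiv ℝ f p (1, 0)

/-- partial derivative in the second variable -/
def du {F : Type*} [NormedAddCommGroup F] [NormedSpace ℝ F] (f : RR → F) : RR → F :=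
  fun p => fderiv ℝ f p (0, 1)

section gen
variable {F : Type*} [NormedAddCommGroup F] [NormedSpace ℝ F]

theorem sm_diff {f : RR → F} (hf : ContDiff ℝ ∞ f) : Differentiable ℝ f :=
  hf.differentiable (by simp)

theorem sm_dx {f : RR → F} (hf : ContDiff ℝ ∞ f) : ContDiff ℝ ∞ (dx f) :=
  (hf.fderiv_right (m := ∞) (by simp)).clm_apply contDiff_const

theorem sm_du {f : RR → F} (hf : ContDiff ℝ ∞ f) : ContDiff ℝ ∞ (du f) :=
  (hf.fderiv_right (m := ∞) (by simp)).clm_apply contDiff_const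

theorem sm_add {f g : RR → F} (hf : ContDiff ℝ ∞ f) (hg : ContDiff ℝ ∞ g) :
    ContDiff ℝ ∞ (f + g) := hf.add hg

theorem sm_sub {f g : RR → F} (hf : ContDiff ℝ ∞ f) (hg : ContDiff ℝ ∞ g) :
    ContDiff ℝ ∞ (f - g) := hf.sub hg

theorem sm_neg {f : RR → F} (hf : ContDiff ℝ ∞ f) : ContDiff ℝ ∞ (-f) := hf.neg

theorem dx_add {f g : RR → F} (hf : ContDiff ℝ ∞ f) (hg : ContDiff ℝ ∞ g) :
    dx (f + g) = dx f + dx g := by
  funext p
  simp only [dx, Pi.add_apply]
  rw [fderiv_add (sm_diff hf p) (sm_diff hg p)]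
  rfl

theorem du_add {f g : RR → F} (hf : ContDiff ℝ ∞ f) (hg : ContDiff ℝ ∞ g) :
    du (f + g) = du f + du g := by
  funext p
  simp only [du, Pi.add_apply]
  rw [fderiv_add (sm_diff hf p) (sm_diff hg p)]
  rfl

theorem dx_sub {f g : RR → F} (hf : ContDiff ℝ ∞ f) (hg : ContDiff ℝ ∞ g) :
    dx (f - g) = dx f - dx g := by
  funext p
  simp only [dx, Pi.sub_apply]
  rw [fderiv_sub (sm_diff hf p) (sm_diff hg p)]
  rfl

theorem du_sub {f g : RR → F} (hf : ContDiff ℝ ∞ f) (hg : ContDiff ℝ ∞ g) :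
    du (f - g) = du f - du g := by
  funext p
  simp only [du, Pi.sub_apply]
  rw [fderiv_sub (sm_diff hf p) (sm_diff hg p)]
  rfl

theorem dx_neg {f : RR → F} : dx (-f) = -dx f := by
  funext p
  simp only [dx, Pi.neg_apply]
  rw [fderiv_neg]
  rfl

theorem du_neg {f : RR → F} : du (-f) = -du f := by
  funext p
  simp only [du, Pi.neg_apply]
  rw [fderiv_neg]
  rfl

theorem dx_const (c : F) : dx (fun _ : RR => c) = fun _ => 0 := by
  funext p; simp [dx]

theorem du_const (c : F) : du (fun _ : RR => c) = fun _ => 0 := by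
  funext p; simp [du]

theorem du_dx {f : RR → F} (hf : ContDiff ℝ ∞ f) : du (dx f) = dx (du f) := by
  funext p
  have hs : IsSymmSndFDerivAt ℝ f p := by
    apply ContDiffAt.isSymmSndFDerivAt hf.contDiffAt
    simp only [minSmoothness_of_isRCLikeNormedField]
    exact WithTop.coe_le_coe.2 le_top
  have h1 : ∀ v w : RR, fderiv ℝ (fun q => fderiv ℝ f q v) p w = fderiv ℝ (fderiv ℝ f) p w v := by
    intro v w
    have hd : DifferentiableAt ℝ (fderiv ℝ f) p :=
      ((hf.fderiv_right (m := ∞) (by simp)).differentiable (by simp)) p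
    have h2 := hd.hasFDerivAt.clm_apply (hasFDerivAt_const v p)
    rw [h2.fderiv]
    simp
  show fderiv ℝ (fun q => fderiv ℝ f q (1, 0)) p (0, 1) = fderiv ℝ (fun q => fderiv ℝ f q (0, 1)) p (1, 0)
  rw [h1, h1]
  exact hs _ _

end gen

section alg
variable {A : Type*} [NormedRing A] [NormedAlgebra ℝ A]

theorem sm_mul {f g : RR → A} (hf : ContDiff ℝ ∞ f) (hg : ContDiff ℝ ∞ g) :
    ContDiff ℝ ∞ (f * g) := hf.mul hg

theorem dx_mul {f g : RR → A} (hf : ContDiff ℝ ∞ f) (hg : ContDiff ℝ ∞ g) :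
    dx (f * g) = dx f * g + f * dx g := by
  funext p
  simp only [dx, Pi.add_apply, Pi.mul_apply]
  have h := (sm_diff hf p).hasFDerivAt.mul' (sm_diff hg p).hasFDerivAt
  rw [h.fderiv]
  simp [add_comm]

theorem du_mul {f g : RR → A} (hf : ContDiff ℝ ∞ f) (hg : ContDiff ℝ ∞ g) :
    du (f * g) = du f * g + f * du g := by
  funext p
  simp only [du, Pi.add_apply, Pi.mul_apply]
  have h := (sm_diff hf p).hasFDerivAt.mul' (sm_diff hg p).hasFDerivAt
  rw [h.fderiv]
  simp [add_comm]

end alg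

/-- `hc n f` is the polynomial `f_n(X, 1)`, where `f_n` is the homogeneous component of degree `n`
of the Taylor expansion of `f` at the origin. -/
def hc : ℕ → (RR → ℝ) → ℝ[X]
  | 0, f => C (f 0)
  | (n + 1), f => C (1 / ((n : ℝ) + 1)) * (X * hc n (dx f) + hc n (du f))

theorem hc_zero (f : RR → ℝ) : hc 0 f = C (f 0) := rfl

theorem hc_succ (n : ℕ) (f : RR → ℝ) :
    hc (n + 1) f = C (1 / ((n : ℝ) + 1)) * (X * hc n (dx f) + hc n (du f)) := rfl

theorem hc_succ' (n : ℕ) (f : RR → ℝ) :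
    C ((n : ℝ) + 1) * hc (n + 1) f = X * hc n (dx f) + hc n (du f) := by
  rw [hc_succ, ← mul_assoc, ← C_mul]
  have : ((n : ℝ) + 1) * (1 / ((n : ℝ) + 1)) = 1 := by
    have : (n : ℝ) + 1 ≠ 0 := by positivity
    field_simp
  rw [this, C_1, one_mul]

theorem hc_add (n : ℕ) : ∀ {f g : RR → ℝ}, ContDiff ℝ ∞ f → ContDiff ℝ ∞ g →
    hc n (f + g) = hc n f + hc n g := by
  induction n with
  | zero => intro f g _ _; simp [hc_zero]
  | succ n ih =>
    intro f g hf hg
    rw [hc_succ, hc_succ, hc_succ, dx_add hf hg, du_add hf hg, ih (sm_dx hf) (sm_dx hg),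
      ih (sm_du hf) (sm_du hg)]
    ring

theorem hc_neg (n : ℕ) : ∀ {f : RR → ℝ}, hc n (-f) = - hc n f := by
  induction n with
  | zero => intro f; simp [hc_zero]
  | succ n ih =>
    intro f
    rw [hc_succ, hc_succ, dx_neg, du_neg, ih, ih]
    ring

theorem hc_sub (n : ℕ) {f g : RR → ℝ} (hf : ContDiff ℝ ∞ f) (hg : ContDiff ℝ ∞ g) :
    hc n (f - g) = hc n f - hc n g := by
  have h1 : ContDiff ℝ ∞ (-g) := hg.neg
  rw [sub_eq_add_neg, hc_add n hf h1, hc_neg, sub_eq_add_neg]

theorem hc_const_succ (n : ℕ) (c : ℝ) : hc (n + 1) (fun _ => c) = 0 := by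
  induction n generalizing c with
  | zero =>
    rw [hc_succ, dx_const, du_const]; simp [hc_zero]
  | succ n ih =>
    rw [hc_succ, dx_const, du_const, ih]; simp

theorem hc_dx (n : ℕ) : ∀ {f : RR → ℝ}, ContDiff ℝ ∞ f →
    hc n (dx f) = derivative (hc (n + 1) f) := by
  induction n with
  | zero =>
    intro f hf
    rw [hc_succ]
    simp only [hc_zero, derivative_mul, derivative_C, zero_mul, zero_add, derivative_add,
      derivative_X, one_mul, mul_zero, add_zero]
    simp
  | succ n ih =>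
    intro f hf
    rw [hc_succ (n + 1) f]
    have e1 := ih (sm_dx hf)
    have e2 := ih (sm_du hf)
    rw [derivative_mul, derivative_C, zero_mul, zero_add, derivative_add, derivative_mul,
      derivative_X, one_mul, ← e1, ← e2, ← du_dx hf]
    have e3 := hc_succ' n (dx f)
    have e4 : hc (n + 1) (dx f) + X * hc n (dx (dx f)) + hc n (du (dx f))
        = C ((n : ℝ) + 2) * hc (n + 1) (dx f) := by
      have : (C ((n : ℝ) + 2) : ℝ[X]) = C ((n : ℝ) + 1) + 1 := by
        rw [← C_1, ← C_add]; congr 1; ring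
      rw [this, add_mul, e3]; ring
    rw [e4, ← mul_assoc, ← C_mul]
    have : (1 / (((n + 1 : ℕ) : ℝ) + 1)) * ((n : ℝ) + 2) = 1 := by
      have : (n : ℝ) + 2 ≠ 0 := by positivity
      push_cast
      have : (n : ℝ) + 1 + 1 ≠ 0 := by positivity
      field_simp
      ring
    rw [this, C_1, one_mul]

theorem hc_du (n : ℕ) {f : RR → ℝ} (hf : ContDiff ℝ ∞ f) :
    hc n (du f) = C ((n : ℝ) + 1) * hc (n + 1) f - X * derivative (hc (n + 1) f) := by
  rw [hc_succ', hc_dx n hf]; ring

theorem hc_mul (n : ℕ) : ∀ {f g : RR → ℝ}, ContDiff ℝ ∞ f → ContDiff ℝ ∞ g →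
    hc n (f * g) = ∑ p ∈ Finset.HasAntidiagonal.antidiagonal n, hc p.1 f * hc p.2 g := by
  induction n with
  | zero => intro f g _ _; simp [hc_zero]
  | succ n ih =>
    intro f g hf hg
    have hinj : Function.Injective (fun q : ℝ[X] => C ((n : ℝ) + 1) * q) := by
      intro a b hab
      have h0 : (C ((n : ℝ) + 1) : ℝ[X]) ≠ 0 := by
        rw [Ne, C_eq_zero]; positivity
      exact mul_left_cancel₀ h0 hab
    apply hinj
    show C ((n : ℝ) + 1) * hc (n + 1) (f * g) = C ((n : ℝ) + 1) * _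
    rw [hc_succ', dx_mul hf hg, du_mul hf hg,
      hc_add n (sm_mul (sm_dx hf) hg) (sm_mul hf (sm_dx hg)),
      hc_add n (sm_mul (sm_du hf) hg) (sm_mul hf (sm_du hg)),
      ih (sm_dx hf) hg, ih hf (sm_dx hg), ih (sm_du hf) hg, ih hf (sm_du hg)]
    -- combine
    have e1 : X * (∑ p ∈ Finset.HasAntidiagonal.antidiagonal n, hc p.1 (dx f) * hc p.2 g
          + ∑ p ∈ Finset.HasAntidiagonal.antidiagonal n, hc p.1 f * hc p.2 (dx g))
        + (∑ p ∈ Finset.HasAntidiagonal.antidiagonal n, hc p.1 (du f) * hc p.2 g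
          + ∑ p ∈ Finset.HasAntidiagonal.antidiagonal n, hc p.1 f * hc p.2 (du g))
        = ∑ p ∈ Finset.HasAntidiagonal.antidiagonal n, C ((p.1 : ℝ) + 1) * hc (p.1 + 1) f * hc p.2 g
          + ∑ p ∈ Finset.HasAntidiagonal.antidiagonal n, C ((p.2 : ℝ) + 1) * hc p.1 f * hc (p.2 + 1) g := by
      rw [mul_add, Finset.mul_sum, Finset.mul_sum]
      rw [show ∀ a b c d : ℝ[X], a + b + (c + d) = (a + c) + (b + d) by intros; ring]
      rw [← Finset.sum_add_distrib, ← Finset.sum_add_distrib]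
      congr 1
      · refine Finset.sum_congr rfl fun p _ => ?_
        rw [hc_succ']; ring
      · refine Finset.sum_congr rfl fun p _ => ?_
        have := hc_succ' p.2 g
        rw [show C ((p.2 : ℝ) + 1) * hc p.1 f * hc (p.2 + 1) g
          = hc p.1 f * (C ((p.2 : ℝ) + 1) * hc (p.2 + 1) g) by ring, this]
        ring
    rw [e1]
    -- total
    have e2 : C ((n : ℝ) + 1) * ∑ p ∈ Finset.HasAntidiagonal.antidiagonal (n + 1), hc p.1 f * hc p.2 g
        = ∑ p ∈ Finset.HasAntidiagonal.antidiagonal (n + 1), C (p.1 : ℝ) * hc p.1 f * hc p.2 g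
          + ∑ p ∈ Finset.HasAntidiagonal.antidiagonal (n + 1), C (p.2 : ℝ) * hc p.1 f * hc p.2 g := by
      rw [Finset.mul_sum, ← Finset.sum_add_distrib]
      refine Finset.sum_congr rfl fun p hp => ?_
      have hp' := Finset.HasAntidiagonal.mem_antidiagonal.1 hp
      have : (C ((n : ℝ) + 1) : ℝ[X]) = C (p.1 : ℝ) + C (p.2 : ℝ) := by
        rw [← C_add]; congr 1; exact_mod_cast hp'.symm
      rw [this]; ring
    rw [e2]
    congr 1
    · rw [Finset.Nat.antidiagonal_succ]
      rw [Finset.sum_cons]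
      simp only [Finset.sum_map, Function.Embedding.prodMap, Function.Embedding.coeFn_mk,
        Prod.map, Nat.succ_eq_add_one, Function.Embedding.refl_apply]
      simp
    · rw [Finset.Nat.antidiagonal_succ']
      rw [Finset.sum_cons]
      simp only [Finset.sum_map, Function.Embedding.prodMap, Function.Embedding.coeFn_mk,
        Prod.map, Nat.succ_eq_add_one, Function.Embedding.refl_apply]
      simp

theorem natDegree_hc_le (n : ℕ) : ∀ f : RR → ℝ, (hc n f).natDegree ≤ n := by
  induction n with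
  | zero => intro f; simp [hc_zero]
  | succ n ih =>
    intro f
    rw [hc_succ]
    refine (natDegree_C_mul_le _ _).trans ?_
    refine (natDegree_add_le _ _).trans ?_
    refine max_le ?_ ((ih _).trans (Nat.le_succ n))
    refine natDegree_mul_le.trans ?_
    have := ih (dx f)
    rw [natDegree_X]; omega

attribute [irreducible] hc

end Pool.H98.EQ
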