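import Pool.Agent.H98.EQ.Defs

/-!
Strong commutation of the self-adjoint closures gives the weak commutation relation on smooth
functions.
-/

open MeasureTheory Complex
open scoped ContDiff InnerProductSpace

noncomputable section

namespace Pool.H98.EQ

/-- `L²(T²)` -/
abbrev H := Lp ℂ 2 mu

theorem IsSm.add {u v : R2 → ℂ} (hu : IsSm u) (hv : IsSm v) : IsSm (fun x => u x + v x) :=
  ⟨hu.1.add hv.1, fun x => ⟨by simp only [(hu.2 x).1, (hv.2 x).1],
    by simp only [(hu.2 x).2, (hv.2 x).2]⟩⟩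

theorem IsSm.smul {u : R2 → ℂ} (c : ℂ) (hu : IsSm u) : IsSm (fun x => c * u x) :=
  ⟨contDiff_const.mul hu.1, fun x => ⟨by simp only [(hu.2 x).1], by simp only [(hu.2 x).2]⟩⟩

theorem memLp_of {u : R2 → ℂ} (hu : IsSm u) : MemLp u 2 mu := by
  have hc : Continuous u := hu.1.continuous
  have hfin : IsFiniteMeasure mu := by
    constructor
    simp only [mu, Measure.restrict_apply MeasurableSet.univ, Set.univ_inter]
    rw [Measure.volume_eq_prod, Measure.prod_prod]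
    simp [ENNReal.mul_lt_top_iff]
  obtain ⟨C, hC⟩ := (isCompact_Icc.prod isCompact_Icc :
    IsCompact (Set.Icc (0:ℝ) (2 * Real.pi) ×ˢ Set.Icc (0:ℝ) (2 * Real.pi))).exists_bound_of_continuousOn
      hc.continuousOn
  refine MemLp.of_bound hc.aestronglyMeasurable C ?_
  rw [mu, ae_restrict_iff' (by measurability)]
  refine Filter.Eventually.of_forall fun x hx => hC x ?_
  exact ⟨⟨hx.1.1.le, hx.1.2⟩, ⟨hx.2.1.le, hx.2.2⟩⟩

/-- the class in `L²` of a smooth function -/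
def cl {u : R2 → ℂ} (hu : IsSm u) : H := (memLp_of hu).toLp u

theorem cl_coe {u : R2 → ℂ} (hu : IsSm u) : (cl hu : R2 → ℂ) =ᵐ[mu] u := (memLp_of hu).coeFn_toLp

theorem inner_cl {u v : R2 → ℂ} (hu : IsSm u) (hv : IsSm v) : ⟪cl hu, cl hv⟫_ℂ = ip u v := by
  rw [L2.inner_def, ip]
  refine integral_congr_ae ?_
  filter_upwards [cl_coe hu, cl_coe hv] with x e1 e2
  rw [e1, e2]
  simp [mul_comm]

theorem cl_add {u v : R2 → ℂ} (hu : IsSm u) (hv : IsSm v) :
    cl (hu.add hv) = cl hu + cl hv := by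
  apply Lp.ext
  filter_upwards [cl_coe hu, cl_coe hv, cl_coe (hu.add hv), Lp.coeFn_add (cl hu) (cl hv)] with
    x e1 e2 e3 e4
  rw [e3, e4, Pi.add_apply, e1, e2]

theorem cl_smul {u : R2 → ℂ} (c : ℂ) (hu : IsSm u) : cl (hu.smul c) = c • cl hu := by
  apply Lp.ext
  filter_upwards [cl_coe hu, cl_coe (hu.smul c), Lp.coeFn_smul c (cl hu)] with x e1 e3 e4
  rw [e3, e4, Pi.smul_apply, e1, smul_eq_mul]

theorem cl_congr {u v : R2 → ℂ} (hu : IsSm u) (hv : IsSm v) (h : u = v) : cl hu = cl hv := by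
  subst h; rfl

/-- linear operators preserving smooth periodic functions -/
structure LinOp (P : (R2 → ℂ) → R2 → ℂ) : Prop where
  sm : ∀ {u}, IsSm u → IsSm (P u)
  lin : ∀ {u v} (c : ℂ), IsSm u → IsSm v →
    P (fun x => u x + c * v x) = fun x => P u x + c * P v x

/-- a Lipschitz map on square-integrable functions, as a map of `L²` -/
def lift (R : (R2 → ℂ) → R2 → ℂ) (h : ∀ f, MemLp f 2 mu → MemLp (R f) 2 mu) (f : H) : H :=
  (h f (Lp.memLp f)).toLp (R f)

theorem lift_coe (R : (R2 → ℂ) → R2 → ℂ) (h : ∀ f, MemLp f 2 mu → MemLp (R f) 2 mu) (f : H) :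
    (lift R h f : R2 → ℂ) =ᵐ[mu] R f := (h f (Lp.memLp f)).coeFn_toLp

/-- the Lipschitz bound makes `R` well defined on classes -/
theorem res_congr {P R : (R2 → ℂ) → R2 → ℂ} (hR : IsResolvent P R) {f g : R2 → ℂ}
    (hf : MemLp f 2 mu) (hg : MemLp g 2 mu) (h : f =ᵐ[mu] g) : R f =ᵐ[mu] R g := by
  obtain ⟨hm, ⟨C, hC⟩, _⟩ := hR
  have h1 := hC f g hf hg
  have h2 : eLpNorm (fun x => f x - g x) 2 mu = 0 := by
    have : (fun x => f x - g x) =ᵐ[mu] fun _ => 0 := by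
      filter_upwards [h] with x hx
      rw [hx, sub_self]
    rw [eLpNorm_congr_ae this]
    simp
  rw [h2, mul_zero] at h1
  have h3 : eLpNorm (R f - R g) 2 mu = 0 := le_antisymm h1 bot_le
  rw [eLpNorm_eq_zero_iff ((hm f hf).sub (hm g hg)).aestronglyMeasurable (by norm_num)] at h3
  filter_upwards [h3] with x hx
  exact sub_eq_zero.1 hx

theorem lift_cont {P R : (R2 → ℂ) → R2 → ℂ} (hR : IsResolvent P R) :
    Continuous (lift R hR.1) := by
  obtain ⟨C, hC⟩ := hR.2.1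
  have : LipschitzWith (Real.toNNReal C) (lift R hR.1) := by
    intro f g
    rw [Lp.edist_def, Lp.edist_def]
    have e1 : eLpNorm ((lift R hR.1 f : R2 → ℂ) - (lift R hR.1 g : R2 → ℂ)) 2 mu
        = eLpNorm (fun x => R f x - R g x) 2 mu := by
      apply eLpNorm_congr_ae
      filter_upwards [lift_coe R hR.1 f, lift_coe R hR.1 g] with x h1 h2
      rw [Pi.sub_apply, h1, h2]
    rw [e1]
    exact hC f g (Lp.memLp f) (Lp.memLp g)
  exact this.continuous

theorem resolvent_cl {P : (R2 → ℂ) → R2 → ℂ} (hL : LinOp P) {R : (R2 → ℂ) → R2 → ℂ}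
    (hR : IsResolvent P R) {u : R2 → ℂ} (hu : IsSm u) :
    lift R hR.1 (cl (hL.sm hu) + I • cl hu) = cl hu := by
  apply Lp.ext
  have hs : IsSm (fun x => P u x + I * u x) := (hL.sm hu).add (hu.smul I)
  have e : cl (hL.sm hu) + I • cl hu = cl hs := by rw [← cl_smul, ← cl_add]
  rw [e]
  have h1 := lift_coe R hR.1 (cl hs)
  have h2 := res_congr hR (Lp.memLp (cl hs)) (memLp_of hs) (cl_coe hs)
  filter_upwards [h1, h2, hR.2.2 u hu, cl_coe hu] with x a1 a2 a3 a4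
  rw [a1, a2, a3, a4]

theorem dense_cl {P : (R2 → ℂ) → R2 → ℂ} (hL : LinOp P) {z : ℂ} (hd : HasDenseRange P z) :
    Dense {h : H | ∃ (u : R2 → ℂ) (hu : IsSm u), h = cl (hL.sm hu) + z • cl hu} := by
  rw [Metric.dense_iff]
  intro h r hr
  obtain ⟨u, hu, hle⟩ := hd h (Lp.memLp h) (r / 2) (by positivity)
  refine ⟨cl (hL.sm hu) + z • cl hu, ?_, u, hu, rfl⟩
  rw [Metric.mem_ball, Lp.dist_def]
  have e : eLpNorm (((cl (hL.sm hu) + z • cl hu : H) : R2 → ℂ) - (h : R2 → ℂ)) 2 mu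
      = eLpNorm (fun x => P u x + z * u x - h x) 2 mu := by
    apply eLpNorm_congr_ae
    rw [← cl_smul, ← cl_add]
    filter_upwards [cl_coe ((hL.sm hu).add (hu.smul z))] with x hx
    rw [Pi.sub_apply, hx]
  rw [e]
  calc (eLpNorm (fun x => P u x + z * u x - h x) 2 mu).toReal
      ≤ (ENNReal.ofReal (r / 2)).toReal := ENNReal.toReal_mono ENNReal.ofReal_ne_top hle
    _ = r / 2 := ENNReal.toReal_ofReal (by positivity)
    _ < r := by linarith

theorem resolvent_adj {P : (R2 → ℂ) → R2 → ℂ} (hL : LinOp P) (hS : IsSymm P)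
    (hd : HasDenseRange P I) {R : (R2 → ℂ) → R2 → ℂ}
    (hR : IsResolvent P R) {g : R2 → ℂ} (hg : IsSm g) (h : H) :
    ⟪lift R hR.1 h, cl (hL.sm hg) - I • cl hg⟫_ℂ = ⟪h, cl hg⟫_ℂ := by
  have hcont := lift_cont hR
  have hc : Set.EqOn (fun h : H => ⟪lift R hR.1 h, cl (hL.sm hg) - I • cl hg⟫_ℂ)
      (fun h : H => ⟪h, cl hg⟫_ℂ)
      {h : H | ∃ (u : R2 → ℂ) (hu : IsSm u), h = cl (hL.sm hu) + I • cl hu} := by
    rintro _ ⟨u, hu, rfl⟩
    show ⟪lift R hR.1 (cl (hL.sm hu) + I • cl hu), cl (hL.sm hg) - I • cl hg⟫_ℂ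
      = ⟪cl (hL.sm hu) + I • cl hu, cl hg⟫_ℂ
    rw [resolvent_cl hL hR hu, inner_sub_right, inner_add_left, inner_smul_left, inner_smul_right,
      inner_cl hu (hL.sm hg), inner_cl (hL.sm hu) hg, hS u g hu hg]
    simp
    ring
  have := Continuous.ext_on (dense_cl hL hd) (by fun_prop) (by fun_prop) hc
  exact congrFun this h

/-- weak commutation on smooth functions -/
theorem weak_comm {P Q : (R2 → ℂ) → R2 → ℂ} (hLP : LinOp P) (hLQ : LinOp Q) (hP : IsEssSA P)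
    (hQ : IsEssSA Q) (hPQ : StronglyCommute P Q) {u v : R2 → ℂ} (hu : IsSm u) (hv : IsSm v) :
    ip (Q u) (P v) = ip (P u) (Q v) := by
  obtain ⟨R, S, hR, hS, hRS⟩ := hPQ
  have hRS' : ∀ h : H, lift R hR.1 (lift S hS.1 h) = lift S hS.1 (lift R hR.1 h) := by
    intro h
    apply Lp.ext
    have a1 := lift_coe R hR.1 (lift S hS.1 h)
    have a2 := lift_coe S hS.1 (lift R hR.1 h)
    have a3 := res_congr hR (Lp.memLp (lift S hS.1 h)) (hS.1 h (Lp.memLp h)) (lift_coe S hS.1 h)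
    have a4 := res_congr hS (Lp.memLp (lift R hR.1 h)) (hR.1 h (Lp.memLp h)) (lift_coe R hR.1 h)
    filter_upwards [a1, a2, a3, a4, hRS h (Lp.memLp h)] with x b1 b2 b3 b4 b5
    rw [b1, b3, b5, ← b4, ← b2]
  have sPu := hLP.sm hu
  have sQu := hLQ.sm hu
  have sPQu := hLP.sm sQu
  have sQPu := hLQ.sm sPu
  -- `(P + i)(Q + i) u` and `(Q + i)(P + i) u`
  have sA : IsSm (fun x => Q u x + I * u x) := sQu.add (hu.smul I)
  have sB : IsSm (fun x => P u x + I * u x) := sPu.add (hu.smul I)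
  have eA : cl sA = cl sQu + I • cl hu := by rw [← cl_smul, ← cl_add]
  have eB : cl sB = cl sPu + I • cl hu := by rw [← cl_smul, ← cl_add]
  have ePA : cl (hLP.sm sA) = cl sPQu + I • cl sPu := by
    rw [← cl_smul, ← cl_add]
    exact cl_congr _ _ (hLP.lin I sQu hu)
  have eQB : cl (hLQ.sm sB) = cl sQPu + I • cl sQu := by
    rw [← cl_smul, ← cl_add]
    exact cl_congr _ _ (hLQ.lin I sPu hu)
  have a1 := resolvent_cl hLP hR sA
  have a2 := resolvent_cl hLQ hS sB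
  have a3 : lift S hS.1 (cl sA) = cl hu := by rw [eA]; exact resolvent_cl hLQ hS hu
  have a4 : lift R hR.1 (cl sB) = cl hu := by rw [eB]; exact resolvent_cl hLP hR hu
  have e1 : lift R hR.1 (lift S hS.1 (cl (hLP.sm sA) + I • cl sA))
      = lift R hR.1 (lift S hS.1 (cl (hLQ.sm sB) + I • cl sB)) := by
    rw [hRS', a1, a3, a2, a4]
  -- pair with `(P - i)(Q - i) v`
  have sC : IsSm (fun x => Q v x + (-I) * v x) := (hLQ.sm hv).add (hv.smul (-I))
  have eC : cl sC = cl (hLQ.sm hv) - I • cl hv := by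
    have : cl sC = cl (hLQ.sm hv) + (-I) • cl hv := by rw [← cl_smul, ← cl_add]
    rw [this, neg_smul, sub_eq_add_neg]
  have key : ∀ h : H, ⟪lift R hR.1 (lift S hS.1 h), cl (hLP.sm sC) - I • cl sC⟫_ℂ
      = ⟪h, cl hv⟫_ℂ := by
    intro h
    rw [resolvent_adj hLP hP.1 hP.2.1 hR sC (lift S hS.1 h), eC,
      resolvent_adj hLQ hQ.1 hQ.2.1 hS hv h]
  have k1 := key (cl (hLP.sm sA) + I • cl sA)
  have k2 := key (cl (hLQ.sm sB) + I • cl sB)
  rw [e1] at k1
  have e2 := k1.symm.trans k2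
  rw [ePA, eQB, eA, eB] at e2
  simp only [inner_add_left, inner_smul_left, inner_cl sPQu hv, inner_cl sQPu hv, inner_cl sPu hv,
    inner_cl sQu hv, inner_cl hu hv, smul_add] at e2
  rw [hP.1 (Q u) v sQu hv, hQ.1 (P u) v sPu hv] at e2
  linear_combination e2

end Pool.H98.EQ
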