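import Pool.Agent.H98.EQ.Ident2
import Pool.Agent.H98.EQ.Expand2
import Pool.Agent.H98.EQ.Germ
import Pool.Agent.H98.EQ.Strong

/-!
Assembly: the classical system of `Sys.lean` has no exact quantisation.
-/

open MeasureTheory Complex
open scoped ContDiff InnerProductSpace

noncomputable section

namespace Pool.H98.EQ

theorem SP_W : SP Wf where
  sm := sm_Wf
  per := fun x => ⟨rfl, by simp only [Wf, Real.sin_add_two_pi]⟩

theorem Qf_per : IsPer Qf := by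
  intro x
  constructor
  · simp only [Qf]
    have h : (x.1 + 2 * Real.pi) / 2 = x.1 / 2 + Real.pi := by ring
    rw [h, Real.sin_add_pi, Real.cos_add_pi]
    unfold Qp; ring
  · simp only [Qf, Real.sin_add_two_pi]

theorem SP_B : SP Bf where
  sm := sm_Bf
  per := by
    intro x
    constructor
    · simp only [Bf, (Qf_per x).1]
      have h : (x.1 + 2 * Real.pi) / 2 = x.1 / 2 + Real.pi := by ring
      rw [h, Real.sin_add_pi, Real.cos_add_pi]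
      unfold bp; ring
    · simp only [Bf, (Qf_per x).2, Real.sin_add_two_pi, Real.cos_add_two_pi]

theorem SP_G : SP Gf where
  sm := sm_Gf
  per := by
    intro x
    constructor
    · simp only [Gf, (Qf_per x).1]
      have h : (x.1 + 2 * Real.pi) / 2 = x.1 / 2 + Real.pi := by ring
      rw [h, Real.sin_add_pi, Real.cos_add_pi]
      unfold gp; ring
    · simp only [Gf, (Qf_per x).2, Real.sin_add_two_pi]

/-- the contradiction from the integral identities -/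
theorem abstract_contra {al ali gx gu gxi gui e ei c ci bx bu bxi bui d di : R2 → ℝ}
    (T : Tested Bf Wf Gf al ali gx gu gxi gui e ei c ci bx bu bxi bui d di)
    (hs1 : ∀ k m : ℤ × ℤ, ∫ x, ex m x * ((starRingEnd ℂ) (S11 Bf Wf al ali k x)
      - S11 Bf Wf al ali (k + m) x) ∂mu = 0)
    (hs2 : ∀ k m : ℤ × ℤ, ∫ x, ex m x * ((starRingEnd ℂ) (S12 gx gu gxi gui e ei k x)
      - S12 gx gu gxi gui e ei (k + m) x) ∂mu = 0)
    (hs3 : ∀ k m : ℤ × ℤ, ∫ x, ex m x * ((starRingEnd ℂ) (S21 c ci k x)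
      - S21 c ci (k + m) x) ∂mu = 0)
    (hs4 : ∀ k m : ℤ × ℤ, ∫ x, ex m x * ((starRingEnd ℂ) (S22 Gf bx bu bxi bui d di k x)
      - S22 Gf bx bu bxi bui d di (k + m) x) ∂mu = 0)
    (hc2 : ∀ k m : ℤ × ℤ, ∫ x, ex m x * ((starRingEnd ℂ) (S21 c ci k x)
        * S11 Bf Wf al ali (k + m) x
      - (starRingEnd ℂ) (S11 Bf Wf al ali k x) * S21 c ci (k + m) x) ∂mu = 0)
    (hc3 : ∀ k m : ℤ × ℤ, ∫ x, ex m x * (((starRingEnd ℂ) (S21 c ci k x)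
          * S12 gx gu gxi gui e ei (k + m) x
        + (starRingEnd ℂ) (S22 Gf bx bu bxi bui d di k x) * S11 Bf Wf al ali (k + m) x)
      - ((starRingEnd ℂ) (S11 Bf Wf al ali k x) * S22 Gf bx bu bxi bui d di (k + m) x
        + (starRingEnd ℂ) (S12 gx gu gxi gui e ei k x) * S21 c ci (k + m) x)) ∂mu = 0) : False := by
  have h1 := id_s1 T hs1
  obtain ⟨rfl, rfl, h4⟩ := id_s2 T hs2
  obtain rfl := id_s3 T hs3
  obtain ⟨h3, rfl, h2⟩ := id_s4 T hs4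
  have hc3' : ∀ k m : ℤ × ℤ, ∫ x, ex m x * TT Bf Wf Gf al ali gx gu e ei c bx bu bxi d di k m x ∂mu
      = 0 := hc3
  have e0 := id_c2 T h1 hc2
  have e1 := id_c3u T dx_Wf h1 h2 hc3'
  have e2 := id_c3x T h1 h2 h3 hc3'
  have e3 := id_c30 T dx_Wf h1 h2 h3 h4 hc3'
  exact local_obstruction lead_WB dx_Wf sm_Gf LP_G.low LP_G.lead T.hc.sm T.hal.sm T.hd.sm
    T.hbx.sm T.hbu.sm T.hgx.sm T.hgu.sm e0 e1 e2 e3

/-- the classical system -/
def p₁ (x ξ : R2) : ℝ := Wf x * ξ.2 + Bf x * ξ.1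
def p₂ (x ξ : R2) : ℝ := Gf x * ξ.1 ^ 2

/-- integer frequency as a real covector -/
def kr (k : ℤ × ℤ) : R2 := ((k.1 : ℝ), (k.2 : ℝ))

theorem fd_split (A : R2 × R2 → ℂ) (k : ℤ × ℤ) (z : R2 × R2) :
    fd A (kr k) z = fd A (1, 0) z * k.1 + fd A (0, 1) z * k.2 := by
  have : ((0, kr k) : R2 × R2) = (k.1 : ℝ) • ((0, (1, 0)) : R2 × R2)
      + (k.2 : ℝ) • ((0, (0, 1)) : R2 × R2) := by
    ext <;> simp [kr]
  unfold fd
  rw [this, map_add, map_smul, map_smul, Complex.real_smul, Complex.real_smul]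
  push_cast
  ring

theorem SP_re {f : R2 → ℂ} (hf : ContDiff ℝ ∞ f) (hp : IsPer f) : SP (fun x => (f x).re) where
  sm := Complex.reCLM.contDiff.comp hf
  per := fun x => ⟨congrArg Complex.re (hp x).1, congrArg Complex.re (hp x).2⟩

theorem SP_im {f : R2 → ℂ} (hf : ContDiff ℝ ∞ f) (hp : IsPer f) : SP (fun x => (f x).im) where
  sm := Complex.imCLM.contDiff.comp hf
  per := fun x => ⟨congrArg Complex.im (hp x).1, congrArg Complex.im (hp x).2⟩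

theorem re_im (z : ℂ) : (z.re : ℂ) + I * (z.im : ℂ) = z := by
  rw [mul_comm]; exact Complex.re_add_im z

theorem sm_zero_sec {A : R2 × R2 → ℂ} (hA : ContDiff ℝ ∞ A) : ContDiff ℝ ∞ (fun x => A (x, 0)) :=
  hA.comp (by fun_prop)

theorem per_fd {A : R2 × R2 → ℂ} (hp : ∀ ξ, IsPer (fun x => A (x, ξ))) (κ : R2) :
    IsPer (fun x => fd A κ (x, 0)) := by
  intro x
  have h1 : (fun z : R2 × R2 => A (z + ((2 * Real.pi, 0), 0))) = A := by
    funext z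
    have := (hp z.2 z.1).1
    convert this using 2
    ext <;> simp
  have h2 : (fun z : R2 × R2 => A (z + ((0, 2 * Real.pi), 0))) = A := by
    funext z
    have := (hp z.2 z.1).2
    convert this using 2
    ext <;> simp
  have e1 : (((x.1 + 2 * Real.pi, x.2), 0) : R2 × R2) = (x, 0) + ((2 * Real.pi, 0), 0) := by
    ext <;> simp
  have e2 : (((x.1, x.2 + 2 * Real.pi), 0) : R2 × R2) = (x, 0) + ((0, 2 * Real.pi), 0) := by
    ext <;> simp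
  constructor
  · simp only [fd]
    rw [e1]
    conv_rhs => rw [← h1]
    rw [fderiv_comp_add_right]
  · simp only [fd]
    rw [e2]
    conv_rhs => rw [← h2]
    rw [fderiv_comp_add_right]

theorem no_quantisation : ¬ HasWeakQuantisation p₁ p₂ := by
  rintro ⟨ħ₀, m₁, m₂, σ₁, σ₂, a₁, a₂, P₁, P₂, h0, E₁, E₂, q1, q2, hP, hcom⟩
  -- smooth data
  have sA1 : ContDiff ℝ ∞ (fun z : R2 × R2 => a₁ 1 z.1 z.2) := (E₁.sym 1).smooth
  have sA2 : ContDiff ℝ ∞ (fun z : R2 × R2 => a₂ 1 z.1 z.2) := (E₂.sym 1).smooth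
  have sC1 : ContDiff ℝ ∞ (fun z : R2 × R2 => a₁ 2 z.1 z.2) := (E₁.sym 2).smooth
  have sC2 : ContDiff ℝ ∞ (fun z : R2 × R2 => a₂ 2 z.1 z.2) := (E₂.sym 2).smooth
  have pA1 : ∀ κ, IsPer (fun x => fd (fun z : R2 × R2 => a₁ 1 z.1 z.2) κ (x, 0)) :=
    per_fd (fun ξ => (E₁.sym 1).per ξ)
  have pA2 : ∀ κ, IsPer (fun x => fd (fun z : R2 × R2 => a₂ 1 z.1 z.2) κ (x, 0)) :=
    per_fd (fun ξ => (E₂.sym 1).per ξ)
  have T : Tested Bf Wf Gf (fun x => (a₁ 1 x 0).re) (fun x => (a₁ 1 x 0).im)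
      (fun x => (fd (fun z : R2 × R2 => a₁ 1 z.1 z.2) (1, 0) (x, 0)).re)
      (fun x => (fd (fun z : R2 × R2 => a₁ 1 z.1 z.2) (0, 1) (x, 0)).re)
      (fun x => (fd (fun z : R2 × R2 => a₁ 1 z.1 z.2) (1, 0) (x, 0)).im)
      (fun x => (fd (fun z : R2 × R2 => a₁ 1 z.1 z.2) (0, 1) (x, 0)).im)
      (fun x => (a₁ 2 x 0).re) (fun x => (a₁ 2 x 0).im)
      (fun x => (a₂ 1 x 0).re) (fun x => (a₂ 1 x 0).im)
      (fun x => (fd (fun z : R2 × R2 => a₂ 1 z.1 z.2) (1, 0) (x, 0)).re)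
      (fun x => (fd (fun z : R2 × R2 => a₂ 1 z.1 z.2) (0, 1) (x, 0)).re)
      (fun x => (fd (fun z : R2 × R2 => a₂ 1 z.1 z.2) (1, 0) (x, 0)).im)
      (fun x => (fd (fun z : R2 × R2 => a₂ 1 z.1 z.2) (0, 1) (x, 0)).im)
      (fun x => (a₂ 2 x 0).re) (fun x => (a₂ 2 x 0).im) :=
    { hB := SP_B
      hW := SP_W
      hG := SP_G
      hal := SP_re (sm_zero_sec sA1) ((E₁.sym 1).per 0)
      hali := SP_im (sm_zero_sec sA1) ((E₁.sym 1).per 0)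
      hgx := SP_re (sm_zero_sec (sm_fd sA1 _)) (pA1 _)
      hgu := SP_re (sm_zero_sec (sm_fd sA1 _)) (pA1 _)
      hgxi := SP_im (sm_zero_sec (sm_fd sA1 _)) (pA1 _)
      hgui := SP_im (sm_zero_sec (sm_fd sA1 _)) (pA1 _)
      he := SP_re (sm_zero_sec sC1) ((E₁.sym 2).per 0)
      hei := SP_im (sm_zero_sec sC1) ((E₁.sym 2).per 0)
      hc := SP_re (sm_zero_sec sA2) ((E₂.sym 1).per 0)
      hci := SP_im (sm_zero_sec sA2) ((E₂.sym 1).per 0)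
      hbx := SP_re (sm_zero_sec (sm_fd sA2 _)) (pA2 _)
      hbu := SP_re (sm_zero_sec (sm_fd sA2 _)) (pA2 _)
      hbxi := SP_im (sm_zero_sec (sm_fd sA2 _)) (pA2 _)
      hbui := SP_im (sm_zero_sec (sm_fd sA2 _)) (pA2 _)
      hd := SP_re (sm_zero_sec sC2) ((E₂.sym 2).per 0)
      hdi := SP_im (sm_zero_sec sC2) ((E₂.sym 2).per 0) }
  -- the expansions
  have cB := SP_B.cont
  have cW := SP_W.cont
  have cG := SP_G.cont
  have X1 : ∀ k : ℤ × ℤ, Exp2 ħ₀ (fun ħ x => σ₁ ħ x (ħ • kr k))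
      (S11 Bf Wf (fun x => (a₁ 1 x 0).re) (fun x => (a₁ 1 x 0).im) k)
      (S12 (fun x => (fd (fun z : R2 × R2 => a₁ 1 z.1 z.2) (1, 0) (x, 0)).re)
      (fun x => (fd (fun z : R2 × R2 => a₁ 1 z.1 z.2) (0, 1) (x, 0)).re)
      (fun x => (fd (fun z : R2 × R2 => a₁ 1 z.1 z.2) (1, 0) (x, 0)).im)
      (fun x => (fd (fun z : R2 × R2 => a₁ 1 z.1 z.2) (0, 1) (x, 0)).im)
      (fun x => (a₁ 2 x 0).re) (fun x => (a₁ 2 x 0).im) k) := by
    intro k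
    have h := exp2_of E₁ (kr k) (q₁ := fun x => (Bf x : ℂ) * k.1 + (Wf x : ℂ) * k.2)
      (q₂ := fun _ => 0) (by fun_prop) continuous_const (by
        intro ħ x
        rw [q1]
        simp only [p₁, kr, Prod.smul_mk, smul_eq_mul]
        push_cast
        ring)
    convert h using 1
    · funext x
      simp only [S11, re_im]
    · funext x
      simp only [S12, re_im]
      rw [fd_split]
      ring
  have X2 : ∀ k : ℤ × ℤ, Exp2 ħ₀ (fun ħ x => σ₂ ħ x (ħ • kr k))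
      (S21 (fun x => (a₂ 1 x 0).re) (fun x => (a₂ 1 x 0).im) k)
      (S22 Gf (fun x => (fd (fun z : R2 × R2 => a₂ 1 z.1 z.2) (1, 0) (x, 0)).re)
      (fun x => (fd (fun z : R2 × R2 => a₂ 1 z.1 z.2) (0, 1) (x, 0)).re)
      (fun x => (fd (fun z : R2 × R2 => a₂ 1 z.1 z.2) (1, 0) (x, 0)).im)
      (fun x => (fd (fun z : R2 × R2 => a₂ 1 z.1 z.2) (0, 1) (x, 0)).im)
      (fun x => (a₂ 2 x 0).re) (fun x => (a₂ 2 x 0).im) k) := by
    intro k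
    have h := exp2_of E₂ (kr k) (q₁ := fun _ => 0)
      (q₂ := fun x => (Gf x : ℂ) * (k.1 : ℂ) ^ 2) continuous_const (by fun_prop) (by
        intro ħ x
        rw [q2]
        simp only [p₂, kr, Prod.smul_mk, smul_eq_mul]
        push_cast
        ring)
    convert h using 1
    · funext x
      simp only [S21, re_im]
      ring
    · funext x
      simp only [S22, re_im]
      rw [fd_split]
  -- the integral identities
  have symT : ∀ {f g : ℝ → R2 → ℂ} {s₁ s₂ t₁ t₂ : R2 → ℂ} {m : ℤ × ℤ}, Exp2 ħ₀ f s₁ s₂ →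
      Exp2 ħ₀ g t₁ t₂ → (∀ ħ : ℝ, 0 < ħ → ħ ≤ ħ₀ →
        ∫ x, ex m x * ((starRingEnd ℂ) (f ħ x) - g ħ x) ∂mu = 0) →
      (∫ x, ex m x * ((starRingEnd ℂ) (s₁ x) - t₁ x) ∂mu = 0) ∧
      (∫ x, ex m x * ((starRingEnd ℂ) (s₂ x) - t₂ x) ∂mu = 0) := by
    intro f g s₁ s₂ t₁ t₂ m hf hg hz
    refine int_test h0 (n := 1) (F := fun ħ x => (starRingEnd ℂ) (f ħ x) - g ħ x)
      (fun ħ hp hle => (hf.conj.cf ħ hp hle).sub (hg.cf ħ hp hle))
      (hf.conj.c1.sub hg.c1) (hf.conj.c2.sub hg.c2) ?_ (D := 0)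
      (fun ħ hp hle => by rw [hz ħ hp hle, norm_zero, zero_mul])
    have := hf.conj.rem.sub hg.rem
    refine Eq.mp (congrArg (Ob ħ₀ 3) ?_) this
    funext ħ x
    ring
  have comT : ∀ {f g f' g' : ℝ → R2 → ℂ} {s₁ s₂ t₁ t₂ s₁' s₂' t₁' t₂' : R2 → ℂ} {m : ℤ × ℤ},
      Exp2 ħ₀ f s₁ s₂ → Exp2 ħ₀ g t₁ t₂ → Exp2 ħ₀ f' s₁' s₂' → Exp2 ħ₀ g' t₁' t₂' →
      (∃ C : ℝ, ∀ ħ : ℝ, 0 < ħ → ħ ≤ ħ₀ →
        ‖∫ x, ex m x * ((starRingEnd ℂ) (f ħ x) * g ħ x - (starRingEnd ℂ) (f' ħ x) * g' ħ x) ∂mu‖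
          ≤ C * ħ ^ 4) →
      (∫ x, ex m x * ((starRingEnd ℂ) (s₁ x) * t₁ x - (starRingEnd ℂ) (s₁' x) * t₁' x) ∂mu = 0) ∧
      (∫ x, ex m x * (((starRingEnd ℂ) (s₁ x) * t₂ x + (starRingEnd ℂ) (s₂ x) * t₁ x)
        - ((starRingEnd ℂ) (s₁' x) * t₂' x + (starRingEnd ℂ) (s₂' x) * t₁' x)) ∂mu = 0) := by
    intro f g f' g' s₁ s₂ t₁ t₂ s₁' s₂' t₁' t₂' m hf hg hf' hg' hz'
    obtain ⟨C, hz⟩ := hz'
    refine int_test h0 (n := 2)
      (F := fun ħ x => (starRingEnd ℂ) (f ħ x) * g ħ x - (starRingEnd ℂ) (f' ħ x) * g' ħ x)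
      (fun ħ hp hle => ((hf.conj.cf ħ hp hle).mul (hg.cf ħ hp hle)).sub
        ((hf'.conj.cf ħ hp hle).mul (hg'.cf ħ hp hle)))
      ((hf.conj.c1.mul hg.c1).sub (hf'.conj.c1.mul hg'.c1))
      (((hf.conj.c1.mul hg.c2).add (hf.conj.c2.mul hg.c1)).sub
        ((hf'.conj.c1.mul hg'.c2).add (hf'.conj.c2.mul hg'.c1))) ?_ hz
    have := (hf.conj.prod hg).sub (hf'.conj.prod hg')
    refine Eq.mp (congrArg (Ob ħ₀ 4) ?_) this
    funext ħ x
    ring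
  have ekr : ∀ (ħ : ℝ) (k : ℤ × ℤ), ħ • kr k = (ħ * k.1, ħ * k.2) := fun ħ k => rfl
  have T1 := fun k m : ℤ × ℤ => symT (m := m) (X1 k) (X1 (k + m)) (fun ħ hp hle => by
    obtain ⟨hq1, hq2, hs1, hs2⟩ := hP ħ hp hle
    exact symm_test hq1 hs1 k m)
  have T2 := fun k m : ℤ × ℤ => symT (m := m) (X2 k) (X2 (k + m)) (fun ħ hp hle => by
    obtain ⟨hq1, hq2, hs1, hs2⟩ := hP ħ hp hle
    exact symm_test hq2 hs2 k m)
  have T3 := fun k m : ℤ × ℤ => comT (m := m) (X2 k) (X1 (k + m)) (X1 k) (X2 (k + m)) (by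
    obtain ⟨C, hC⟩ := hcom (ex k) (ex (k + m)) (is_ex _) (is_ex _)
    refine ⟨C, fun ħ hp hle => ?_⟩
    obtain ⟨hq1, hq2, hs1, hs2⟩ := hP ħ hp hle
    have h := comm_test hq1 hq2 hs1 hs2 k m
    refine le_trans (le_of_eq ?_) (hC ħ hp hle)
    rw [← h]
    rfl)
  exact abstract_contra T (fun k m => (T1 k m).1) (fun k m => (T1 k m).2) (fun k m => (T2 k m).1)
    (fun k m => (T2 k m).2) (fun k m => (T3 k m).1) (fun k m => (T3 k m).2)

/-- exact quantisation implies weak quantisation -/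
theorem HasQuantisation.weak {p₁ p₂ : R2 → R2 → ℝ} (h : HasQuantisation p₁ p₂) :
    HasWeakQuantisation p₁ p₂ := by
  obtain ⟨ħ₀, m₁, m₂, σ₁, σ₂, a₁, a₂, P₁, P₂, h0, E₁, E₂, q1, q2, hP⟩ := h
  refine ⟨ħ₀, m₁, m₂, σ₁, σ₂, a₁, a₂, P₁, P₂, h0, E₁, E₂, q1, q2, fun ħ hp hle => ?_,
    fun u v hu hv => ⟨0, fun ħ hp hle => ?_⟩⟩
  · obtain ⟨hq1, hq2, hs1, hs2, _⟩ := hP ħ hp hle
    exact ⟨hq1, hq2, hs1.1, hs2.1⟩
  · obtain ⟨hq1, hq2, hs1, hs2, hsc⟩ := hP ħ hp hle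
    have := weak_comm (quant_lin hq1) (quant_lin hq2) hs1 hs2 hsc hu hv
    rw [hs1.1 _ _ (hq2 u hu).1 hv, hs2.1 _ _ (hq1 u hu).1 hv, this, sub_self, norm_zero, zero_mul]

end Pool.H98.EQ
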