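import Pool.Agent.H98.EQ.Main

/-!
The principal symbols `p₁, p₂` belong to the Kohn–Nirenberg class `S²`.
-/

open MeasureTheory
open scoped ContDiff

noncomputable section

namespace Pool.H98.EQ

theorem per_rep {E : Type*} {g : R2 → E} (hg : IsPer g) (x : R2) : ∃ y ∈ cbox, g x = g y := by
  have h1 : Function.Periodic (fun t : ℝ => g (t, x.2)) (2 * Real.pi) := fun t => (hg (t, x.2)).1
  obtain ⟨a, ha, ea⟩ := h1.exists_mem_Ico₀ (by positivity) x.1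
  have h2 : Function.Periodic (fun t : ℝ => g (a, t)) (2 * Real.pi) := fun t => (hg (a, t)).2
  obtain ⟨b, hb, eb⟩ := h2.exists_mem_Ico₀ (by positivity) x.2
  refine ⟨(a, b), ⟨⟨ha.1, ha.2.le⟩, ⟨hb.1, hb.2.le⟩⟩, ?_⟩
  exact ea.trans eb

theorem sm_bound {f : R2 → ℂ} (hf : IsSm f) : ∃ C : ℝ, 0 ≤ C ∧ ∀ x, ‖f x‖ ≤ C := by
  obtain ⟨C, hC⟩ := cbox_compact.exists_bound_of_continuousOn hf.1.continuous.continuousOn
  refine ⟨|C|, abs_nonneg _, fun x => ?_⟩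
  obtain ⟨y, hy, e⟩ := per_rep hf.2 x
  rw [e]
  exact (hC y hy).trans (le_abs_self C)

theorem IsSm.dxi {f : R2 → ℂ} (hf : IsSm f) (i : ℕ) : IsSm (dx^[i] f) := by
  induction i generalizing f with
  | zero => exact hf
  | succ i ih => exact ih ⟨sm_dx hf.1, hf.2.dx⟩

theorem IsSm.dui {f : R2 → ℂ} (hf : IsSm f) (i : ℕ) : IsSm (du^[i] f) := by
  induction i generalizing f with
  | zero => exact hf
  | succ i ih => exact ih ⟨sm_du hf.1, hf.2.du⟩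

theorem iter_du {f : R2 → ℂ} (hf : IsSm f) (j : ℕ) (x₁ : ℝ) (x₂ : ℝ) :
    iteratedDeriv j (fun t => f (x₁, t)) x₂ = (du^[j] f) (x₁, x₂) := by
  induction j generalizing f with
  | zero => simp
  | succ j ih =>
    rw [iteratedDeriv_succ', Function.iterate_succ_apply, ← ih ⟨sm_du hf.1, hf.2.du⟩]
    congr 1
    funext t
    have h1 : HasFDerivAt f (fderiv ℝ f (x₁, t)) (x₁, t) := (sm_diff hf.1 (x₁, t)).hasFDerivAt
    have h2 : HasDerivAt (fun t : ℝ => ((x₁, t) : R2)) (0, 1) t :=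
      (hasDerivAt_const _ _).prodMk (hasDerivAt_id t)
    exact (h1.comp_hasDerivAt t h2).deriv

theorem iter_dx {f : R2 → ℂ} (hf : IsSm f) (j : ℕ) (x₁ : ℝ) (x₂ : ℝ) :
    iteratedDeriv j (fun t => f (t, x₂)) x₁ = (dx^[j] f) (x₁, x₂) := by
  induction j generalizing f with
  | zero => simp
  | succ j ih =>
    rw [iteratedDeriv_succ', Function.iterate_succ_apply, ← ih ⟨sm_dx hf.1, hf.2.dx⟩]
    congr 1
    funext t
    have h1 : HasFDerivAt f (fderiv ℝ f (t, x₂)) (t, x₂) := (sm_diff hf.1 (t, x₂)).hasFDerivAt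
    have h2 : HasDerivAt (fun t : ℝ => ((t, x₂) : R2)) (1, 0) t :=
      (hasDerivAt_id t).prodMk (hasDerivAt_const _ _)
    exact (h1.comp_hasDerivAt t h2).deriv

/-- derivatives of a monomial -/
def mon (p k : ℕ) (t : ℝ) : ℂ := iteratedDeriv k (fun s : ℝ => (s : ℂ) ^ p) t

theorem mon_eq (p k : ℕ) (t : ℝ) : mon p k t = (p.descFactorial k : ℂ) * (t : ℂ) ^ (p - k) := by
  unfold mon
  induction k generalizing t with
  | zero => simp
  | succ k ih =>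
    rw [iteratedDeriv_succ]
    have : iteratedDeriv k (fun s : ℝ => (s : ℂ) ^ p)
        = fun t : ℝ => (p.descFactorial k : ℂ) * (t : ℂ) ^ (p - k) := by
      funext t; exact ih t
    rw [this]
    have h : HasDerivAt (fun t : ℝ => (p.descFactorial k : ℂ) * (t : ℂ) ^ (p - k))
        ((p.descFactorial k : ℂ) * (((p - k : ℕ) : ℂ) * (t : ℂ) ^ (p - k - 1) * 1)) t :=
      ((Complex.ofRealCLM.hasDerivAt (x := t)).pow (p - k)).const_mul _
    rw [h.deriv, Nat.descFactorial_succ]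
    push_cast
    rw [Nat.sub_sub]
    ring

theorem mon_bound (p k : ℕ) (t R : ℝ) (h : |t| ≤ R) :
    ‖mon p k t‖ ≤ (p.descFactorial k : ℝ) * R ^ ((p : ℝ) - k) := by
  rw [mon_eq, norm_mul, norm_pow, Complex.norm_real, Real.norm_eq_abs]
  have h1 : ‖((p.descFactorial k : ℕ) : ℂ)‖ = (p.descFactorial k : ℝ) := Complex.norm_natCast _
  rw [h1]
  by_cases hk : k ≤ p
  · have e : R ^ ((p : ℝ) - k) = R ^ (p - k) := by
      rw [← Nat.cast_sub hk, Real.rpow_natCast]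
    rw [e]
    gcongr
  · have h8 : p.descFactorial k = 0 := Nat.descFactorial_eq_zero_iff_lt.2 (by omega)
    rw [h8]
    simp

theorem pder_sum {F G : R2 → ℂ} (hF : IsSm F) (hG : IsSm G) (p r p' r' i j k l : ℕ) (x ξ : R2) :
    pder i j k l (fun x ξ => F x * ((ξ.1 : ℂ) ^ p * (ξ.2 : ℂ) ^ r)
      + G x * ((ξ.1 : ℂ) ^ p' * (ξ.2 : ℂ) ^ r')) x ξ
    = (dx^[i] (du^[j] F)) x * (mon p k ξ.1 * mon r l ξ.2)
      + (dx^[i] (du^[j] G)) x * (mon p' k ξ.1 * mon r' l ξ.2) := by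
  unfold pder
  have cp : ∀ (n q : ℕ) (t : ℝ), ContDiffAt ℝ n (fun s : ℝ => (s : ℂ) ^ q) t := by
    intro n q t
    apply ContDiff.contDiffAt
    exact (Complex.ofRealCLM.contDiff).pow q
  have e1 : ∀ x₁ x₂ ξ₁ : ℝ, iteratedDeriv l (fun ξ₂ : ℝ => F (x₁, x₂) * ((ξ₁ : ℂ) ^ p * (ξ₂ : ℂ) ^ r)
      + G (x₁, x₂) * ((ξ₁ : ℂ) ^ p' * (ξ₂ : ℂ) ^ r')) ξ.2
      = (F (x₁, x₂) * mon r l ξ.2) * (ξ₁ : ℂ) ^ p + (G (x₁, x₂) * mon r' l ξ.2) * (ξ₁ : ℂ) ^ p' := by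
    intro x₁ x₂ ξ₁
    have a1 : (fun ξ₂ : ℝ => F (x₁, x₂) * ((ξ₁ : ℂ) ^ p * (ξ₂ : ℂ) ^ r)
      + G (x₁, x₂) * ((ξ₁ : ℂ) ^ p' * (ξ₂ : ℂ) ^ r'))
      = (fun ξ₂ : ℝ => (F (x₁, x₂) * (ξ₁ : ℂ) ^ p) * (ξ₂ : ℂ) ^ r)
        + (fun ξ₂ : ℝ => (G (x₁, x₂) * (ξ₁ : ℂ) ^ p') * (ξ₂ : ℂ) ^ r') := by
      funext s; simp only [Pi.add_apply]; ring
    rw [a1, iteratedDeriv_add (contDiffAt_const.mul (cp l r ξ.2))
      (contDiffAt_const.mul (cp l r' ξ.2)), iteratedDeriv_const_mul_field,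
      iteratedDeriv_const_mul_field]
    unfold mon
    ring
  have e2 : ∀ x₁ x₂ : ℝ, iteratedDeriv k (fun ξ₁ : ℝ => (F (x₁, x₂) * mon r l ξ.2) * (ξ₁ : ℂ) ^ p
      + (G (x₁, x₂) * mon r' l ξ.2) * (ξ₁ : ℂ) ^ p') ξ.1
      = F (x₁, x₂) * (mon p k ξ.1 * mon r l ξ.2) + G (x₁, x₂) * (mon p' k ξ.1 * mon r' l ξ.2) := by
    intro x₁ x₂
    have a1 : (fun ξ₁ : ℝ => (F (x₁, x₂) * mon r l ξ.2) * (ξ₁ : ℂ) ^ p
      + (G (x₁, x₂) * mon r' l ξ.2) * (ξ₁ : ℂ) ^ p')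
      = (fun ξ₁ : ℝ => (F (x₁, x₂) * mon r l ξ.2) * (ξ₁ : ℂ) ^ p)
        + (fun ξ₁ : ℝ => (G (x₁, x₂) * mon r' l ξ.2) * (ξ₁ : ℂ) ^ p') := by
      funext s; simp only [Pi.add_apply]
    rw [a1, iteratedDeriv_add (contDiffAt_const.mul (cp k p ξ.1))
      (contDiffAt_const.mul (cp k p' ξ.1)), iteratedDeriv_const_mul_field,
      iteratedDeriv_const_mul_field]
    unfold mon
    ring
  have sl : ∀ {f : R2 → ℂ}, IsSm f → ∀ (n : ℕ) (a t : ℝ), ContDiffAt ℝ n (fun s => f (a, s)) t := by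
    intro f hf n a t
    apply ContDiff.contDiffAt
    exact (hf.1.of_le (by exact_mod_cast le_top)).comp (by fun_prop)
  have sl' : ∀ {f : R2 → ℂ}, IsSm f → ∀ (n : ℕ) (a t : ℝ), ContDiffAt ℝ n (fun s => f (s, a)) t := by
    intro f hf n a t
    apply ContDiff.contDiffAt
    exact (hf.1.of_le (by exact_mod_cast le_top)).comp (by fun_prop)
  have e3 : ∀ (x₁ : ℝ) (c d : ℂ), iteratedDeriv j (fun x₂ : ℝ => F (x₁, x₂) * c + G (x₁, x₂) * d) x.2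
      = (du^[j] F) (x₁, x.2) * c + (du^[j] G) (x₁, x.2) * d := by
    intro x₁ c d
    have a1 : (fun x₂ : ℝ => F (x₁, x₂) * c + G (x₁, x₂) * d)
      = (fun x₂ : ℝ => F (x₁, x₂) * c) + (fun x₂ : ℝ => G (x₁, x₂) * d) := by
      funext s; simp only [Pi.add_apply]
    rw [a1, iteratedDeriv_add ((sl hF j x₁ x.2).mul contDiffAt_const)
      ((sl hG j x₁ x.2).mul contDiffAt_const), iteratedDeriv_mul_const_field,
      iteratedDeriv_mul_const_field, iter_du hF, iter_du hG]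
  have e4 : ∀ (c d : ℂ), iteratedDeriv i (fun x₁ : ℝ => (du^[j] F) (x₁, x.2) * c
      + (du^[j] G) (x₁, x.2) * d) x.1
      = (dx^[i] (du^[j] F)) x * c + (dx^[i] (du^[j] G)) x * d := by
    intro c d
    have a1 : (fun x₁ : ℝ => (du^[j] F) (x₁, x.2) * c + (du^[j] G) (x₁, x.2) * d)
      = (fun x₁ : ℝ => (du^[j] F) (x₁, x.2) * c) + (fun x₁ : ℝ => (du^[j] G) (x₁, x.2) * d) := by
      funext s; simp only [Pi.add_apply]
    rw [a1, iteratedDeriv_add ((sl' (hF.dui j) i x.2 x.1).mul contDiffAt_const)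
      ((sl' (hG.dui j) i x.2 x.1).mul contDiffAt_const), iteratedDeriv_mul_const_field,
      iteratedDeriv_mul_const_field, iter_dx (hF.dui j), iter_dx (hG.dui j)]
  simp only [e1, e2, e3, e4]

theorem symbol_two {f g : R2 → ℝ} (hf : SP f) (hg : SP g) {p r p' r' : ℕ} (h1 : p + r ≤ 2)
    (h2 : p' + r' ≤ 2) :
    IsSymbol 2 (fun x ξ => ((f x * (ξ.1 ^ p * ξ.2 ^ r) + g x * (ξ.1 ^ p' * ξ.2 ^ r') : ℝ) : ℂ)) := by
  have sf := hf.sm
  have sg := hg.sm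
  have hF : IsSm (cc f) := ⟨sm_cc sf, hf.per.cc⟩
  have hG : IsSm (cc g) := ⟨sm_cc sg, hg.per.cc⟩
  refine ⟨?_, ?_, ?_⟩
  · have h1 : ContDiff ℝ ∞ (fun z : R2 × R2 => f z.1) := sf.comp contDiff_fst
    have h2 : ContDiff ℝ ∞ (fun z : R2 × R2 => g z.1) := sg.comp contDiff_fst
    have h3 : ContDiff ℝ ∞ (fun z : R2 × R2 => f z.1 * (z.2.1 ^ p * z.2.2 ^ r)
        + g z.1 * (z.2.1 ^ p' * z.2.2 ^ r')) := by
      fun_prop
    exact Complex.ofRealCLM.contDiff.comp h3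
  · intro ξ x
    simp only [(hf.per x).1, (hf.per x).2, (hg.per x).1, (hg.per x).2]
    exact ⟨trivial, trivial⟩
  · intro i j k l
    obtain ⟨C, hC0, hC⟩ := sm_bound ((hF.dui j).dxi i)
    obtain ⟨D, hD0, hD⟩ := sm_bound ((hG.dui j).dxi i)
    refine ⟨C * ((p.descFactorial k : ℝ) * (r.descFactorial l : ℝ))
      + D * ((p'.descFactorial k : ℝ) * (r'.descFactorial l : ℝ)), fun x ξ => ?_⟩
    have e : (fun (x ξ : R2) => ((f x * (ξ.1 ^ p * ξ.2 ^ r) + g x * (ξ.1 ^ p' * ξ.2 ^ r') : ℝ) : ℂ))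
        = fun x ξ => cc f x * ((ξ.1 : ℂ) ^ p * (ξ.2 : ℂ) ^ r)
          + cc g x * ((ξ.1 : ℂ) ^ p' * (ξ.2 : ℂ) ^ r') := by
      funext x ξ
      simp only [cc]
      push_cast
      ring
    rw [e, pder_sum hF hG]
    have hR : (1:ℝ) ≤ 1 + ‖ξ‖ := by have := norm_nonneg ξ; linarith
    have k1 : |ξ.1| ≤ 1 + ‖ξ‖ := by
      have : ‖ξ.1‖ ≤ ‖ξ‖ := norm_fst_le ξ
      rw [Real.norm_eq_abs] at this; linarith
    have k2 : |ξ.2| ≤ 1 + ‖ξ‖ := by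
      have : ‖ξ.2‖ ≤ ‖ξ‖ := norm_snd_le ξ
      rw [Real.norm_eq_abs] at this; linarith
    have main : ∀ {q s : ℕ}, q + s ≤ 2 → ‖mon q k ξ.1 * mon s l ξ.2‖
        ≤ ((q.descFactorial k : ℝ) * (s.descFactorial l : ℝ)) * (1 + ‖ξ‖) ^ ((2:ℝ) - k - l) := by
      intro q s hqs
      rw [norm_mul]
      calc ‖mon q k ξ.1‖ * ‖mon s l ξ.2‖
          ≤ ((q.descFactorial k : ℝ) * (1 + ‖ξ‖) ^ ((q : ℝ) - k))
            * ((s.descFactorial l : ℝ) * (1 + ‖ξ‖) ^ ((s : ℝ) - l)) :=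
            mul_le_mul (mon_bound q k _ _ k1) (mon_bound s l _ _ k2) (norm_nonneg _)
              (by positivity)
        _ = ((q.descFactorial k : ℝ) * (s.descFactorial l : ℝ))
            * (1 + ‖ξ‖) ^ (((q : ℝ) - k) + ((s : ℝ) - l)) := by
            rw [Real.rpow_add (by linarith)]; ring
        _ ≤ _ := by
            gcongr
            have : ((q + s : ℕ) : ℝ) ≤ 2 := by exact_mod_cast hqs
            push_cast at this
            linarith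
    have b1 := main h1
    have b2 := main h2
    calc ‖(dx^[i] (du^[j] (cc f))) x * (mon p k ξ.1 * mon r l ξ.2)
          + (dx^[i] (du^[j] (cc g))) x * (mon p' k ξ.1 * mon r' l ξ.2)‖
        ≤ ‖(dx^[i] (du^[j] (cc f))) x‖ * ‖mon p k ξ.1 * mon r l ξ.2‖
          + ‖(dx^[i] (du^[j] (cc g))) x‖ * ‖mon p' k ξ.1 * mon r' l ξ.2‖ := by
          refine (norm_add_le _ _).trans ?_
          rw [norm_mul, norm_mul (dx^[i] (du^[j] (cc g)) x)]
      _ ≤ C * (((p.descFactorial k : ℝ) * (r.descFactorial l : ℝ)) * (1 + ‖ξ‖) ^ ((2:ℝ) - k - l))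
          + D * (((p'.descFactorial k : ℝ) * (r'.descFactorial l : ℝ))
            * (1 + ‖ξ‖) ^ ((2:ℝ) - k - l)) := by
          gcongr
          · exact hC x
          · exact hD x
      _ = _ := by ring

theorem sym_p₁ : IsSymbol 2 (fun x ξ => ((p₁ x ξ : ℝ) : ℂ)) := by
  have h := symbol_two SP_W SP_B (p := 0) (r := 1) (p' := 1) (r' := 0) (by norm_num) (by norm_num)
  refine Eq.mp (congrArg (IsSymbol 2) ?_) h
  funext x ξ
  simp [p₁]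

theorem sym_p₂ : IsSymbol 2 (fun x ξ => ((p₂ x ξ : ℝ) : ℂ)) := by
  have h := symbol_two SP_G (SP.cst 0) (p := 2) (r := 0) (p' := 0) (r' := 0) (by norm_num)
    (by norm_num)
  refine Eq.mp (congrArg (IsSymbol 2) ?_) h
  funext x ξ
  simp [p₂, cst]

end Pool.H98.EQ
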