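import Pool.Agent.H98.EQ.Jet

/-!
The explicit classical system: `p₁ = w(u) η + B(x,u) ξ`, `p₂ = G(x,u) ξ²`.
-/

open scoped ContDiff
open Real

noncomputable section

namespace Pool.H98.EQ

def Qp (s c U : ℝ) : ℝ := 24 * (c ^ 4 + s ^ 4) + s * c * U * (3 + 4 * s ^ 2)
def bp (s c U : ℝ) : ℝ :=
  6 * s * c ^ 2 * (768 * s ^ 2 * c + 320 * s * c ^ 2 * U + 40 * c ^ 3 * U ^ 2 + s * U ^ 3)
def gp (s c U : ℝ) : ℝ := 1152 * s * c ^ 6 * (6 * s + c * U) ^ 5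

/-- `w(u) = sin³ u` -/
def Wf (p : RR) : ℝ := sin p.2 ^ 3

def Qf (p : RR) : ℝ := Qp (sin (p.1 / 2)) (cos (p.1 / 2)) (sin p.2)

/-- the coefficient `B(x,u)` -/
def Bf (p : RR) : ℝ := cos p.2 * bp (sin (p.1 / 2)) (cos (p.1 / 2)) (sin p.2) / Qf p

/-- the coefficient `G(x,u)` -/
def Gf (p : RR) : ℝ := gp (sin (p.1 / 2)) (cos (p.1 / 2)) (sin p.2) / Qf p ^ 2

theorem Qp_pos {s c U : ℝ} (h : s ^ 2 + c ^ 2 = 1) (h1 : -1 ≤ U) (h2 : U ≤ 1) :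
    0 < Qp s c U := by
  unfold Qp
  have hs : s ^ 2 ≤ 1 := by nlinarith [sq_nonneg c]
  have a1 : c ^ 4 + s ^ 4 = 1 - 2 * (s * c) ^ 2 := by
    have : (s ^ 2 + c ^ 2) ^ 2 = 1 := by rw [h]; norm_num
    nlinarith
  have a2 : (s * c) ^ 2 ≤ 1 / 4 := by nlinarith [sq_nonneg (s ^ 2 - c ^ 2)]
  have a3 : |s * c| ≤ 1 / 2 := by
    apply abs_le_of_sq_le_sq' _ (by norm_num) |> abs_le.2
    nlinarith
  have a4 : |U| ≤ 1 := abs_le.2 ⟨h1, h2⟩
  have a5 : |s * c * U * (3 + 4 * s ^ 2)| ≤ 1 / 2 * 1 * 7 := by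
    rw [abs_mul, abs_mul]
    have : |3 + 4 * s ^ 2| ≤ 7 := by rw [abs_of_pos (by positivity)]; linarith
    gcongr
  have a6 := (abs_le.1 a5).1
  rw [a1]
  linarith

theorem Qf_pos (p : RR) : 0 < Qf p :=
  Qp_pos (sin_sq_add_cos_sq _) (neg_one_le_sin _) (sin_le_one _)

theorem sm_Wf : ContDiff ℝ ∞ Wf := by
  unfold Wf; fun_prop

theorem sm_Qf : ContDiff ℝ ∞ Qf := by
  unfold Qf Qp; fun_prop

theorem sm_Bf : ContDiff ℝ ∞ Bf := by
  unfold Bf bp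
  refine ContDiff.div ?_ sm_Qf (fun p => (Qf_pos p).ne')
  fun_prop

theorem sm_Gf : ContDiff ℝ ∞ Gf := by
  unfold Gf gp
  refine ContDiff.div ?_ (sm_Qf.pow 2) (fun p => (pow_pos (Qf_pos p) 2).ne')
  fun_prop

theorem dx_of {f : RR → ℝ} (hf : ContDiff ℝ ∞ f) {p : RR} {d : ℝ}
    (h : HasDerivAt (fun t => f (t, p.2)) d p.1) : dx f p = d := by
  have h1 : HasFDerivAt f (fderiv ℝ f p) (p.1, p.2) := (sm_diff hf p).hasFDerivAt
  have h2 : HasDerivAt (fun t : ℝ => ((t, p.2) : RR)) (1, 0) p.1 :=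
    (hasDerivAt_id p.1).prodMk (hasDerivAt_const _ _)
  exact (h1.comp_hasDerivAt p.1 h2).unique h

theorem du_of {f : RR → ℝ} (hf : ContDiff ℝ ∞ f) {p : RR} {d : ℝ}
    (h : HasDerivAt (fun t => f (p.1, t)) d p.2) : du f p = d := by
  have h1 : HasFDerivAt f (fderiv ℝ f p) (p.1, p.2) := (sm_diff hf p).hasFDerivAt
  have h2 : HasDerivAt (fun t : ℝ => ((p.1, t) : RR)) (0, 1) p.2 :=
    (hasDerivAt_const _ _).prodMk (hasDerivAt_id p.2)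
  exact (h1.comp_hasDerivAt p.2 h2).unique h

theorem dx_Wf : dx Wf = 0 := by
  funext p
  exact dx_of sm_Wf (hasDerivAt_const p.1 (sin p.2 ^ 3))

/-- `x`-derivative of `Q` in terms of `s, c, U` -/
def Qx (s c U : ℝ) : ℝ := 24 * (4 * c ^ 3 * (-s / 2) + 4 * s ^ 3 * (c / 2))
  + (c / 2 * c * U * (3 + 4 * s ^ 2) + s * (-s / 2) * U * (3 + 4 * s ^ 2)
    + s * c * U * (8 * s * (c / 2)))

def bx (s c U : ℝ) : ℝ :=
  6 * (c / 2) * c ^ 2 * (768 * s ^ 2 * c + 320 * s * c ^ 2 * U + 40 * c ^ 3 * U ^ 2 + s * U ^ 3)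
  + 6 * s * (2 * c * (-s / 2)) * (768 * s ^ 2 * c + 320 * s * c ^ 2 * U + 40 * c ^ 3 * U ^ 2
    + s * U ^ 3)
  + 6 * s * c ^ 2 * (768 * (2 * s * (c / 2)) * c + 768 * s ^ 2 * (-s / 2)
    + 320 * (c / 2) * c ^ 2 * U + 320 * s * (2 * c * (-s / 2)) * U
    + 40 * (3 * c ^ 2 * (-s / 2)) * U ^ 2 + c / 2 * U ^ 3)

def gx (s c U : ℝ) : ℝ := 1152 * (c / 2) * c ^ 6 * (6 * s + c * U) ^ 5
  + 1152 * s * (6 * c ^ 5 * (-s / 2)) * (6 * s + c * U) ^ 5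
  + 1152 * s * c ^ 6 * (5 * (6 * s + c * U) ^ 4 * (6 * (c / 2) + (-s / 2) * U))

def QU (s c : ℝ) : ℝ := s * c * (3 + 4 * s ^ 2)
def gU (s c U : ℝ) : ℝ := 1152 * s * c ^ 6 * (5 * (6 * s + c * U) ^ 4 * c)

theorem hs' (x : ℝ) : HasDerivAt (fun t : ℝ => sin (t / 2)) (cos (x / 2) / 2) x := by
  have h : HasDerivAt (fun t : ℝ => t / 2) (1 / 2) x := (hasDerivAt_id x).div_const 2
  have := (hasDerivAt_sin (x / 2)).comp x h
  refine this.congr_deriv ?_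
  ring

theorem hc' (x : ℝ) : HasDerivAt (fun t : ℝ => cos (t / 2)) (-sin (x / 2) / 2) x := by
  have h : HasDerivAt (fun t : ℝ => t / 2) (1 / 2) x := (hasDerivAt_id x).div_const 2
  have := (hasDerivAt_cos (x / 2)).comp x h
  refine this.congr_deriv ?_
  ring

theorem hQx (x U : ℝ) : HasDerivAt (fun t : ℝ => Qp (sin (t / 2)) (cos (t / 2)) U)
    (Qx (sin (x / 2)) (cos (x / 2)) U) x := by
  unfold Qp
  have h1 := ((((hc' x).pow 4).add ((hs' x).pow 4)).const_mul 24).add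
    ((((hs' x).mul (hc' x)).mul_const U).mul ((((hs' x).pow 2).const_mul 4).const_add 3))
  refine h1.congr_deriv ?_
  unfold Qx
  simp only [Pi.mul_apply, Pi.pow_apply, Pi.add_apply]
  norm_num
  ring

theorem hbx (x U : ℝ) : HasDerivAt (fun t : ℝ => bp (sin (t / 2)) (cos (t / 2)) U)
    (bx (sin (x / 2)) (cos (x / 2)) U) x := by
  unfold bp
  have h1 := (((hs' x).const_mul 6).mul ((hc' x).pow 2)).mul
    ((((((hs' x).pow 2).const_mul 768).mul (hc' x)).add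
      ((((hs' x).const_mul 320).mul ((hc' x).pow 2)).mul_const U)).add
      ((((hc' x).pow 3).const_mul 40).mul_const (U ^ 2)) |>.add
      ((hs' x).mul_const (U ^ 3)))
  refine h1.congr_deriv ?_
  unfold bx
  simp only [Pi.mul_apply, Pi.pow_apply, Pi.add_apply]
  norm_num
  ring

theorem hgx (x U : ℝ) : HasDerivAt (fun t : ℝ => gp (sin (t / 2)) (cos (t / 2)) U)
    (gx (sin (x / 2)) (cos (x / 2)) U) x := by
  unfold gp
  have h1 := (((hs' x).const_mul 1152).mul ((hc' x).pow 6)).mul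
    ((((hs' x).const_mul 6).add ((hc' x).mul_const U)).pow 5)
  refine h1.congr_deriv ?_
  unfold gx
  simp only [Pi.mul_apply, Pi.pow_apply, Pi.add_apply]
  norm_num
  ring

theorem hQU (s c u : ℝ) : HasDerivAt (fun t : ℝ => Qp s c (sin t)) (QU s c * cos u) u := by
  unfold Qp
  have h1 := (((hasDerivAt_sin u).const_mul (s * c)).mul_const (3 + 4 * s ^ 2)).const_add
    (24 * (c ^ 4 + s ^ 4))
  refine h1.congr_deriv ?_
  unfold QU
  ring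

theorem hgU (s c u : ℝ) : HasDerivAt (fun t : ℝ => gp s c (sin t)) (gU s c (sin u) * cos u) u := by
  unfold gp
  have h1 := ((((hasDerivAt_sin u).const_mul c).const_add (6 * s)).pow 5).const_mul
    (1152 * s * c ^ 6)
  refine h1.congr_deriv ?_
  unfold gU
  norm_num
  ring

theorem dx_Bf (p : RR) : dx Bf p = cos p.2 *
    (bx (sin (p.1 / 2)) (cos (p.1 / 2)) (sin p.2) * Qf p
      - bp (sin (p.1 / 2)) (cos (p.1 / 2)) (sin p.2) * Qx (sin (p.1 / 2)) (cos (p.1 / 2)) (sin p.2))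
      / Qf p ^ 2 := by
  refine dx_of sm_Bf ?_
  have h := ((hbx p.1 (sin p.2)).const_mul (cos p.2)).div (hQx p.1 (sin p.2)) (Qf_pos p).ne'
  refine h.congr_deriv ?_
  unfold Qf
  ring

theorem dx_Gf (p : RR) : dx Gf p =
    (gx (sin (p.1 / 2)) (cos (p.1 / 2)) (sin p.2) * Qf p
      - 2 * gp (sin (p.1 / 2)) (cos (p.1 / 2)) (sin p.2)
        * Qx (sin (p.1 / 2)) (cos (p.1 / 2)) (sin p.2)) / Qf p ^ 3 := by
  refine dx_of sm_Gf ?_
  have h := (hgx p.1 (sin p.2)).div ((hQx p.1 (sin p.2)).pow 2) (pow_pos (Qf_pos p) 2).ne'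
  refine h.congr_deriv ?_
  have hQ : Qp (sin (p.1 / 2)) (cos (p.1 / 2)) (sin p.2) = Qf p := rfl
  simp only [Pi.pow_apply, hQ]
  have := (Qf_pos p).ne'
  field_simp
  ring

theorem du_Gf (p : RR) : du Gf p = cos p.2 *
    (gU (sin (p.1 / 2)) (cos (p.1 / 2)) (sin p.2) * Qf p
      - 2 * gp (sin (p.1 / 2)) (cos (p.1 / 2)) (sin p.2)
        * QU (sin (p.1 / 2)) (cos (p.1 / 2))) / Qf p ^ 3 := by
  refine du_of sm_Gf ?_
  have h := (hgU (sin (p.1 / 2)) (cos (p.1 / 2)) p.2).div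
    ((hQU (sin (p.1 / 2)) (cos (p.1 / 2)) p.2).pow 2) (pow_pos (Qf_pos p) 2).ne'
  refine h.congr_deriv ?_
  have hQ : Qp (sin (p.1 / 2)) (cos (p.1 / 2)) (sin p.2) = Qf p := rfl
  simp only [Pi.pow_apply, hQ]
  have := (Qf_pos p).ne'
  field_simp
  ring

theorem poly_id {s c : ℝ} (U : ℝ) (h : s ^ 2 + c ^ 2 = 1) :
    U ^ 3 * (gU s c U * Qp s c U - 2 * gp s c U * QU s c) + bp s c U * gx s c U
      - 2 * bx s c U * gp s c U = 0 := by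
  unfold gU Qp gp QU bp gx bx
  linear_combination (1152 * c ^ 5 * (6 * s + c * U) ^ 4 * (36 * s ^ 3 * c ^ 2 * U ^ 3
    - 9 * s ^ 2 * c ^ 3 * U ^ 4 - 120 * s * c ^ 6 * U ^ 3)) * h

/-- the Poisson commutation of `p₁` and `p₂` -/
theorem pde (p : RR) : Wf p * du Gf p + Bf p * dx Gf p = 2 * dx Bf p * Gf p := by
  have hQ := (Qf_pos p).ne'
  have hid := poly_id (sin p.2) (sin_sq_add_cos_sq (p.1 / 2))
  have hQ' : Qp (sin (p.1 / 2)) (cos (p.1 / 2)) (sin p.2) = Qf p := rfl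
  rw [hQ'] at hid
  rw [dx_Bf, dx_Gf, du_Gf]
  unfold Wf Bf Gf
  rw [← sub_eq_zero]
  have : ∀ a b C g gx' gU' QU' Qx' bx' Q : ℝ, Q ≠ 0 →
      a ^ 3 * (C * (gU' * Q - 2 * g * QU') / Q ^ 3) + C * b / Q * ((gx' * Q - 2 * g * Qx') / Q ^ 3)
        - 2 * (C * (bx' * Q - b * Qx') / Q ^ 2) * (g / Q ^ 2)
      = C / Q ^ 3 * (a ^ 3 * (gU' * Q - 2 * g * QU') + b * gx' - 2 * bx' * g) := by
    intro a b C g gx' gU' QU' Qx' bx' Q hQ
    field_simp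
    ring
  rw [this _ _ _ _ _ _ _ _ _ _ hQ, hid, mul_zero]

end Pool.H98.EQ
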