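import Pool.Agent.H98.EQ.Strong
import Pool.Agent.H98.EQ.Jet

/-!
Fourier tools on the torus.
-/

open MeasureTheory Complex
open scoped ContDiff InnerProductSpace

noncomputable section

namespace Pool.H98.EQ

/-- one-dimensional restricted measure -/
def nu : Measure ℝ := (volume : Measure ℝ).restrict (Set.Ioc 0 (2 * Real.pi))

theorem mu_eq : mu = nu.prod nu := by
  unfold mu nu
  rw [Measure.prod_restrict, Measure.volume_eq_prod]

instance : IsFiniteMeasure nu := by
  constructor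
  rw [nu, Measure.restrict_apply_univ, Real.volume_Ioc]
  exact ENNReal.ofReal_lt_top

instance : IsFiniteMeasure mu := by
  rw [mu_eq]; infer_instance

theorem int_mu {f : R2 → ℂ} (hf : Continuous f) : Integrable f mu := by
  have h : IntegrableOn f (Set.Icc (0:ℝ) (2 * Real.pi) ×ˢ Set.Icc (0:ℝ) (2 * Real.pi)) volume :=
    hf.continuousOn.integrableOn_compact (isCompact_Icc.prod isCompact_Icc)
  unfold mu
  exact h.mono_set (Set.prod_mono Set.Ioc_subset_Icc_self Set.Ioc_subset_Icc_self)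

theorem int_mu_eq {f : R2 → ℂ} (hf : Continuous f) :
    ∫ p, f p ∂mu = ∫ x in (0:ℝ)..(2 * Real.pi), ∫ u in (0:ℝ)..(2 * Real.pi), f (x, u) := by
  have h := int_mu hf
  rw [mu_eq] at h ⊢
  rw [integral_prod _ h]
  have hpi : (0:ℝ) ≤ 2 * Real.pi := by positivity
  simp only [intervalIntegral.integral_of_le hpi]
  rfl

theorem int_mu_eq_symm {f : R2 → ℂ} (hf : Continuous f) :
    ∫ p, f p ∂mu = ∫ u in (0:ℝ)..(2 * Real.pi), ∫ x in (0:ℝ)..(2 * Real.pi), f (x, u) := by
  have h := int_mu hf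
  rw [mu_eq] at h ⊢
  rw [integral_prod_symm _ h]
  have hpi : (0:ℝ) ≤ 2 * Real.pi := by positivity
  simp only [intervalIntegral.integral_of_le hpi]
  rfl

theorem sm_ex (k : ℤ × ℤ) : ContDiff ℝ ∞ (ex k) := by
  unfold ex
  have h1 : ContDiff ℝ ∞ (fun x : R2 => ((x.1 : ℝ) : ℂ)) :=
    Complex.ofRealCLM.contDiff.comp contDiff_fst
  have h2 : ContDiff ℝ ∞ (fun x : R2 => ((x.2 : ℝ) : ℂ)) :=
    Complex.ofRealCLM.contDiff.comp contDiff_snd
  fun_prop

theorem per_ex (k : ℤ × ℤ) : IsPer (ex k) := by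
  intro x
  constructor
  · simp only [ex]
    have : I * ((k.1 : ℂ) * ((x.1 + 2 * Real.pi : ℝ) : ℂ) + (k.2 : ℂ) * (x.2 : ℂ))
        = I * ((k.1 : ℂ) * (x.1 : ℂ) + (k.2 : ℂ) * (x.2 : ℂ)) + k.1 * (2 * Real.pi * I) := by
      push_cast; ring
    rw [this, Complex.exp_add, Complex.exp_int_mul_two_pi_mul_I, mul_one]
  · simp only [ex]
    have : I * ((k.1 : ℂ) * (x.1 : ℂ) + (k.2 : ℂ) * ((x.2 + 2 * Real.pi : ℝ) : ℂ))
        = I * ((k.1 : ℂ) * (x.1 : ℂ) + (k.2 : ℂ) * (x.2 : ℂ)) + k.2 * (2 * Real.pi * I) := by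
      push_cast; ring
    rw [this, Complex.exp_add, Complex.exp_int_mul_two_pi_mul_I, mul_one]

theorem is_ex (k : ℤ × ℤ) : IsSm (ex k) := ⟨sm_ex k, per_ex k⟩

theorem ex_add (k l : ℤ × ℤ) (x : R2) : ex (k + l) x = ex k x * ex l x := by
  simp only [ex, ← Complex.exp_add, Prod.fst_add, Prod.snd_add]
  congr 1; push_cast; ring

theorem ex_zero (x : R2) : ex 0 x = 1 := by simp [ex]

theorem conj_ex (k : ℤ × ℤ) (x : R2) : (starRingEnd ℂ) (ex k x) = ex (-k) x := by
  simp only [ex, ← Complex.exp_conj, map_mul, map_add, conj_I, Complex.conj_ofReal, map_intCast,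
    Prod.fst_neg, Prod.snd_neg]
  congr 1; push_cast; ring

theorem conj_ex_mul (k l : ℤ × ℤ) (x : R2) : (starRingEnd ℂ) (ex k x) * ex l x = ex (l - k) x := by
  rw [conj_ex, ← ex_add]; congr 1; ring

theorem ex_mul_conj (k : ℤ × ℤ) (x : R2) : (starRingEnd ℂ) (ex k x) * ex k x = 1 := by
  rw [conj_ex_mul, sub_self, ex_zero]

theorem dx_ex (k : ℤ × ℤ) (x : R2) : dx (ex k) x = I * k.1 * ex k x := by
  have h1 : HasFDerivAt (ex k) (fderiv ℝ (ex k) x) (x.1, x.2) := (sm_diff (sm_ex k) x).hasFDerivAt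
  have h2 : HasDerivAt (fun t : ℝ => ((t, x.2) : R2)) (1, 0) x.1 :=
    (hasDerivAt_id x.1).prodMk (hasDerivAt_const _ _)
  have h3 := h1.comp_hasDerivAt x.1 h2
  have h4 : HasDerivAt (fun t : ℝ => ex k (t, x.2)) (I * k.1 * ex k x) x.1 := by
    have h5 : HasDerivAt (fun t : ℝ => I * ((k.1 : ℂ) * (t : ℂ) + (k.2 : ℂ) * (x.2 : ℂ)))
        (I * (k.1 * 1)) x.1 :=
      (((Complex.ofRealCLM.hasDerivAt (x := x.1)).const_mul (k.1 : ℂ)).add_const _).const_mul I
    have h6 := h5.cexp
    refine h6.congr_deriv ?_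
    simp only [ex]; ring
  exact h3.unique h4

theorem du_ex (k : ℤ × ℤ) (x : R2) : du (ex k) x = I * k.2 * ex k x := by
  have h1 : HasFDerivAt (ex k) (fderiv ℝ (ex k) x) (x.1, x.2) := (sm_diff (sm_ex k) x).hasFDerivAt
  have h2 : HasDerivAt (fun t : ℝ => ((x.1, t) : R2)) (0, 1) x.2 :=
    (hasDerivAt_const _ _).prodMk (hasDerivAt_id x.2)
  have h3 := h1.comp_hasDerivAt x.2 h2
  have h4 : HasDerivAt (fun t : ℝ => ex k (x.1, t)) (I * k.2 * ex k x) x.2 := by
    have h5 : HasDerivAt (fun t : ℝ => I * ((k.1 : ℂ) * (x.1 : ℂ) + (k.2 : ℂ) * (t : ℂ)))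
        (I * (k.2 * 1)) x.2 :=
      (((Complex.ofRealCLM.hasDerivAt (x := x.2)).const_mul (k.2 : ℂ)).const_add _).const_mul I
    have h6 := h5.cexp
    refine h6.congr_deriv ?_
    simp only [ex]; ring
  exact h3.unique h4

/-- the integral of an `x`-derivative vanishes -/
theorem int_dx {f : R2 → ℂ} (hf : ContDiff ℝ ∞ f) (hp : IsPer f) : ∫ x, dx f x ∂mu = 0 := by
  rw [int_mu_eq_symm (sm_dx hf).continuous]
  have : ∀ u : ℝ, ∫ x in (0:ℝ)..(2 * Real.pi), dx f (x, u) = 0 := by
    intro u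
    have h : ∀ x ∈ Set.uIcc (0:ℝ) (2 * Real.pi), HasDerivAt (fun t => f (t, u)) (dx f (x, u)) x := by
      intro x _
      have h1 : HasFDerivAt f (fderiv ℝ f (x, u)) (x, u) := (sm_diff hf (x, u)).hasFDerivAt
      have h2 : HasDerivAt (fun t : ℝ => ((t, u) : R2)) (1, 0) x :=
        (hasDerivAt_id x).prodMk (hasDerivAt_const _ _)
      exact h1.comp_hasDerivAt x h2
    rw [intervalIntegral.integral_eq_sub_of_hasDerivAt h]
    · have := (hp (0, u)).1
      simp only [zero_add] at this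
      rw [this, sub_self]
    · refine Continuous.intervalIntegrable ?_ _ _
      exact (sm_dx hf).continuous.comp (by fun_prop)
  simp [this]

/-- the integral of a `u`-derivative vanishes -/
theorem int_du {f : R2 → ℂ} (hf : ContDiff ℝ ∞ f) (hp : IsPer f) : ∫ x, du f x ∂mu = 0 := by
  rw [int_mu_eq (sm_du hf).continuous]
  have : ∀ x : ℝ, ∫ u in (0:ℝ)..(2 * Real.pi), du f (x, u) = 0 := by
    intro x
    have h : ∀ u ∈ Set.uIcc (0:ℝ) (2 * Real.pi), HasDerivAt (fun t => f (x, t)) (du f (x, u)) u := by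
      intro u _
      have h1 : HasFDerivAt f (fderiv ℝ f (x, u)) (x, u) := (sm_diff hf (x, u)).hasFDerivAt
      have h2 : HasDerivAt (fun t : ℝ => ((x, t) : R2)) (0, 1) u :=
        (hasDerivAt_const _ _).prodMk (hasDerivAt_id u)
      exact h1.comp_hasDerivAt u h2
    rw [intervalIntegral.integral_eq_sub_of_hasDerivAt h]
    · have := (hp (x, 0)).2
      simp only [zero_add] at this
      rw [this, sub_self]
    · refine Continuous.intervalIntegrable ?_ _ _
      exact (sm_du hf).continuous.comp (by fun_prop)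
  simp [this]

theorem IsPer.mul {f g : R2 → ℂ} (hf : IsPer f) (hg : IsPer g) : IsPer (f * g) := by
  intro x
  simp only [Pi.mul_apply]
  exact ⟨by rw [(hf x).1, (hg x).1], by rw [(hf x).2, (hg x).2]⟩

theorem IsPer.dx {f : R2 → ℂ} (hf : IsPer f) : IsPer (dx f) := by
  intro x
  have h1 : (fun y : R2 => f (y + (2 * Real.pi, 0))) = f := by
    funext y
    have := (hf y).1
    convert this using 2
    ext <;> simp
  have h2 : (fun y : R2 => f (y + (0, 2 * Real.pi))) = f := by
    funext y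
    have := (hf y).2
    convert this using 2
    ext <;> simp
  have e1 : (x.1 + 2 * Real.pi, x.2) = x + (2 * Real.pi, 0) := by ext <;> simp
  have e2 : (x.1, x.2 + 2 * Real.pi) = x + (0, 2 * Real.pi) := by ext <;> simp
  constructor
  · simp only [Pool.H98.EQ.dx]
    rw [e1]
    conv_rhs => rw [← h1]
    rw [fderiv_comp_add_right]
  · simp only [Pool.H98.EQ.dx]
    rw [e2]
    conv_rhs => rw [← h2]
    rw [fderiv_comp_add_right]

theorem IsPer.du {f : R2 → ℂ} (hf : IsPer f) : IsPer (du f) := by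
  intro x
  have h1 : (fun y : R2 => f (y + (2 * Real.pi, 0))) = f := by
    funext y
    have := (hf y).1
    convert this using 2
    ext <;> simp
  have h2 : (fun y : R2 => f (y + (0, 2 * Real.pi))) = f := by
    funext y
    have := (hf y).2
    convert this using 2
    ext <;> simp
  have e1 : (x.1 + 2 * Real.pi, x.2) = x + (2 * Real.pi, 0) := by ext <;> simp
  have e2 : (x.1, x.2 + 2 * Real.pi) = x + (0, 2 * Real.pi) := by ext <;> simp
  constructor
  · simp only [Pool.H98.EQ.du]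
    rw [e1]
    conv_rhs => rw [← h1]
    rw [fderiv_comp_add_right]
  · simp only [Pool.H98.EQ.du]
    rw [e2]
    conv_rhs => rw [← h2]
    rw [fderiv_comp_add_right]

/-- integration by parts in `x` -/
theorem ibp_x {f : R2 → ℂ} (hf : ContDiff ℝ ∞ f) (hp : IsPer f) (m : ℤ × ℤ) :
    ∫ x, ex m x * ((m.1 : ℂ) * f x) ∂mu = ∫ x, ex m x * (I * dx f x) ∂mu := by
  have h := int_dx (sm_mul (sm_ex m) hf) ((per_ex m).mul hp)
  have e : ∀ x, ex m x * (I * dx f x) = I * dx (ex m * f) x + ex m x * ((m.1 : ℂ) * f x) := by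
    intro x
    rw [dx_mul (sm_ex m) hf]
    simp only [Pi.add_apply, Pi.mul_apply, dx_ex]
    linear_combination (-(m.1 : ℂ) * ex m x * f x) * I_mul_I
  simp only [e]
  rw [integral_add, integral_const_mul, h, mul_zero, zero_add]
  · exact (int_mu (sm_dx (sm_mul (sm_ex m) hf)).continuous).const_mul I
  · refine int_mu ?_
    exact (sm_ex m).continuous.mul (continuous_const.mul hf.continuous)

/-- integration by parts in `u` -/
theorem ibp_u {f : R2 → ℂ} (hf : ContDiff ℝ ∞ f) (hp : IsPer f) (m : ℤ × ℤ) :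
    ∫ x, ex m x * ((m.2 : ℂ) * f x) ∂mu = ∫ x, ex m x * (I * du f x) ∂mu := by
  have h := int_du (sm_mul (sm_ex m) hf) ((per_ex m).mul hp)
  have e : ∀ x, ex m x * (I * du f x) = I * du (ex m * f) x + ex m x * ((m.2 : ℂ) * f x) := by
    intro x
    rw [du_mul (sm_ex m) hf]
    simp only [Pi.add_apply, Pi.mul_apply, du_ex]
    linear_combination (-(m.2 : ℂ) * ex m x * f x) * I_mul_I
  simp only [e]
  rw [integral_add, integral_const_mul, h, mul_zero, zero_add]
  · exact (int_mu (sm_du (sm_mul (sm_ex m) hf)).continuous).const_mul I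
  · refine int_mu ?_
    exact (sm_ex m).continuous.mul (continuous_const.mul hf.continuous)

/-- one-dimensional uniqueness of Fourier series -/
theorem fourier_unique_1d {f : ℝ → ℂ} (hf : Continuous f) (hp : Function.Periodic f (2 * Real.pi))
    (h : ∀ n : ℤ, ∫ t in (0:ℝ)..(2 * Real.pi), Complex.exp (I * (n * t)) * f t = 0) :
    ∀ t, f t = 0 := by
  have : Fact (0 < 2 * Real.pi) := ⟨by positivity⟩
  set F : AddCircle (2 * Real.pi) → ℂ := hp.lift with hF
  have hFc : Continuous F := by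
    rw [hF]
    exact hf.quotient_liftOn' _
  have hcoef : ∀ n : ℤ, fourierCoeff F n = 0 := by
    intro n
    rw [fourierCoeff_eq_intervalIntegral F n 0]
    have := h (-n)
    have e : ∀ x : ℝ, fourier (-n) (x : AddCircle (2 * Real.pi)) • F (x : AddCircle (2 * Real.pi))
        = Complex.exp (I * (((-n : ℤ) : ℂ) * x)) * f x := by
      intro x
      rw [fourier_coe_apply, smul_eq_mul]
      have e1 : F (x : AddCircle (2 * Real.pi)) = f x := rfl
      rw [e1]
      congr 2
      have : (Real.pi : ℂ) ≠ 0 := by exact_mod_cast Real.pi_ne_zero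
      push_cast
      field_simp
    simp only [e, zero_add, this, smul_zero]
  intro t
  have hs : Summable (fourierCoeff (⟨F, hFc⟩ : C(AddCircle (2 * Real.pi), ℂ))) := by
    have : fourierCoeff (⟨F, hFc⟩ : C(AddCircle (2 * Real.pi), ℂ)) = fun _ => 0 := by
      funext n; exact hcoef n
    rw [this]; exact summable_zero
  have h2 := has_pointwise_sum_fourier_series_of_summable hs (t : AddCircle (2 * Real.pi))
  have h3 : (fun i => fourierCoeff (⟨F, hFc⟩ : C(AddCircle (2 * Real.pi), ℂ)) i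
      • fourier i (t : AddCircle (2 * Real.pi))) = fun _ => (0:ℂ) := by
    funext i
    have := hcoef i
    show fourierCoeff F i • _ = _
    rw [this, zero_smul]
  rw [h3] at h2
  exact h2.unique hasSum_zero

/-- two-dimensional uniqueness of Fourier series -/
theorem fourier_unique {f : R2 → ℂ} (hf : Continuous f) (hp : IsPer f)
    (h : ∀ m : ℤ × ℤ, ∫ x, ex m x * f x ∂mu = 0) : ∀ x, f x = 0 := by
  -- partial coefficients
  have h1 : ∀ (n : ℤ) (x : ℝ), ∫ u in (0:ℝ)..(2 * Real.pi), Complex.exp (I * (n * u)) * f (x, u) = 0 := by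
    intro n
    apply fourier_unique_1d
    · apply intervalIntegral.continuous_parametric_intervalIntegral_of_continuous'
      fun_prop
    · intro x
      refine intervalIntegral.integral_congr fun u _ => ?_
      show Complex.exp (I * (n * u)) * f (x + 2 * Real.pi, u) = Complex.exp (I * (n * u)) * f (x, u)
      rw [(hp (x, u)).1]
    · intro k
      have := h (k, n)
      rw [int_mu_eq (by exact (sm_ex _).continuous.mul hf)] at this
      rw [← this]
      refine intervalIntegral.integral_congr fun x _ => ?_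
      show Complex.exp (I * (k * x)) * ∫ u in (0:ℝ)..(2 * Real.pi), Complex.exp (I * (n * u)) * f (x, u)
        = ∫ u in (0:ℝ)..(2 * Real.pi), ex (k, n) (x, u) * f (x, u)
      rw [← intervalIntegral.integral_const_mul]
      refine intervalIntegral.integral_congr fun u _ => ?_
      show Complex.exp (I * (k * x)) * (Complex.exp (I * (n * u)) * f (x, u))
        = ex (k, n) (x, u) * f (x, u)
      rw [← mul_assoc, ← Complex.exp_add, ex]
      congr 2
      ring
  rintro ⟨x, u⟩
  refine fourier_unique_1d (f := fun u => f (x, u)) (by fun_prop) ?_ (fun n => h1 n x) u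
  intro u
  exact (hp (x, u)).2


theorem int_one : ∫ _x, (1:ℂ) ∂mu = ((2 * Real.pi : ℝ) : ℂ) ^ 2 := by
  rw [int_mu_eq continuous_const]
  simp only [intervalIntegral.integral_const, sub_zero]
  rw [Complex.real_smul, Complex.real_smul, mul_one]
  ring

theorem int_ex {m : ℤ × ℤ} (hm : m ≠ 0) : ∫ x, ex m x ∂mu = 0 := by
  have h1 := ibp_x (f := fun _ => (1:ℂ)) contDiff_const (fun _ => ⟨rfl, rfl⟩) m
  have h2 := ibp_u (f := fun _ => (1:ℂ)) contDiff_const (fun _ => ⟨rfl, rfl⟩) m
  rw [dx_const] at h1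
  rw [du_const] at h2
  simp only [mul_one, mul_zero, integral_zero] at h1 h2
  rw [integral_mul_const] at h1 h2
  by_contra hne
  apply hm
  ext
  · have := (mul_eq_zero.1 h1).resolve_left hne
    exact_mod_cast this
  · have := (mul_eq_zero.1 h2).resolve_left hne
    exact_mod_cast this

theorem fc_ex (k l : ℤ × ℤ) : fc (ex k) l = if l = k then 1 else 0 := by
  unfold fc ip
  have e : ∀ x, (starRingEnd ℂ) (ex l x) * ex k x = ex (k - l) x := fun x => conj_ex_mul l k x
  simp only [e]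
  split_ifs with h
  · subst h
    rw [sub_self]
    have : (fun x => ex 0 x) = fun _ => (1:ℂ) := by funext x; exact ex_zero x
    rw [this, int_one, inv_pow]
    have hpi : ((2 * Real.pi : ℝ) : ℂ) ^ 2 ≠ 0 := by
      apply pow_ne_zero
      exact_mod_cast (by positivity : (2 * Real.pi : ℝ) ≠ 0)
    exact inv_mul_cancel₀ hpi
  · rw [int_ex (sub_ne_zero.2 (Ne.symm h)), mul_zero]

theorem fc_lin {u v : R2 → ℂ} (c : ℂ) (hu : IsSm u) (hv : IsSm v) (k : ℤ × ℤ) :
    fc (fun x => u x + c * v x) k = fc u k + c * fc v k := by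
  have cu := hu.1.continuous
  have cv := hv.1.continuous
  have ce := (sm_ex k).continuous
  have i1 : Integrable (fun x => (starRingEnd ℂ) (ex k x) * u x) mu := int_mu (by fun_prop)
  have i2 : Integrable (fun x => (starRingEnd ℂ) (ex k x) * v x) mu := int_mu (by fun_prop)
  have e : ip (ex k) (fun x => u x + c * v x) = ip (ex k) u + c * ip (ex k) v := by
    unfold ip
    have : ∀ x, (starRingEnd ℂ) (ex k x) * (u x + c * v x)
        = (starRingEnd ℂ) (ex k x) * u x + c * ((starRingEnd ℂ) (ex k x) * v x) := by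
      intro x; ring
    simp only [this]
    rw [integral_add i1 (i2.const_mul c), integral_const_mul]
  unfold fc
  rw [e]; ring

/-- toroidal quantisations are linear -/
theorem quant_lin {ħ : ℝ} {σ : R2 → R2 → ℂ} {P : (R2 → ℂ) → R2 → ℂ}
    (h : IsQuantisation ħ σ P) : LinOp P where
  sm := fun hu => (h _ hu).1
  lin := by
    intro u v c hu hv
    funext x
    have h1 := (h u hu).2 x
    have h2 := (h v hv).2 x
    have h3 := (h _ (hu.add (hv.smul c))).2 x
    have h4 := h1.add (h2.mul_left c)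
    refine h3.unique ?_
    refine Eq.mp (congrArg (fun g => HasSum g (P u x + c * P v x)) ?_) h4
    funext k
    rw [fc_lin c hu hv]
    ring

/-- the action of a toroidal quantisation on exponentials -/
theorem quant_ex {ħ : ℝ} {σ : R2 → R2 → ℂ} {P : (R2 → ℂ) → R2 → ℂ}
    (h : IsQuantisation ħ σ P) (k : ℤ × ℤ) (x : R2) :
    P (ex k) x = σ x (ħ * k.1, ħ * k.2) * ex k x := by
  have h1 := (h (ex k) (is_ex k)).2 x
  have h2 : (fun l : ℤ × ℤ => σ x (ħ * l.1, ħ * l.2) * fc (ex k) l * ex l x)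
      = fun l => if l = k then σ x (ħ * k.1, ħ * k.2) * ex k x else 0 := by
    funext l
    rw [fc_ex]
    split_ifs with hl
    · subst hl; ring
    · ring
  rw [h2] at h1
  exact h1.unique (hasSum_ite_eq k _)

/-- symmetry tested on exponentials -/
theorem symm_test {ħ : ℝ} {σ : R2 → R2 → ℂ} {P : (R2 → ℂ) → R2 → ℂ}
    (h : IsQuantisation ħ σ P) (hs : IsSymm P) (k m : ℤ × ℤ) :
    ∫ x, ex m x * ((starRingEnd ℂ) (σ x (ħ * k.1, ħ * k.2))
      - σ x (ħ * (k + m).1, ħ * (k + m).2)) ∂mu = 0 := by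
  have h1 := hs (ex k) (ex (k + m)) (is_ex _) (is_ex _)
  unfold ip at h1
  have ek : ∀ x, (starRingEnd ℂ) (ex k x) * ex (k + m) x = ex m x := fun x => by
    rw [conj_ex_mul]; congr 1; ring
  have e1 : ∀ x, (starRingEnd ℂ) (P (ex k) x) * ex (k + m) x
      = ex m x * (starRingEnd ℂ) (σ x (ħ * k.1, ħ * k.2)) := by
    intro x
    rw [quant_ex h, map_mul]
    linear_combination (starRingEnd ℂ) (σ x (ħ * k.1, ħ * k.2)) * ek x
  have e2 : ∀ x, (starRingEnd ℂ) (ex k x) * P (ex (k + m)) x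
      = ex m x * σ x (ħ * (k + m).1, ħ * (k + m).2) := by
    intro x
    rw [quant_ex h]
    linear_combination σ x (ħ * (k + m).1, ħ * (k + m).2) * ek x
  have c1 := (h (ex k) (is_ex k)).1.1.continuous
  have c2 := (h (ex (k + m)) (is_ex (k + m))).1.1.continuous
  have c3 := (sm_ex k).continuous
  have c4 := (sm_ex (k + m)).continuous
  have i1 : Integrable (fun x => (starRingEnd ℂ) (P (ex k) x) * ex (k + m) x) mu :=
    int_mu (by fun_prop)
  have i2 : Integrable (fun x => (starRingEnd ℂ) (ex k x) * P (ex (k + m)) x) mu :=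
    int_mu (by fun_prop)
  have h2 := integral_sub i1 i2
  rw [h1, sub_self] at h2
  rw [← h2]
  refine integral_congr_ae (Filter.Eventually.of_forall fun x => ?_)
  show _ = (starRingEnd ℂ) (P (ex k) x) * ex (k + m) x - (starRingEnd ℂ) (ex k x) * P (ex (k + m)) x
  rw [e1, e2]; ring

/-- commutation tested on exponentials -/
theorem comm_test {ħ : ℝ} {σ₁ σ₂ : R2 → R2 → ℂ} {P Q : (R2 → ℂ) → R2 → ℂ}
    (h1 : IsQuantisation ħ σ₁ P) (h2 : IsQuantisation ħ σ₂ Q) (s1 : IsSymm P) (s2 : IsSymm Q)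
    (k m : ℤ × ℤ) :
    ∫ x, ex m x * ((starRingEnd ℂ) (σ₂ x (ħ * k.1, ħ * k.2)) * σ₁ x (ħ * (k + m).1, ħ * (k + m).2)
      - (starRingEnd ℂ) (σ₁ x (ħ * k.1, ħ * k.2)) * σ₂ x (ħ * (k + m).1, ħ * (k + m).2)) ∂mu
      = ip (P (Q (ex k))) (ex (k + m)) - ip (Q (P (ex k))) (ex (k + m)) := by
  rw [s1 (Q (ex k)) (ex (k + m)) (h2 _ (is_ex k)).1 (is_ex _),
    s2 (P (ex k)) (ex (k + m)) (h1 _ (is_ex k)).1 (is_ex _)]
  unfold ip
  have ek : ∀ x, (starRingEnd ℂ) (ex k x) * ex (k + m) x = ex m x := fun x => by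
    rw [conj_ex_mul]; congr 1; ring
  have e1 : ∀ x, (starRingEnd ℂ) (Q (ex k) x) * P (ex (k + m)) x
      = ex m x * ((starRingEnd ℂ) (σ₂ x (ħ * k.1, ħ * k.2))
        * σ₁ x (ħ * (k + m).1, ħ * (k + m).2)) := by
    intro x
    rw [quant_ex h1, quant_ex h2, map_mul]
    linear_combination (starRingEnd ℂ) (σ₂ x (ħ * k.1, ħ * k.2))
        * σ₁ x (ħ * (k + m).1, ħ * (k + m).2) * ek x
  have e2 : ∀ x, (starRingEnd ℂ) (P (ex k) x) * Q (ex (k + m)) x
      = ex m x * ((starRingEnd ℂ) (σ₁ x (ħ * k.1, ħ * k.2))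
        * σ₂ x (ħ * (k + m).1, ħ * (k + m).2)) := by
    intro x
    rw [quant_ex h1, quant_ex h2, map_mul]
    linear_combination (starRingEnd ℂ) (σ₁ x (ħ * k.1, ħ * k.2))
        * σ₂ x (ħ * (k + m).1, ħ * (k + m).2) * ek x
  have c1 := (h1 (ex k) (is_ex k)).1.1.continuous
  have c2 := (h1 (ex (k + m)) (is_ex (k + m))).1.1.continuous
  have c3 := (h2 (ex k) (is_ex k)).1.1.continuous
  have c4 := (h2 (ex (k + m)) (is_ex (k + m))).1.1.continuous
  have i1 : Integrable (fun x => (starRingEnd ℂ) (Q (ex k) x) * P (ex (k + m)) x) mu :=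
    int_mu (by fun_prop)
  have i2 : Integrable (fun x => (starRingEnd ℂ) (P (ex k) x) * Q (ex (k + m)) x) mu :=
    int_mu (by fun_prop)
  rw [← integral_sub i1 i2]
  refine integral_congr_ae (Filter.Eventually.of_forall fun x => ?_)
  show _ = (starRingEnd ℂ) (Q (ex k) x) * P (ex (k + m)) x
    - (starRingEnd ℂ) (P (ex k) x) * Q (ex (k + m)) x
  rw [e1, e2]; ring

end Pool.H98.EQ
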